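import Pool.Agent.Lib_helper71.LSPM2.RMC
import Pool.Agent.Lib_helper68.KSLF.MRB

/-! LSP2, part M2: upper bounds for the weights and for the coordinates. -/

namespace Pool.Agent.LSP

open Pool.Agent.LEV Pool.Agent.LVB Pool.Agent.KSL
open Pool.Agent.FG61 (mu phi cc ff AA Lam)

/-- the coordinates are at most `1/d` -/
theorem YE_le {δ : ℝ} (h0 : -(1 / 4) < δ) (h1 : δ < 1 / 4) : ∃ X₀ : ℕ, ∀ X : ℕ, X₀ ≤ X →
    ∀ d : ℕ, |YE δ X d| ≤ 1 / d := by
  obtain ⟨N₁, hN₁⟩ := sizesM h0 h1 (ε := 1) one_pos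
  obtain ⟨N₂, hN₂⟩ := be_smallM h0 h1 (ε := 1) one_pos
  refine ⟨max N₁ N₂, fun X hX d => ?_⟩
  obtain ⟨a1, a2, a3, -⟩ := hN₁ X ((le_max_left _ _).trans hX)
  obtain ⟨-, b2, -⟩ := hN₂ X ((le_max_right _ _).trans hX)
  rw [one_mul] at b2
  rcases Nat.eq_zero_or_pos d with h | h
  · subst h
    unfold YE yE
    rw [if_neg (fun h => absurd h.2 (by norm_num))]
    simp
  · exact mrb_yE_le (by omega) b2 d h

theorem wd_big {B q : ℕ} (V : ℕ → ℝ) (h : B < q) : wd B V q = 0 := by
  unfold wd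
  refine Finset.sum_eq_zero fun d hd => ?_
  rw [Finset.mem_Icc] at hd
  rw [if_neg]
  intro h1
  have := Nat.le_of_dvd (by omega) h1
  omega

/-- upper bounds for the weights (from `profile`, `wd_zero`) -/
theorem wd_le : ∃ C : ℝ, 1 ≤ C ∧ ∀ δ : ℝ, -(1 / 4) < δ → δ < 1 / 4 →
    ∃ X₀ : ℕ, ∀ X : ℕ, X₀ ≤ X → ∀ q : ℕ, 1 ≤ q →
      (¬ (Squarefree q ∧ rough (zz X) q ∧ q ≤ 2 * MM δ X) →
        wd (2 * MM δ X) (YE δ X) q = 0 ∧ wd (2 * MM δ X) (lg (YE δ X)) q = 0) ∧
      |wd (2 * MM δ X) (YE δ X) q| ≤ C / (Real.log X * Vz (zz X)) * (1 / phi q) ∧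
      |wd (2 * MM δ X) (lg (YE δ X)) q| ≤ C / Vz (zz X) * (1 / phi q) := by
  obtain ⟨C₀, hC₀, hp⟩ := profile
  refine ⟨6 + C₀, by linarith, fun δ h0 h1 => ?_⟩
  obtain ⟨N₁, hN₁⟩ := sizesM h0 h1 (ε := 1 / 100) (by norm_num)
  obtain ⟨N₂, hN₂⟩ := hp δ h0 h1 1 one_pos le_rfl
  refine ⟨max N₁ N₂, fun X hX q hq => ?_⟩
  obtain ⟨a1, a2, a3, -, -, -, a7, a8, -⟩ := hN₁ X ((le_max_left _ _).trans hX)
  have hpq := hN₂ X ((le_max_right _ _).trans hX) q hq
  have hX1 : (3 : ℝ) ≤ X := by exact_mod_cast a1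
  have hlX : 100 ≤ Real.log X := by
    have h2 : Real.log (Real.log X) ≤ Real.log X := by
      have h3 := Real.log_nonneg (by linarith : (1 : ℝ) ≤ X)
      exact Real.log_le_self h3
    norm_num at a8
    linarith
  have hV := WRS_Vz_pos (zz X)
  have hphi := WRS_phi_pos hq
  have hz : ¬ (Squarefree q ∧ rough (zz X) q ∧ q ≤ 2 * MM δ X) →
      wd (2 * MM δ X) (YE δ X) q = 0 ∧ wd (2 * MM δ X) (lg (YE δ X)) q = 0 := by
    intro h
    by_cases h2 : Squarefree q ∧ rough (zz X) q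
    · have h3 : 2 * MM δ X < q := by
        by_contra h4
        exact h ⟨h2.1, h2.2, by omega⟩
      exact ⟨wd_big _ h3, wd_big _ h3⟩
    · exact wd_zero δ X hq h2
  refine ⟨hz, ?_⟩
  by_cases hc : Squarefree q ∧ rough (zz X) q ∧ q ≤ 2 * MM δ X
  · obtain ⟨p1, p2⟩ := hpq hc.1 hc.2.1
    have hM0 : (0 : ℝ) < MM δ X := by exact_mod_cast (by omega : 0 < MM δ X)
    have hq0 : (0 : ℝ) < q := by exact_mod_cast hq
    have hL : Real.log X ≤ 5 * Real.log (MM δ X) := by
      have h3 : (1 / 4) * Real.log X ≤ (1 / 2 - δ) * Real.log X :=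
        mul_le_mul_of_nonneg_right (by linarith) (by linarith)
      have h4 := (abs_le.1 a7).1
      linarith
    have hL0 : 0 < Real.log (MM δ X) := by linarith
    have he : erP C₀ 1 δ X q ≤ 1 + C₀ := by
      unfold erP
      split_ifs <;> linarith
    have hm1 : |mP δ X q| ≤ 5 / Real.log X := by
      unfold mP
      split_ifs
      · rw [abs_of_nonneg (by positivity), div_le_div_iff₀ hL0 (by linarith)]
        linarith
      · rw [abs_zero]
        exact div_nonneg (by norm_num) (by linarith)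
    have hm2 : |mL δ X q| ≤ 1 := by
      unfold mL
      split_ifs with h
      · rw [abs_div, abs_of_pos hL0, div_le_one hL0, abs_le]
        have h3 := Real.log_nonneg (by exact_mod_cast hq : (1 : ℝ) ≤ q)
        have h4 := Real.log_le_log hq0 h
        constructor <;> linarith
      · rw [abs_zero]
        exact zero_le_one
    have hmu : |mu q| = 1 := by
      have h2 : |mu q| * |mu q| = 1 := by rw [← abs_mul, WRS_mu_sq hc.1, abs_one]
      nlinarith [abs_nonneg (mu q), WRS_mu_abs q]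
    have e1 : |prP δ X q| = phi q * Vz (zz X) * |wd (2 * MM δ X) (YE δ X) q| := by
      unfold prP
      rw [abs_mul, hmu, one_mul, abs_mul, abs_mul, abs_of_pos hphi, abs_of_pos hV]
    have e2 : |prL δ X q| = phi q * Vz (zz X) * |wd (2 * MM δ X) (lg (YE δ X)) q| := by
      unfold prL
      rw [abs_mul, hmu, one_mul, abs_mul, abs_mul, abs_of_pos hphi, abs_of_pos hV]
    have hP : |prP δ X q| ≤ (6 + C₀) / Real.log X := by
      have h3 : |prP δ X q| ≤ |prP δ X q - mP δ X q| + |mP δ X q| := by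
        have := abs_add_le (prP δ X q - mP δ X q) (mP δ X q)
        rwa [sub_add_cancel] at this
      have h4 : erP C₀ 1 δ X q / Real.log X ≤ (1 + C₀) / Real.log X :=
        div_le_div_of_nonneg_right he (by linarith)
      have h5 : (6 + C₀) / Real.log X = (1 + C₀) / Real.log X + 5 / Real.log X := by ring
      linarith
    have hL' : |prL δ X q| ≤ 6 + C₀ := by
      have h3 : |prL δ X q| ≤ |prL δ X q - mL δ X q| + |mL δ X q| := by
        have := abs_add_le (prL δ X q - mL δ X q) (mL δ X q)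
        rwa [sub_add_cancel] at this
      linarith
    constructor
    · have h6 : (6 + C₀) / (Real.log X * Vz (zz X)) * (1 / phi q) =
          (6 + C₀) / Real.log X / (phi q * Vz (zz X)) := by
        have : Real.log X ≠ 0 := by linarith
        field_simp
      rw [h6, le_div_iff₀ (by positivity), mul_comm, ← e1]
      exact hP
    · have h6 : (6 + C₀) / Vz (zz X) * (1 / phi q) = (6 + C₀) / (phi q * Vz (zz X)) := by
        field_simp
      rw [h6, le_div_iff₀ (by positivity), mul_comm, ← e2]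
      exact hL'
  · obtain ⟨w1, w2⟩ := hz hc
    rw [w1, w2, abs_zero]
    have hlX0 : 0 < Real.log X := by linarith
    constructor <;> positivity

end Pool.Agent.LSP
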