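import Pool.Agent.Lib_helper71.LSPM2.NT2

/-! LSP2, part M2: sums of `μ² / φ` over rough numbers. -/

namespace Pool.Agent.LSP

open Pool.Agent.LEV Pool.Agent.LVB Pool.Agent.KSL
open Pool.Agent.FG61 (mu phi cc ff AA Lam)
open Complex MeasureTheory Filter Topology

theorem rsum_num {e V ly lN lZ S : ℝ} (he0 : 0 < e) (he : e ≤ 1 / 10) (hV : 0 < V)
    (hly : 0 ≤ ly) (hlyN : ly ≤ lN) (hN : 1 + Real.log 2 ≤ e * lN)
    (hZ : lZ ≤ e * lN + Real.log 2)
    (hS : V⁻¹ * (1 - e) * ((1 - e) * S) ≤ 1 + ly + lZ) : S ≤ V * ly + 7 * e * V * lN := by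
  have h1 : (1 - e) ^ 2 * S ≤ V * (ly + 2 * e * lN) := by
    have h2 : V * (V⁻¹ * (1 - e) * ((1 - e) * S)) ≤ V * (1 + ly + lZ) :=
      mul_le_mul_of_nonneg_left hS hV.le
    have h3 : V * (V⁻¹ * (1 - e) * ((1 - e) * S)) = (1 - e) ^ 2 * S := by
      field_simp
    rw [h3] at h2
    refine h2.trans (mul_le_mul_of_nonneg_left ?_ hV.le)
    linarith
  have hlN : 0 ≤ lN := hly.trans hlyN
  set U := V * (ly + 2 * e * lN) with hU
  have hU0 : 0 ≤ U := by positivity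
  have h4 : 1 ≤ (1 + 3 * e) * (1 - e) ^ 2 := by nlinarith [mul_pos he0 he0]
  have h5 : S ≤ (1 + 3 * e) * U := by
    rcases le_or_gt S 0 with hS0 | hS0
    · exact hS0.trans (by positivity)
    · calc S = 1 * S := (one_mul S).symm
        _ ≤ (1 + 3 * e) * (1 - e) ^ 2 * S := mul_le_mul_of_nonneg_right h4 hS0.le
        _ = (1 + 3 * e) * ((1 - e) ^ 2 * S) := by ring
        _ ≤ (1 + 3 * e) * U := mul_le_mul_of_nonneg_left h1 (by linarith)
  refine h5.trans ?_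
  rw [hU]
  have h6 : 3 * e * ly ≤ 3 * e * lN := mul_le_mul_of_nonneg_left hlyN (by linarith)
  have h7 : (1 + 3 * e) * (ly + 2 * e * lN) ≤ ly + 7 * e * lN := by
    have : e * (e * lN) ≤ 1 / 10 * (e * lN) := mul_le_mul_of_nonneg_right he (by positivity)
    nlinarith
  calc (1 + 3 * e) * (V * (ly + 2 * e * lN)) = V * ((1 + 3 * e) * (ly + 2 * e * lN)) := by ring
    _ ≤ V * (ly + 7 * e * lN) := mul_le_mul_of_nonneg_left h7 hV.le
    _ = V * ly + 7 * e * V * lN := by ring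

/-- the sum of `μ² / φ` over the rough numbers -/
theorem rsum_asymp {ε : ℝ} (hε : 0 < ε) : ∃ N₀ : ℕ, ∀ N : ℕ, N₀ ≤ N → ∀ y : ℝ, 1 ≤ y →
    y ≤ N → |∑ r ∈ RO (zz N) ⌊y⌋₊, mu r ^ 2 / phi r - Vz (zz N) * Real.log y| ≤
      ε * (Vz (zz N) * Real.log N) := by
  set e : ℝ := min (1 / 10) (ε / 7) with he
  have he0 : 0 < e := lt_min (by norm_num) (by linarith)
  have he1 : e ≤ 1 / 10 := min_le_left _ _
  have he2 : e ≤ ε / 7 := min_le_right _ _
  obtain ⟨N₁, hN₁⟩ := smooth_tail he0 he0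
  obtain ⟨N₂, hN₂⟩ := rough_phi he0
  have hl : ∀ᶠ N : ℕ in atTop, 1 + Real.log 2 ≤ e * Real.log N :=
    ((Real.tendsto_log_atTop.comp tendsto_natCast_atTop_atTop).const_mul_atTop he0).eventually_ge_atTop _
  obtain ⟨N₃, hN₃⟩ := eventually_atTop.1 hl
  refine ⟨max 2 (max N₁ (max N₂ N₃)), fun N hN y hy hyN => ?_⟩
  have hN2 : 2 ≤ N := (le_max_left _ _).trans hN
  have h1 := hN₁ N ((le_max_left _ _).trans ((le_max_right _ _).trans hN))
  have h2 := hN₂ N ((le_max_left _ _).trans ((le_max_right _ _).trans ((le_max_right _ _).trans hN)))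
  have h3 := hN₃ N ((le_max_right _ _).trans ((le_max_right _ _).trans ((le_max_right _ _).trans hN)))
  have hNr : (2 : ℝ) ≤ N := by exact_mod_cast hN2
  have hN0 : (0 : ℝ) < N := by linarith
  have hlN : 0 < Real.log N := Real.log_pos (by linarith)
  have hV := phi_Vz_pos (zz N)
  have hly : 0 ≤ Real.log y := Real.log_nonneg hy
  have hy0 : 0 < y := by linarith
  have hY1 : 1 ≤ ⌊y⌋₊ := Nat.one_le_iff_ne_zero.2 fun h => by
    rw [Nat.floor_eq_zero] at h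
    linarith
  have hYy : (⌊y⌋₊ : ℝ) ≤ y := Nat.floor_le hy0.le
  -- lower bound
  have hlow : Vz (zz N) * Real.log y ≤ ∑ r ∈ RO (zz N) ⌊y⌋₊, mu r ^ 2 / phi r := by
    refine le_trans ?_ (rsum_low_pr hY1)
    refine mul_le_mul_of_nonneg_left ?_ hV.le
    exact Real.log_le_log hy0 (Nat.lt_floor_add_one y).le
  -- upper bound
  set Z : ℕ := ⌈(N : ℝ) ^ e⌉₊ with hZ
  have hZ1 : (N : ℝ) ^ e ≤ Z := Nat.le_ceil _
  have hNe : 1 ≤ (N : ℝ) ^ e := Real.one_le_rpow (by linarith) he0.le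
  have hZ2 : (Z : ℝ) ≤ 2 * (N : ℝ) ^ e := by
    have := Nat.ceil_lt_add_one (show 0 ≤ (N : ℝ) ^ e by positivity)
    linarith
  have hZpos : (0 : ℝ) < Z := by linarith
  have hZn : 1 ≤ Z := by exact_mod_cast hZpos
  have hlZ : Real.log Z ≤ e * Real.log N + Real.log 2 := by
    calc Real.log Z ≤ Real.log (2 * (N : ℝ) ^ e) := Real.log_le_log hZpos hZ2
      _ = e * Real.log N + Real.log 2 := by
          rw [Real.log_mul (by norm_num) (by positivity), Real.log_rpow hN0]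
          ring
  have hh := rough_harm (z := zz N) hZn hY1
  have hYl : Real.log (⌊y⌋₊ : ℝ) ≤ Real.log y :=
    Real.log_le_log (by exact_mod_cast hY1) hYy
  have hsum : (1 - e) * ∑ r ∈ RO (zz N) ⌊y⌋₊, mu r ^ 2 / phi r ≤
      ∑ r ∈ RO (zz N) ⌊y⌋₊, 1 / (r : ℝ) := by
    rw [Finset.mul_sum]
    refine Finset.sum_le_sum fun r hr => ?_
    obtain ⟨r1, r2, r3⟩ := GDL_mem_RO.1 hr
    have hr0 : (0 : ℝ) < r := by exact_mod_cast r1
    have hrN : r ≤ N ^ 2 := by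
      have : (r : ℝ) ≤ N := by
        have : (r : ℝ) ≤ (⌊y⌋₊ : ℝ) := by exact_mod_cast r2
        linarith
      have h5 : r ≤ N := by exact_mod_cast this
      exact h5.trans (Nat.le_self_pow (by norm_num) N)
    have h4 := h2 r r1 hrN r3
    have hp := GDL_phi_pos r1
    have hm : mu r ^ 2 ≤ 1 := by
      have := WRS_mu_abs r
      rw [← sq_abs]
      exact pow_le_one₀ (abs_nonneg _) this
    calc (1 - e) * (mu r ^ 2 / phi r) = (1 - e) * mu r ^ 2 / phi r := by ring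
      _ ≤ (1 - e) * 1 / phi r := by
          refine div_le_div_of_nonneg_right ?_ hp.le
          exact mul_le_mul_of_nonneg_left hm (by linarith)
      _ ≤ 1 / r := by
          rw [mul_one, div_le_div_iff₀ hp hr0]
          linarith
  have hS0 : (Vz (zz N))⁻¹ * (1 - e) * ((1 - e) * ∑ r ∈ RO (zz N) ⌊y⌋₊, mu r ^ 2 / phi r) ≤
      1 + Real.log y + Real.log Z := by
    have h4 := h1 Z hZ1
    have h5 : 0 ≤ ∑ r ∈ RO (zz N) ⌊y⌋₊, 1 / (r : ℝ) := Finset.sum_nonneg fun r _ => by positivity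
    have h6 : 0 ≤ (Vz (zz N))⁻¹ * (1 - e) :=
      mul_nonneg (inv_nonneg.2 hV.le) (by linarith)
    calc (Vz (zz N))⁻¹ * (1 - e) * ((1 - e) * ∑ r ∈ RO (zz N) ⌊y⌋₊, mu r ^ 2 / phi r) ≤
          (Vz (zz N))⁻¹ * (1 - e) * ∑ r ∈ RO (zz N) ⌊y⌋₊, 1 / (r : ℝ) :=
          mul_le_mul_of_nonneg_left hsum h6
      _ ≤ sZ (zz N) Z * ∑ r ∈ RO (zz N) ⌊y⌋₊, 1 / (r : ℝ) := mul_le_mul_of_nonneg_right h4 h5
      _ ≤ _ := by linarith
  have hup := rsum_num he0 he1 hV hly (Real.log_le_log hy0 hyN) h3 hlZ hS0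
  have h7 : 7 * e * Vz (zz N) * Real.log N ≤ ε * (Vz (zz N) * Real.log N) := by
    have : 7 * e ≤ ε := by linarith
    calc 7 * e * Vz (zz N) * Real.log N = 7 * e * (Vz (zz N) * Real.log N) := by ring
      _ ≤ _ := mul_le_mul_of_nonneg_right this (by positivity)
  rw [abs_le]
  constructor
  · have : 0 ≤ ε * (Vz (zz N) * Real.log N) := by positivity
    linarith
  · linarith

end Pool.Agent.LSP
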