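import Pool.Agent.Lib_helper71.LSPM.SPL
import Pool.Agent.Lib_helper68.KSLF.WWF

/-! LSP2, part M2: general mollifiers with a rough factor. -/

namespace Pool.Agent.LSP

open Pool.Agent.LEV Pool.Agent.LVB Pool.Agent.KSL
open Pool.Agent.FG61 (mu phi cc ff AA Lam)
open Complex MeasureTheory Filter Topology

/-- coefficients supported on the rough numbers up to `B` -/
def RVec (z B : ℕ) (V : ℕ → ℝ) : Prop := ∀ d, V d ≠ 0 → rough z d ∧ 1 ≤ d ∧ d ≤ B

/-- the coefficients of the mollifier divided by the index, rough part -/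
noncomputable def xsV (B : ℕ) (V : ℕ → ℝ) (r : ℕ) : ℝ := ∑ m ∈ Finset.Icc 1 B, mu m * V (r * m)

/-- the coefficients of the mollifier -/
noncomputable def xV (z B : ℕ) (V : ℕ → ℝ) (a : ℕ → ℝ) (e : ℕ) : ℝ :=
  if e = 0 then 0 else
    a (smp z e) * Real.sqrt (smp z e) * ((rop z e : ℝ) * xsV B V (rop z e))

/-- the weights of the fractions -/
noncomputable def wV (B : ℕ) (V : ℕ → ℝ) (q : ℕ) : ℝ := ∑ m ∈ Finset.Icc 1 B, V (q * m)

/-- the rough factor of the Fourier coefficients -/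
noncomputable def WrV (V : ℕ → ℝ) (n : ℕ) : ℝ := ∑ e ∈ n.divisors, (e : ℝ) * V e

theorem xX_eq_xV (z M K : ℕ) (a : ℕ → ℝ) : xX z M K a = xV z (K * M) (yE z M K) a := by
  ext e
  unfold xX xV xr xsV
  rfl

theorem RVec_yE {z M K : ℕ} (hK : 1 ≤ K) : RVec z (K * M) (yE z M K) := fun _ h =>
  SPL_yE_le hK h

theorem xsV_supp {z B r : ℕ} {V : ℕ → ℝ} (hV : RVec z B V) (_hr1 : 1 ≤ r) (h : xsV B V r ≠ 0) :
    rough z r ∧ r ≤ B := by
  obtain ⟨m, hm, h1⟩ := Finset.exists_ne_zero_of_sum_ne_zero h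
  rw [Finset.mem_Icc] at hm
  have h2 : V (r * m) ≠ 0 := fun h0 => h1 (by rw [h0, mul_zero])
  obtain ⟨h3, -, h5⟩ := hV _ h2
  refine ⟨fun p hp hpr => h3 p hp (hpr.mul_right _), ?_⟩
  exact (Nat.le_mul_of_pos_right r (by omega)).trans h5

theorem wV_supp {z B r : ℕ} {V : ℕ → ℝ} (hV : RVec z B V) (h : wV B V r ≠ 0) :
    rough z r ∧ 1 ≤ r ∧ r ≤ B := by
  obtain ⟨m, hm, h1⟩ := Finset.exists_ne_zero_of_sum_ne_zero h
  rw [Finset.mem_Icc] at hm
  obtain ⟨h3, h4, h5⟩ := hV _ h1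
  have hr : 1 ≤ r := by
    rw [Nat.one_le_iff_ne_zero]
    rintro rfl
    simp at h4
  refine ⟨fun p hp hpr => h3 p hp (hpr.mul_right _), hr, ?_⟩
  exact (Nat.le_mul_of_pos_right r (by omega)).trans h5

/-- the weights as sums over multiples -/
theorem wV_eq {z B r : ℕ} {V : ℕ → ℝ} (hV : RVec z B V) (hr : 1 ≤ r) :
    wV B V r = ∑ e ∈ (Finset.Icc 1 B).filter (fun e => r ∣ e), V e :=
  wwf_mult (fun e he => (hV e he).2) hr

theorem xsV_add (B : ℕ) (V V' : ℕ → ℝ) (r : ℕ) :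
    xsV B (fun d => V d + V' d) r = xsV B V r + xsV B V' r := by
  unfold xsV
  rw [← Finset.sum_add_distrib]
  exact Finset.sum_congr rfl fun m _ => by ring

/-- the rough part of the weights -/
theorem SPLV_rough {z B v : ℕ} {V : ℕ → ℝ} (hV : RVec z B V) (hv : 1 ≤ v) :
    ∑ r ∈ Finset.Icc 1 B, (if v ∣ r then tau (r / v) else 0) * xsV B V r = wV B V v := by
  have h1 : wV B V v = ∑ n ∈ Finset.Icc 1 B, ∑ p ∈ n.divisorsAntidiagonal,
      mu p.1 * tau p.2 * V (v * (p.1 * p.2)) := by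
    unfold wV
    refine Finset.sum_congr rfl fun n hn => ?_
    rw [Finset.mem_Icc] at hn
    have e1 : ∀ p ∈ n.divisorsAntidiagonal, mu p.1 * tau p.2 * V (v * (p.1 * p.2)) =
        mu p.1 * tau p.2 * V (v * n) := by
      intro p hp
      rw [(Nat.mem_divisorsAntidiagonal.1 hp).1]
    rw [Finset.sum_congr rfl e1, ← Finset.sum_mul, SPL_mutau hn.1, one_mul]
  rw [h1, SPL_pairs B (fun m s => mu m * tau s * V (v * (m * s)))]
  have h2 : ∀ m ∈ Finset.Icc 1 B, ∀ s ∈ Finset.Icc 1 B,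
      (if m * s ≤ B then mu m * tau s * V (v * (m * s)) else 0) =
        mu m * tau s * V (v * (m * s)) := by
    intro m hm s hs
    split_ifs with h
    · rfl
    · have : V (v * (m * s)) = 0 := by
        by_contra hne
        have := (hV _ hne).2.2
        have h3 : m * s ≤ v * (m * s) := Nat.le_mul_of_pos_left _ hv
        omega
      rw [this, mul_zero]
  rw [Finset.sum_congr rfl fun m hm => Finset.sum_congr rfl (h2 m hm)]
  rw [Finset.sum_comm]
  have h3 : ∀ s ∈ Finset.Icc 1 B, ∑ m ∈ Finset.Icc 1 B, mu m * tau s * V (v * (m * s)) =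
      tau s * xsV B V (v * s) := by
    intro s _
    unfold xsV
    rw [Finset.mul_sum]
    refine Finset.sum_congr rfl fun m _ => ?_
    rw [show v * (m * s) = v * s * m by ring]
    ring
  rw [Finset.sum_congr rfl h3]
  symm
  refine Finset.sum_bij_ne_zero (fun s _ _ => v * s) ?_ ?_ ?_ ?_
  · intro s hs h0
    rw [Finset.mem_Icc] at hs ⊢
    have hx : xsV B V (v * s) ≠ 0 := fun h => h0 (by rw [h, mul_zero])
    have hvs : 1 ≤ v * s := Nat.mul_pos hv hs.1
    exact ⟨hvs, (xsV_supp hV hvs hx).2⟩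
  · intro s _ _ s' _ _ h
    exact Nat.eq_of_mul_eq_mul_left hv h
  · intro r hr h0
    rw [Finset.mem_Icc] at hr
    have hd : v ∣ r := by
      by_contra hd
      rw [if_neg hd, zero_mul] at h0
      exact h0 rfl
    rw [if_pos hd] at h0
    obtain ⟨s, rfl⟩ := hd
    have hs : 1 ≤ s := by
      rw [Nat.one_le_iff_ne_zero]
      rintro rfl
      omega
    rw [Nat.mul_div_cancel_left s (by omega)] at h0
    refine ⟨s, ?_, h0, rfl⟩
    rw [Finset.mem_Icc]
    exact ⟨hs, (Nat.le_mul_of_pos_left s hv).trans hr.2⟩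
  · intro s hs h0
    rw [if_pos (Dvd.intro _ rfl), Nat.mul_div_cancel_left s (by omega)]

/-- the weights of the fractions -/
theorem wX_xV {z B A E : ℕ} {a : ℕ → ℝ} {V : ℕ → ℝ} (hV : RVec z B V)
    (ha : ∀ k, a k ≠ 0 → smooth z k ∧ k ≤ A) (hE : A * B ≤ E) {q : ℕ}
    (hq : 1 ≤ q) : wX E (xV z B V a) q = al A a (smp z q) * wV B V (rop z q) := by
  obtain ⟨q1, q2, q3, q4, q5⟩ := smp_rop_pr (z := z) hq
  have h1 : wX E (xV z B V a) q = ∑ e ∈ Finset.Icc 1 E,
      (fun k : ℕ => a k / Real.sqrt k) (smp z e) * xsV B V (rop z e) *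
        (if q ∣ e then tau (e / q) else 0) := by
    unfold wX
    rw [Finset.sum_filter]
    refine Finset.sum_congr rfl fun e he => ?_
    rw [Finset.mem_Icc] at he
    obtain ⟨e1, e2, e3, e4, e5⟩ := smp_rop_pr (z := z) he.1
    split_ifs with hd
    · have hx : xV z B V a e / e = a (smp z e) / Real.sqrt (smp z e) * xsV B V (rop z e) := by
        unfold xV
        rw [if_neg (by omega)]
        have hs0 : (0 : ℝ) < smp z e := by exact_mod_cast Nat.pos_of_ne_zero e3.1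
        have hr0 : (0 : ℝ) < rop z e := by exact_mod_cast e5
        have hsq : Real.sqrt (smp z e) * Real.sqrt (smp z e) = smp z e :=
          Real.mul_self_sqrt hs0.le
        have hsq0 : 0 < Real.sqrt (smp z e) := Real.sqrt_pos.2 hs0
        have he0 : (e : ℝ) = (smp z e : ℝ) * (rop z e : ℝ) := by
          rw [← Nat.cast_mul, e1]
        rw [he0]
        nth_rw 2 [← hsq]
        field_simp
      rw [hx]
    · rw [mul_zero]
  have h9 := SPL_sum (z := z) (A := A) (R := B) (E := E)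
    (f := fun k : ℕ => a k / Real.sqrt k) (g := xsV B V)
    (fun k hk hne => ha k (fun h0 => hne (by simp [h0])))
    (fun r hr hne => xsV_supp hV hr hne) hE
    (fun e => if q ∣ e then tau (e / q) else 0)
  rw [h1, h9]
  have h2 : ∀ k ∈ Finset.Icc 1 A, ∀ r ∈ Finset.Icc 1 B,
      a k / Real.sqrt k * xsV B V r * (if q ∣ k * r then tau (k * r / q) else 0) =
      (a k / Real.sqrt k * (if smp z q ∣ k then tau (k / smp z q) else 0)) *
        ((if rop z q ∣ r then tau (r / rop z q) else 0) * xsV B V r) := by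
    intro k hk r hr
    rw [Finset.mem_Icc] at hk hr
    by_cases hak : a k = 0
    · rw [hak]; simp
    by_cases hxr : xsV B V r = 0
    · rw [hxr]; simp
    have h3 := SPL_tau (ha k hak).1 (xsV_supp hV hr.1 hxr).1 q3 q4 hr.1
    rw [q1] at h3
    rw [h3]
    ring
  rw [Finset.sum_congr rfl fun k hk => Finset.sum_congr rfl (h2 k hk)]
  rw [← Finset.sum_mul_sum, SPLV_rough hV q5]
  congr 1
  unfold al
  rw [Finset.sum_filter]
  refine Finset.sum_congr rfl fun k _ => ?_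
  split_ifs
  · rfl
  · rw [mul_zero]

/-- sums of the weights against a function of the smooth and the rough part -/
theorem wX_vsum {z B A E : ℕ} {a : ℕ → ℝ} {V : ℕ → ℝ} (hV : RVec z B V)
    (ha : ∀ k, a k ≠ 0 → smooth z k ∧ k ≤ A) (hE : A * B ≤ E) (F : ℕ → ℝ) :
    ∑ q ∈ Finset.Icc 1 E, wX E (xV z B V a) q * F q =
      ∑ u ∈ Finset.Icc 1 A, ∑ r ∈ Finset.Icc 1 B, al A a u * wV B V r * F (u * r) := by
  rw [← SPL_sum (z := z) (E := E) (f := al A a) (g := wV B V)
    (fun k _ hk => al_supp_pr ha hk) (fun r _ hr => ⟨(wV_supp hV hr).1, (wV_supp hV hr).2.2⟩) hE F]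
  refine Finset.sum_congr rfl fun q hq => ?_
  rw [wX_xV hV ha hE (Finset.mem_Icc.1 hq).1]

/-- sums of the squares of the weights -/
theorem wX_sq_sum {z B A E : ℕ} {a : ℕ → ℝ} {V : ℕ → ℝ} (hV : RVec z B V)
    (ha : ∀ k, a k ≠ 0 → smooth z k ∧ k ≤ A) (hE : A * B ≤ E) (F : ℕ → ℝ) :
    ∑ q ∈ Finset.Icc 1 E, wX E (xV z B V a) q ^ 2 * F q =
      ∑ u ∈ Finset.Icc 1 A, ∑ r ∈ Finset.Icc 1 B, al A a u ^ 2 * wV B V r ^ 2 * F (u * r) := by
  rw [← SPL_sum (z := z) (E := E) (f := fun u => al A a u ^ 2) (g := fun r => wV B V r ^ 2)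
    (fun k _ hk => al_supp_pr ha (fun h => hk (by simp [h])))
    (fun r _ hr => ⟨(wV_supp hV (fun h => hr (by simp [h]))).1,
      (wV_supp hV (fun h => hr (by simp [h]))).2.2⟩) hE F]
  refine Finset.sum_congr rfl fun q hq => ?_
  rw [wX_xV hV ha hE (Finset.mem_Icc.1 hq).1]
  ring

/-- the Fourier coefficients of the rough part -/
theorem wV_cc {z B n : ℕ} {V : ℕ → ℝ} (hV : RVec z B V) (hn : 1 ≤ n) :
    ∑ r ∈ Finset.Icc 1 B, wV B V r * cc r n = WrV V n := by
  have h1 : ∑ r ∈ Finset.Icc 1 B, wV B V r * cc r n =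
      ∑ r ∈ Finset.Icc 1 B, (∑ e ∈ (Finset.Icc 1 B).filter (fun e => r ∣ e), V e * 1) * cc r n := by
    refine Finset.sum_congr rfl fun r hr => ?_
    rw [wV_eq hV (Finset.mem_Icc.1 hr).1]
    simp
  rw [h1, wwf_swap B V (fun r => cc r n) (fun _ _ => 1)]
  have h2 : ∀ e ∈ Finset.Icc 1 B, V e * ∑ r ∈ e.divisors, 1 * cc r n =
      if e ∣ n then (e : ℝ) * V e else 0 := by
    intro e he
    simp only [one_mul]
    rw [wwf_sum_cc n (Finset.mem_Icc.1 he).1]
    split_ifs <;> ring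
  rw [Finset.sum_congr rfl h2, ← Finset.sum_filter]
  unfold WrV
  refine Finset.sum_subset_zero_on_sdiff ?_ ?_ fun _ _ => rfl
  · intro e he
    rw [Finset.mem_filter] at he
    rw [Nat.mem_divisors]
    exact ⟨he.2, by omega⟩
  · intro e he
    rw [Finset.mem_sdiff, Finset.mem_filter, Nat.mem_divisors, Finset.mem_Icc] at he
    have : V e = 0 := by
      by_contra hne
      have := hV e hne
      exact he.2 ⟨⟨this.2.1, this.2.2⟩, he.1.1⟩
    rw [this, mul_zero]

/-- the Fourier coefficients -/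
theorem WW_xV {z B A E : ℕ} {a : ℕ → ℝ} {V : ℕ → ℝ} (hV : RVec z B V)
    (ha : ∀ k, a k ≠ 0 → smooth z k ∧ k ≤ A) (hE : A * B ≤ E) {n : ℕ} (hn : 1 ≤ n) :
    WW E (wX E (xV z B V a)) n = Ph A a n * WrV V n := by
  unfold WW
  rw [wX_vsum hV ha hE (fun q => cc q n)]
  rw [← wwf_Ph A a n, ← wV_cc hV hn, Finset.sum_mul_sum]
  refine Finset.sum_congr rfl fun u hu => Finset.sum_congr rfl fun r hr => ?_
  rw [Finset.mem_Icc] at hu hr
  by_cases h1 : al A a u = 0
  · rw [h1]; simp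
  by_cases h2 : wV B V r = 0
  · rw [h2]; simp
  rw [wwf_cc_mul n hu.1 hr.1 (SRO_coprime (al_supp_pr ha h1).1 (wV_supp hV h2).1)]
  ring

/-- only the rough part matters -/
theorem WrV_rop {z B : ℕ} {V : ℕ → ℝ} (hV : RVec z B V) {n : ℕ} (hn : 1 ≤ n) :
    WrV V n = WrV V (rop z n) := by
  obtain ⟨q1, q2, q3, q4, q5⟩ := smp_rop_pr (z := z) hn
  unfold WrV
  symm
  refine Finset.sum_subset_zero_on_sdiff ?_ ?_ fun _ _ => rfl
  · intro e he
    rw [Nat.mem_divisors] at he ⊢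
    exact ⟨he.1.trans (Dvd.intro_left _ q1), by omega⟩
  · intro e he
    rw [Finset.mem_sdiff, Nat.mem_divisors, Nat.mem_divisors] at he
    have : V e = 0 := by
      by_contra hne
      have h1 := (hV e hne).1
      apply he.2
      refine ⟨?_, by omega⟩
      have h2 : e ∣ smp z n * rop z n := by rw [q1]; exact he.1.1
      exact (SRO_coprime q3 h1).symm.dvd_of_dvd_mul_left h2
    rw [this, mul_zero]

end Pool.Agent.LSP
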