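import Pool.Agent.Lib_helper71.LSPM2.GEN2

/-! LSP2, part M2: the vectors `T_p y` in the coordinates `V_d = ∑_{d | e} x_e / e`. -/

namespace Pool.Agent.LSP

open Pool.Agent.LEV Pool.Agent.LVB Pool.Agent.KSL
open Pool.Agent.FG61 (mu phi cc ff AA Lam)

/-- the coordinates of `T_p y` -/
noncomputable def VT (p : ℕ) (V : ℕ → ℝ) (d : ℕ) : ℝ := V (d / Nat.gcd d p) / p + V (p * d)

/-- the coordinates of `∑ θ_p T_p y` -/
noncomputable def VZ (P : Finset ℕ) (θ V : ℕ → ℝ) (d : ℕ) : ℝ := ∑ p ∈ P, θ p * VT p V d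

/-- the size of `∑ θ_p T_p y` -/
noncomputable def Th (P : Finset ℕ) (θ : ℕ → ℝ) : ℝ :=
  (∑ p ∈ P, |θ p| / p) ^ 2 + ∑ p ∈ P, θ p ^ 2 / p

/-- the bilinear form of the main term -/
noncomputable def BFb (B : ℕ) (L : ℝ) (V V' : ℕ → ℝ) : ℝ :=
  L * QF B phi V V' + 4 * QF B phL V V' - 2 * QF B phi V (lg V') - 2 * QF B phi (lg V) V'

end Pool.Agent.LSP
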