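import Pool.Agent.Lib_helper71.LSPM2.RMB

/-! LSP2, part M2: the profiles of the weights. -/

namespace Pool.Agent.LSP

open Pool.Agent.LEV Pool.Agent.LVB Pool.Agent.KSL
open Pool.Agent.FG61 (mu phi cc ff AA Lam)

/-- the vector of the mollifier of length `X^(1/2-δ)` -/
noncomputable def YE (δ : ℝ) (X : ℕ) : ℕ → ℝ := yE (zz X) (MM δ X) 2

/-- the profile: `w_q = μ(q) prP(q) / (φ(q) V)` -/
noncomputable def prP (δ : ℝ) (X q : ℕ) : ℝ :=
  mu q * (phi q * Vz (zz X) * wd (2 * MM δ X) (YE δ X) q)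

/-- the profile of the weights with a logarithm -/
noncomputable def prL (δ : ℝ) (X q : ℕ) : ℝ :=
  mu q * (phi q * Vz (zz X) * wd (2 * MM δ X) (lg (YE δ X)) q)

/-- main term of `prP` -/
noncomputable def mP (δ : ℝ) (X : ℕ) (x : ℝ) : ℝ :=
  if x ≤ MM δ X then 1 / Real.log (MM δ X) else 0

/-- main term of `prL` -/
noncomputable def mL (δ : ℝ) (X : ℕ) (x : ℝ) : ℝ :=
  if x ≤ MM δ X then (2 * Real.log x - Real.log (MM δ X)) / Real.log (MM δ X) else 0

open Classical in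
/-- majorant of the errors -/
noncomputable def erP (C ε δ : ℝ) (X : ℕ) (x : ℝ) : ℝ :=
  (if x ≤ 2 * MM δ X then ε else 0) +
    if (MM δ X : ℝ) * (X : ℝ) ^ (-ε) < x ∧ x ≤ MM δ X then C else 0

/-- the weights of the sums -/
noncomputable def nu (q : ℕ) : ℝ := mu q ^ 2 / phi q

end Pool.Agent.LSP
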