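import Pool.Agent.Lib_helper71.LSPM2.DEF

/-! LSP2, part M2: the sum `∑ H(k t) / k`. -/

namespace Pool.Agent.LSP

open Pool.Agent.LEV Pool.Agent.LVB Pool.Agent.KSL
open Pool.Agent.FG61 (mu phi cc ff AA Lam)
open Complex MeasureTheory Filter Topology

/-- a decreasing bounded function with quadratic decay -/
structure Kd (g : ℝ → ℝ) (G C : ℝ) : Prop extends Kg g G where
  dec : ∀ u, 0 < u → g u ≤ C / u ^ 2

/-- its integral -/
noncomputable def hK (g : ℝ → ℝ) (v : ℝ) : ℝ := ∫ u in Set.Ioi v, g u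

/-- the sum over multiples -/
noncomputable def kS (g : ℝ → ℝ) (t : ℝ) : ℝ := ∑' k : ℕ, hK g (k * t) / k

theorem hK_int {g : ℝ → ℝ} {G : ℝ} (hg : Kg g G) {v : ℝ} (hv : 0 ≤ v) :
    IntegrableOn g (Set.Ioi v) :=
  hg.int.mono_set fun _ hu => lt_of_le_of_lt hv hu

theorem hK_nonneg {g : ℝ → ℝ} {G : ℝ} (hg : Kg g G) (v : ℝ) : 0 ≤ hK g v :=
  integral_nonneg fun u => hg.nonneg u

theorem hK_sub {g : ℝ → ℝ} {G : ℝ} (hg : Kg g G) {v w : ℝ} (hv : 0 ≤ v) (hw : v ≤ w) :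
    hK g v - hK g w = ∫ u in v..w, g u :=
  intervalIntegral.integral_Ioi_sub_Ioi (hK_int hg hv) hw

theorem hK_anti {g : ℝ → ℝ} {G : ℝ} (hg : Kg g G) {v w : ℝ} (hv : 0 ≤ v) (hw : v ≤ w) :
    hK g w ≤ hK g v := by
  have h1 := hK_sub hg hv hw
  have h2 : 0 ≤ ∫ u in v..w, g u := intervalIntegral.integral_nonneg hw fun u _ => hg.nonneg u
  linarith

theorem Kd_nonneg {g : ℝ → ℝ} {G C : ℝ} (hg : Kd g G C) : 0 ≤ C := by
  have h1 := hg.dec 1 one_pos
  have h2 := hg.nonneg 1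
  simp at h1
  linarith

theorem Kg_G_nonneg {g : ℝ → ℝ} {G : ℝ} (hg : Kg g G) : 0 ≤ G := (hg.nonneg 0).trans (hg.bdd 0)

theorem hK_le {g : ℝ → ℝ} {G C : ℝ} (hg : Kd g G C) {v : ℝ} (hv : 0 < v) : hK g v ≤ C / v := by
  have e1 : ∀ u ∈ Set.Ioi v, C / u ^ 2 = C * u ^ (-2 : ℝ) := by
    intro u hu
    have hu0 : (0 : ℝ) < u := lt_trans hv hu
    rw [Real.rpow_neg hu0.le, Real.rpow_two]
    rfl
  have hi : IntegrableOn (fun u : ℝ => C * u ^ (-2 : ℝ)) (Set.Ioi v) :=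
    (integrableOn_Ioi_rpow_of_lt (by norm_num) hv).const_mul _
  calc hK g v ≤ ∫ u in Set.Ioi v, C * u ^ (-2 : ℝ) := by
        refine setIntegral_mono_on (hK_int hg.toKg hv.le) hi measurableSet_Ioi fun u hu => ?_
        rw [← e1 u hu]
        exact hg.dec u (lt_trans hv hu)
    _ = C / v := by
        rw [integral_const_mul, integral_Ioi_rpow_of_lt (by norm_num) hv]
        rw [show (-2 : ℝ) + 1 = -1 by norm_num, Real.rpow_neg_one]
        field_simp

theorem kS_term {g : ℝ → ℝ} {G C : ℝ} (hg : Kd g G C) {t : ℝ} (ht : 0 < t) (k : ℕ) :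
    0 ≤ hK g (k * t) / k ∧ hK g (k * t) / k ≤ C / t * (1 / (k : ℝ) ^ 2) := by
  have hC := Kd_nonneg hg
  rcases Nat.eq_zero_or_pos k with hk | hk
  · subst hk
    simp
  · have hk0 : (0 : ℝ) < k := by exact_mod_cast hk
    refine ⟨div_nonneg (hK_nonneg hg.toKg _) hk0.le, ?_⟩
    calc hK g (k * t) / k ≤ C / (k * t) / k :=
          div_le_div_of_nonneg_right (hK_le hg (by positivity)) hk0.le
      _ = C / t * (1 / (k : ℝ) ^ 2) := by field_simp

theorem kS_summable {g : ℝ → ℝ} {G C : ℝ} (hg : Kd g G C) {t : ℝ} (ht : 0 < t) :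
    Summable (fun k : ℕ => hK g (k * t) / k) :=
  Summable.of_nonneg_of_le (fun k => (kS_term hg ht k).1) (fun k => (kS_term hg ht k).2)
    ((Real.summable_one_div_nat_pow.2 one_lt_two).mul_left _)

theorem kS_nonneg {g : ℝ → ℝ} {G : ℝ} (hg : Kg g G) (t : ℝ) : 0 ≤ kS g t :=
  tsum_nonneg fun k => div_nonneg (hK_nonneg hg _) (Nat.cast_nonneg k)

theorem Kg_ii {g : ℝ → ℝ} {G : ℝ} (hg : Kg g G) {v w : ℝ} (hv : 0 ≤ v) (hw : v ≤ w) :
    IntervalIntegrable g volume v w := by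
  rw [intervalIntegrable_iff_integrableOn_Ioc_of_le hw]
  exact hg.int.mono_set fun u hu => lt_of_le_of_lt hv hu.1

/-- one term from above -/
theorem hK_term_le {g : ℝ → ℝ} {G : ℝ} (hg : Kg g G) {s : ℝ} (hs : 0 < s) (k : ℕ) :
    s * g ((k + 1 : ℕ) * s) ≤ hK g (k * s) - hK g ((k + 1 : ℕ) * s) := by
  have h0 : 0 ≤ (k : ℝ) * s := by positivity
  have h1 : (k : ℝ) * s ≤ ((k + 1 : ℕ) : ℝ) * s := by
    push_cast
    nlinarith
  rw [hK_sub hg h0 h1]
  have h2 : ∫ _ in (k * s)..((k + 1 : ℕ) * s), g ((k + 1 : ℕ) * s) = s * g ((k + 1 : ℕ) * s) := by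
    rw [intervalIntegral.integral_const, smul_eq_mul]
    push_cast
    ring
  rw [← h2]
  refine intervalIntegral.integral_mono_on_of_le_Ioo h1 intervalIntegrable_const
    (Kg_ii hg h0 h1) fun u hu => ?_
  have hu0 : 0 < u := lt_of_le_of_lt h0 hu.1
  exact hg.anti hu0 (Set.mem_Ioi.2 (hu0.trans hu.2)) hu.2.le

/-- one term from below -/
theorem hK_term_ge {g : ℝ → ℝ} {G : ℝ} (hg : Kg g G) {s : ℝ} (hs : 0 < s) (k : ℕ) :
    hK g ((k + 1 : ℕ) * s) - hK g ((k + 1 + 1 : ℕ) * s) ≤ s * g ((k + 1 : ℕ) * s) := by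
  have h0 : 0 < ((k + 1 : ℕ) : ℝ) * s := by positivity
  have h1 : ((k + 1 : ℕ) : ℝ) * s ≤ ((k + 1 + 1 : ℕ) : ℝ) * s := by
    push_cast
    nlinarith
  rw [hK_sub hg h0.le h1]
  have h2 : ∫ _ in ((k + 1 : ℕ) * s)..((k + 1 + 1 : ℕ) * s), g ((k + 1 : ℕ) * s) =
      s * g ((k + 1 : ℕ) * s) := by
    rw [intervalIntegral.integral_const, smul_eq_mul]
    push_cast
    ring
  rw [← h2]
  refine intervalIntegral.integral_mono_on_of_le_Ioo h1 (Kg_ii hg h0.le h1)
    intervalIntegrable_const fun u hu => ?_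
  exact hg.anti (Set.mem_Ioi.2 h0) (Set.mem_Ioi.2 (h0.trans hu.1)) hu.1.le

/-- sums over multiples, from above -/
theorem hK_sum_le {g : ℝ → ℝ} {G : ℝ} (hg : Kg g G) {s : ℝ} (hs : 0 < s) (n : ℕ) :
    ∑ k ∈ Finset.range n, g ((k + 1 : ℕ) * s) ≤ hK g 0 * (1 / s) := by
  have h1 : ∑ k ∈ Finset.range n, s * g ((k + 1 : ℕ) * s) ≤ hK g 0 := by
    calc ∑ k ∈ Finset.range n, s * g ((k + 1 : ℕ) * s) ≤
          ∑ k ∈ Finset.range n, (hK g (k * s) - hK g ((k + 1 : ℕ) * s)) :=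
          Finset.sum_le_sum fun k _ => hK_term_le hg hs k
      _ = hK g ((0 : ℕ) * s) - hK g ((n : ℕ) * s) :=
          Finset.sum_range_sub' (fun k : ℕ => hK g (k * s)) n
      _ ≤ hK g 0 := by
          have := hK_nonneg hg (n * s)
          simp
          linarith
  rw [← Finset.mul_sum] at h1
  rw [mul_one_div, le_div_iff₀ hs]
  linarith

/-- sums over multiples, from below -/
theorem hK_sum_ge {g : ℝ → ℝ} {G : ℝ} (hg : Kg g G) {s : ℝ} (hs : 0 < s) (n : ℕ) :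
    hK g 0 * (1 / s) - G - hK g ((n + 1 : ℕ) * s) * (1 / s) ≤
      ∑ k ∈ Finset.range n, g ((k + 1 : ℕ) * s) := by
  have h1 : hK g s - hK g ((n + 1 : ℕ) * s) ≤ ∑ k ∈ Finset.range n, s * g ((k + 1 : ℕ) * s) := by
    calc hK g s - hK g ((n + 1 : ℕ) * s) =
          hK g ((0 + 1 : ℕ) * s) - hK g ((n + 1 : ℕ) * s) := by simp
      _ = ∑ k ∈ Finset.range n, (hK g ((k + 1 : ℕ) * s) - hK g ((k + 1 + 1 : ℕ) * s)) :=
          (Finset.sum_range_sub' (fun k : ℕ => hK g ((k + 1 : ℕ) * s)) n).symm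
      _ ≤ _ := Finset.sum_le_sum fun k _ => hK_term_ge hg hs k
  have h2 : hK g 0 - hK g s ≤ s * G := by
    rw [hK_sub hg le_rfl hs.le]
    calc ∫ u in (0 : ℝ)..s, g u ≤ ∫ _ in (0 : ℝ)..s, G :=
          intervalIntegral.integral_mono_on hs.le (Kg_ii hg le_rfl hs.le)
            intervalIntegrable_const fun u _ => hg.bdd u
      _ = s * G := by
          rw [intervalIntegral.integral_const, smul_eq_mul, sub_zero]
  rw [← Finset.mul_sum] at h1
  have h3 : hK g 0 * (1 / s) - G - hK g ((n + 1 : ℕ) * s) * (1 / s) =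
      (hK g 0 - s * G - hK g ((n + 1 : ℕ) * s)) / s := by
    field_simp
  rw [h3, div_le_iff₀ hs]
  linarith

/-- the difference of one term as an integral -/
theorem hK_diff {g : ℝ → ℝ} {G : ℝ} (hg : Kg g G) {t t' : ℝ} (ht : 0 < t) (h : t ≤ t') (k : ℕ) :
    (hK g ((k + 1 : ℕ) * t) - hK g ((k + 1 : ℕ) * t')) / ((k + 1 : ℕ) : ℝ) =
      ∫ s in t..t', g ((k + 1 : ℕ) * s) := by
  have hk : (0 : ℝ) < ((k + 1 : ℕ) : ℝ) := by positivity
  rw [hK_sub hg (by positivity) (mul_le_mul_of_nonneg_left h hk.le),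
    intervalIntegral.integral_comp_mul_left (fun u => g u) hk.ne', smul_eq_mul]
  ring

theorem hK_ii {g : ℝ → ℝ} {G : ℝ} (hg : Kg g G) {t t' : ℝ} (ht : 0 < t) (h : t ≤ t') (k : ℕ) :
    IntervalIntegrable (fun s => g ((k + 1 : ℕ) * s)) volume t t' := by
  refine AntitoneOn.intervalIntegrable fun x hx y hy hxy => ?_
  rw [Set.uIcc_of_le h] at hx hy
  have hk : (0 : ℝ) < ((k + 1 : ℕ) : ℝ) := by positivity
  have hx0 : 0 < x := ht.trans_le hx.1
  refine hg.anti (Set.mem_Ioi.2 (by positivity)) (Set.mem_Ioi.2 ?_)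
    (mul_le_mul_of_nonneg_left hxy hk.le)
  have := hx0.trans_le hxy
  positivity

/-- partial sums of the difference -/
theorem kS_part {g : ℝ → ℝ} {G : ℝ} (hg : Kg g G) {t t' : ℝ} (ht : 0 < t) (h : t ≤ t') (n : ℕ) :
    ∑ k ∈ Finset.range n, (hK g ((k + 1 : ℕ) * t) / ((k + 1 : ℕ) : ℝ) -
      hK g ((k + 1 : ℕ) * t') / ((k + 1 : ℕ) : ℝ)) =
      ∫ s in t..t', ∑ k ∈ Finset.range n, g ((k + 1 : ℕ) * s) := by
  rw [intervalIntegral.integral_finsetSum fun k _ => hK_ii hg ht h k]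
  refine Finset.sum_congr rfl fun k _ => ?_
  rw [← hK_diff hg ht h k, sub_div]

theorem kS_part_lim {g : ℝ → ℝ} {G C : ℝ} (hg : Kd g G C) {t t' : ℝ} (ht : 0 < t) (h : t ≤ t') :
    Tendsto (fun n : ℕ => ∑ k ∈ Finset.range n, (hK g ((k + 1 : ℕ) * t) / ((k + 1 : ℕ) : ℝ) -
      hK g ((k + 1 : ℕ) * t') / ((k + 1 : ℕ) : ℝ))) atTop (𝓝 (kS g t - kS g t')) := by
  have ht' : 0 < t' := ht.trans_le h
  have h1 : ∀ {t : ℝ}, 0 < t → HasSum (fun k : ℕ => hK g ((k + 1 : ℕ) * t) / ((k + 1 : ℕ) : ℝ))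
      (kS g t) := by
    intro t ht
    have h2 := (kS_summable hg ht).hasSum
    have h3 := (hasSum_nat_add_iff' (f := fun k : ℕ => hK g (k * t) / k) 1).2 h2
    unfold kS
    simpa using h3
  exact ((h1 ht).sub (h1 ht')).tendsto_sum_nat

theorem inv_ii {t t' : ℝ} (ht : 0 < t) (h : t ≤ t') :
    IntervalIntegrable (fun s : ℝ => 1 / s) volume t t' := by
  refine intervalIntegral.intervalIntegrable_one_div (fun s hs => ?_) continuousOn_id
  rw [Set.uIcc_of_le h] at hs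
  exact (ht.trans_le hs.1).ne'

theorem sum_ii {g : ℝ → ℝ} {G : ℝ} (hg : Kg g G) {t t' : ℝ} (ht : 0 < t) (h : t ≤ t') (n : ℕ) :
    IntervalIntegrable (fun s => ∑ k ∈ Finset.range n, g ((k + 1 : ℕ) * s)) volume t t' := by
  have h1 := IntervalIntegrable.sum (Finset.range n) (f := fun k s => g ((k + 1 : ℕ) * s))
    (fun k _ => hK_ii hg ht h k)
  have e1 : (∑ k ∈ Finset.range n, fun s : ℝ => g ((k + 1 : ℕ) * s)) =
      fun s => ∑ k ∈ Finset.range n, g ((k + 1 : ℕ) * s) := by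
    ext s
    simp
  rw [e1] at h1
  exact h1

/-- the difference from above -/
theorem kS_diff_le {g : ℝ → ℝ} {G C : ℝ} (hg : Kd g G C) {t t' : ℝ} (ht : 0 < t) (h : t ≤ t') :
    kS g t - kS g t' ≤ hK g 0 * Real.log (t' / t) := by
  refine le_of_tendsto (kS_part_lim hg ht h) (Eventually.of_forall fun n => ?_)
  rw [kS_part hg.toKg ht h n]
  calc ∫ s in t..t', ∑ k ∈ Finset.range n, g ((k + 1 : ℕ) * s) ≤
        ∫ s in t..t', hK g 0 * (1 / s) := by
        refine intervalIntegral.integral_mono_on h (sum_ii hg.toKg ht h n)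
          ((inv_ii ht h).const_mul _) fun s hs => ?_
        exact hK_sum_le hg.toKg (ht.trans_le hs.1) n
    _ = hK g 0 * Real.log (t' / t) := by
        rw [intervalIntegral.integral_const_mul, integral_one_div_of_pos ht (ht.trans_le h)]

/-- the difference from below -/
theorem kS_diff_ge {g : ℝ → ℝ} {G C : ℝ} (hg : Kd g G C) {t t' : ℝ} (ht : 0 < t) (h : t ≤ t') :
    hK g 0 * Real.log (t' / t) - G * (t' - t) ≤ kS g t - kS g t' := by
  have hC := Kd_nonneg hg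
  have hlim : Tendsto (fun n : ℕ => hK g 0 * Real.log (t' / t) - G * (t' - t) -
      C / t ^ 2 * (t' - t) * (1 / ((n : ℝ) + 1))) atTop
      (𝓝 (hK g 0 * Real.log (t' / t) - G * (t' - t))) := by
    have h1 := (tendsto_one_div_add_atTop_nhds_zero_nat (𝕜 := ℝ)).const_mul
      (C / t ^ 2 * (t' - t))
    rw [mul_zero] at h1
    have h2 := h1.const_sub (hK g 0 * Real.log (t' / t) - G * (t' - t))
    rwa [sub_zero] at h2
  refine le_of_tendsto_of_tendsto hlim (kS_part_lim hg ht h) (Eventually.of_forall fun n => ?_)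
  simp only
  rw [kS_part hg.toKg ht h n]
  have h1 : ∀ s ∈ Set.Icc t t', hK g 0 * (1 / s) - (G + C / t ^ 2 * (1 / ((n : ℝ) + 1))) ≤
      ∑ k ∈ Finset.range n, g ((k + 1 : ℕ) * s) := by
    intro s hs
    have hs0 : 0 < s := ht.trans_le hs.1
    have h2 := hK_sum_ge hg.toKg hs0 n
    have h3 : hK g ((n + 1 : ℕ) * s) * (1 / s) ≤ C / t ^ 2 * (1 / ((n : ℝ) + 1)) := by
      have h4 := hK_le hg (v := (n + 1 : ℕ) * s) (by positivity)
      calc hK g ((n + 1 : ℕ) * s) * (1 / s) ≤ C / ((n + 1 : ℕ) * s) * (1 / s) :=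
            mul_le_mul_of_nonneg_right h4 (by positivity)
        _ = C / s ^ 2 * (1 / ((n : ℝ) + 1)) := by
            push_cast
            field_simp
        _ ≤ C / t ^ 2 * (1 / ((n : ℝ) + 1)) := by
            refine mul_le_mul_of_nonneg_right ?_ (by positivity)
            exact div_le_div_of_nonneg_left hC (by positivity)
              (pow_le_pow_left₀ ht.le hs.1 2)
    linarith
  calc hK g 0 * Real.log (t' / t) - G * (t' - t) - C / t ^ 2 * (t' - t) * (1 / ((n : ℝ) + 1)) =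
        ∫ s in t..t', (hK g 0 * (1 / s) - (G + C / t ^ 2 * (1 / ((n : ℝ) + 1)))) := by
        rw [intervalIntegral.integral_sub ((inv_ii ht h).const_mul _) intervalIntegrable_const,
          intervalIntegral.integral_const_mul, integral_one_div_of_pos ht (ht.trans_le h),
          intervalIntegral.integral_const, smul_eq_mul]
        ring
    _ ≤ _ := intervalIntegral.integral_mono_on h
        (((inv_ii ht h).const_mul _).sub intervalIntegrable_const) (sum_ii hg.toKg ht h n) h1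

end Pool.Agent.LSP
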