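import Pool.Agent.Lib_helper71.LSPM2.EXA
import Pool.Agent.Lib_helper68.KSLF.PHI

/-! LSP2, part M2: the sum over all integers. -/

namespace Pool.Agent.LSP

open Pool.Agent.LEV Pool.Agent.LVB Pool.Agent.KSL
open Pool.Agent.FG61 (mu phi cc ff AA Lam)
open Complex MeasureTheory Filter Topology

/-- the sum over the multiples -/
noncomputable def wd (B : ℕ) (V : ℕ → ℝ) (q : ℕ) : ℝ :=
  ∑ d ∈ Finset.Icc 1 B, if q ∣ d then V d else 0

/-- multiplication by the logarithm -/
noncomputable def lg (V : ℕ → ℝ) (d : ℕ) : ℝ := V d * Real.log d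

/-- a diagonal quadratic form in the weights -/
noncomputable def QF (B : ℕ) (h : ℕ → ℝ) (V V' : ℕ → ℝ) : ℝ :=
  ∑ q ∈ Finset.Icc 1 B, h q * (wd B V q * wd B V' q)

/-- the absolute sum -/
noncomputable def aV (B : ℕ) (V : ℕ → ℝ) : ℝ :=
  ∑ d ∈ Finset.Icc 1 B, ∑ e ∈ Finset.Icc 1 B, (Nat.gcd d e : ℝ) * (|V d| * |V e|)

/-- the sum over all integers -/
noncomputable def EE (g : ℝ → ℝ) (V : ℕ → ℝ) (y : ℝ) : ℝ :=
  ∑' n : ℕ, WrV V n ^ 2 * (hK g (n * y) / n)

theorem wV_eq_wd {z B q : ℕ} {V : ℕ → ℝ} (hV : RVec z B V) (hq : 1 ≤ q) :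
    wV B V q = wd B V q := by
  rw [wV_eq hV hq, Finset.sum_filter]
  rfl

theorem QF_eq (B : ℕ) (h : ℕ → ℝ) (V V' : ℕ → ℝ) :
    ∑ d ∈ Finset.Icc 1 B, ∑ e ∈ Finset.Icc 1 B,
      (∑ u ∈ Finset.Icc 1 B, if u ∣ d ∧ u ∣ e then h u else 0) * (V d * V' e) = QF B h V V' := by
  calc ∑ d ∈ Finset.Icc 1 B, ∑ e ∈ Finset.Icc 1 B,
        (∑ u ∈ Finset.Icc 1 B, if u ∣ d ∧ u ∣ e then h u else 0) * (V d * V' e)
      = ∑ d ∈ Finset.Icc 1 B, ∑ e ∈ Finset.Icc 1 B, ∑ u ∈ Finset.Icc 1 B,
          (if u ∣ d ∧ u ∣ e then h u else 0) * (V d * V' e) := by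
        refine Finset.sum_congr rfl fun d _ => Finset.sum_congr rfl fun e _ => ?_
        rw [Finset.sum_mul]
    _ = ∑ d ∈ Finset.Icc 1 B, ∑ u ∈ Finset.Icc 1 B, ∑ e ∈ Finset.Icc 1 B,
          (if u ∣ d ∧ u ∣ e then h u else 0) * (V d * V' e) :=
        Finset.sum_congr rfl fun d _ => Finset.sum_comm
    _ = ∑ u ∈ Finset.Icc 1 B, ∑ d ∈ Finset.Icc 1 B, ∑ e ∈ Finset.Icc 1 B,
          (if u ∣ d ∧ u ∣ e then h u else 0) * (V d * V' e) := Finset.sum_comm
    _ = _ := by
        unfold QF wd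
        refine Finset.sum_congr rfl fun u _ => ?_
        rw [Finset.sum_mul_sum, Finset.mul_sum]
        refine Finset.sum_congr rfl fun d _ => ?_
        rw [Finset.mul_sum]
        refine Finset.sum_congr rfl fun e _ => ?_
        by_cases h1 : u ∣ d
        · by_cases h2 : u ∣ e
          · rw [if_pos ⟨h1, h2⟩, if_pos h1, if_pos h2]
          · rw [if_neg (fun h => h2 h.2), if_neg h2]
            ring
        · rw [if_neg (fun h => h1 h.1), if_neg h1]
          ring

theorem QF_gcd (B : ℕ) (V V' : ℕ → ℝ) :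
    ∑ d ∈ Finset.Icc 1 B, ∑ e ∈ Finset.Icc 1 B, (Nat.gcd d e : ℝ) * (V d * V' e) =
      QF B phi V V' := by
  rw [← QF_eq]
  refine Finset.sum_congr rfl fun d hd => Finset.sum_congr rfl fun e _ => ?_
  rw [← phi_gcd hd]

/-- the coefficients of `n log n` -/
noncomputable def psL (q : ℕ) : ℝ :=
  phi q * Real.log q + ∑ p ∈ q.divisorsAntidiagonal, phi p.1 * ArithmeticFunction.vonMangoldt p.2

theorem psL_sum {n : ℕ} (hn : 1 ≤ n) : ∑ q ∈ n.divisors, psL q = n * Real.log n := by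
  have hid : ∑ q ∈ n.divisors, phi q = (n : ℝ) := by
    have := Nat.sum_totient n
    unfold phi
    rw [← Nat.cast_sum, this]
  -- arithmetic functions
  let P : ArithmeticFunction ℝ := ⟨fun m => phi m, by simp [phi]⟩
  have h1 : (P * ArithmeticFunction.log) n =
      ∑ q ∈ n.divisors, ∑ p ∈ q.divisorsAntidiagonal, phi p.1 * ArithmeticFunction.vonMangoldt p.2 := by
    rw [← ArithmeticFunction.vonMangoldt_mul_zeta, ← mul_assoc,
      ArithmeticFunction.coe_mul_zeta_apply]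
    refine Finset.sum_congr rfl fun q _ => ?_
    rw [ArithmeticFunction.mul_apply]
    rfl
  have h2 : (P * ArithmeticFunction.log) n = ∑ q ∈ n.divisors, phi q * Real.log ((n / q : ℕ)) := by
    rw [ArithmeticFunction.mul_apply,
      Nat.sum_divisorsAntidiagonal (fun a b => P a * ArithmeticFunction.log b)]
    rfl
  unfold psL
  rw [Finset.sum_add_distrib, ← h1, h2, ← Finset.sum_add_distrib, ← hid, Finset.sum_mul]
  refine Finset.sum_congr rfl fun q hq => ?_
  have hq1 := Nat.pos_of_mem_divisors hq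
  have hd := Nat.dvd_of_mem_divisors hq
  have hq0 : (0 : ℝ) < q := by exact_mod_cast hq1
  have hn0 : (0 : ℝ) < n := by exact_mod_cast hn
  rw [hid, Nat.cast_div hd hq0.ne', Real.log_div hn0.ne' hq0.ne']
  ring

theorem psL_le {z q : ℕ} (hz : 1 ≤ z) (hq : 1 ≤ q) (hr : rough z q) :
    psL q ≤ phi q * (Real.log q * (1 + 1 / z)) := by
  have hz0 : (0 : ℝ) < z := by exact_mod_cast hz
  have h1 : ∀ p ∈ q.divisorsAntidiagonal, phi p.1 * ArithmeticFunction.vonMangoldt p.2 ≤
      phi q * (1 / z) * ArithmeticFunction.vonMangoldt p.2 := by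
    intro p hp
    obtain ⟨hp1, hp2⟩ := Nat.mem_divisorsAntidiagonal.1 hp
    by_cases h0 : ArithmeticFunction.vonMangoldt p.2 = 0
    · rw [h0, mul_zero, mul_zero]
    · have hpp := ArithmeticFunction.vonMangoldt_ne_zero_iff.1 h0
      refine mul_le_mul_of_nonneg_right ?_ ArithmeticFunction.vonMangoldt_nonneg
      obtain ⟨l, k, hl, hk, hlk⟩ := hpp
      have hl' := hl.nat_prime
      have hlb : l ∣ p.2 := by
        rw [← hlk]
        exact dvd_pow_self l hk.ne'
      have hlq : l ∣ q := by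
        rw [← hp1]
        exact hlb.trans (Dvd.intro_left _ rfl)
      have hzl := hr l hl' hlq
      have h2 : z ≤ p.2.totient := by
        have h3 : l.totient ≤ p.2.totient := by
          refine Nat.le_of_dvd ?_ (Nat.totient_dvd_of_dvd hlb)
          refine Nat.totient_pos.2 (Nat.pos_of_ne_zero ?_)
          rintro h
          rw [h, mul_zero] at hp1
          omega
        rw [Nat.totient_prime hl'] at h3
        omega
      have h3 := Nat.totient_super_multiplicative p.1 p.2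
      rw [hp1] at h3
      have h4 : phi p.1 * z ≤ phi q := by
        unfold phi
        have : p.1.totient * z ≤ q.totient := (Nat.mul_le_mul_left _ h2).trans h3
        exact_mod_cast this
      rw [mul_one_div, le_div_iff₀ hz0]
      exact h4
  have h2 : ∑ p ∈ q.divisorsAntidiagonal, ArithmeticFunction.vonMangoldt p.2 = Real.log q := by
    rw [Nat.sum_divisorsAntidiagonal' (fun _ b => ArithmeticFunction.vonMangoldt b)]
    exact ArithmeticFunction.vonMangoldt_sum
  unfold psL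
  calc phi q * Real.log q +
        ∑ p ∈ q.divisorsAntidiagonal, phi p.1 * ArithmeticFunction.vonMangoldt p.2 ≤
        phi q * Real.log q +
          ∑ p ∈ q.divisorsAntidiagonal, phi q * (1 / z) * ArithmeticFunction.vonMangoldt p.2 := by
        have := Finset.sum_le_sum h1
        linarith
    _ = phi q * (Real.log q * (1 + 1 / z)) := by
        rw [← Finset.mul_sum, h2]
        ring

theorem divisors_filter {B d e : ℕ} (hd : d ∈ Finset.Icc 1 B) (h : ℕ → ℝ) :
    (∑ u ∈ Finset.Icc 1 B, if u ∣ d ∧ u ∣ e then h u else 0) = ∑ u ∈ (Nat.gcd d e).divisors, h u := by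
  rw [Finset.mem_Icc] at hd
  rw [← Finset.sum_filter]
  refine Finset.sum_congr ?_ fun _ _ => rfl
  ext u
  simp only [Finset.mem_filter, Finset.mem_Icc, Nat.mem_divisors]
  constructor
  · rintro ⟨-, h1, h2⟩
    exact ⟨Nat.dvd_gcd h1 h2, (Nat.gcd_pos_of_pos_left _ (by omega)).ne'⟩
  · rintro ⟨h1, -⟩
    obtain ⟨h2, h3⟩ := Nat.dvd_gcd_iff.1 h1
    exact ⟨⟨Nat.pos_of_dvd_of_pos h2 (by omega), (Nat.le_of_dvd (by omega) h2).trans hd.2⟩, h2, h3⟩

/-- the sum with `log [d, e]` -/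
theorem QF_lcm (B : ℕ) (V : ℕ → ℝ) :
    ∑ d ∈ Finset.Icc 1 B, ∑ e ∈ Finset.Icc 1 B,
      (Nat.gcd d e : ℝ) * (V d * V e) * Real.log (Nat.lcm d e) =
      2 * QF B phi V (lg V) - QF B psL V V := by
  have h1 : ∀ d ∈ Finset.Icc 1 B, ∀ e ∈ Finset.Icc 1 B,
      (Nat.gcd d e : ℝ) * (V d * V e) * Real.log (Nat.lcm d e) =
        (Nat.gcd d e : ℝ) * (lg V d * V e) + (Nat.gcd d e : ℝ) * (V d * lg V e) -
          (∑ u ∈ Finset.Icc 1 B, if u ∣ d ∧ u ∣ e then psL u else 0) * (V d * V e) := by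
    intro d hd e he
    have hd' := Finset.mem_Icc.1 hd
    have he' := Finset.mem_Icc.1 he
    have hg1 : 1 ≤ Nat.gcd d e := Nat.gcd_pos_of_pos_left _ (by omega)
    have hl1 : 0 < Nat.lcm d e := Nat.lcm_pos (by omega) (by omega)
    rw [divisors_filter hd, psL_sum hg1]
    have hg0 : (0 : ℝ) < (Nat.gcd d e : ℝ) := by exact_mod_cast hg1
    have hl0 : (0 : ℝ) < (Nat.lcm d e : ℝ) := by exact_mod_cast hl1
    have hd0 : (0 : ℝ) < d := by exact_mod_cast hd'.1
    have he0 : (0 : ℝ) < e := by exact_mod_cast he'.1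
    have h2 : Real.log (Nat.gcd d e) + Real.log (Nat.lcm d e) = Real.log d + Real.log e := by
      rw [← Real.log_mul hg0.ne' hl0.ne', ← Real.log_mul hd0.ne' he0.ne', ← Nat.cast_mul,
        ← Nat.cast_mul, Nat.gcd_mul_lcm]
    have h3 : Real.log (Nat.lcm d e) = Real.log d + Real.log e - Real.log (Nat.gcd d e) := by
      linarith
    rw [h3]
    unfold lg
    ring
  rw [Finset.sum_congr rfl fun d hd => Finset.sum_congr rfl (h1 d hd)]
  simp only [Finset.sum_sub_distrib, Finset.sum_add_distrib]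
  rw [QF_gcd, QF_gcd, QF_eq]
  have h4 : QF B phi (lg V) V = QF B phi V (lg V) := by
    unfold QF
    exact Finset.sum_congr rfl fun q _ => by ring
  rw [h4]
  ring

/-! ### the sum over all integers -/

theorem WrV_sum {z B n : ℕ} {V : ℕ → ℝ} (hV : RVec z B V) (hn : 1 ≤ n) :
    WrV V n = ∑ d ∈ Finset.Icc 1 B, if d ∣ n then (d : ℝ) * V d else 0 := by
  unfold WrV
  rw [← Finset.sum_filter]
  symm
  refine Finset.sum_subset_zero_on_sdiff ?_ ?_ fun _ _ => rfl
  · intro e he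
    rw [Finset.mem_filter] at he
    rw [Nat.mem_divisors]
    exact ⟨he.2, by omega⟩
  · intro e he
    rw [Finset.mem_sdiff, Finset.mem_filter, Nat.mem_divisors, Finset.mem_Icc] at he
    have : V e = 0 := by
      by_contra hne
      have := hV e hne
      exact he.2 ⟨⟨this.2.1, this.2.2⟩, he.1.1⟩
    rw [this, mul_zero]

theorem kS_dvd {g : ℝ → ℝ} {G C : ℝ} (hg : Kd g G C) {D : ℕ} (hD : 1 ≤ D) {y : ℝ} (hy : 0 < y) :
    HasSum (fun n : ℕ => if D ∣ n then hK g (n * y) / n else 0) (kS g (D * y) / D) := by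
  have hD0 : (0 : ℝ) < D := by exact_mod_cast hD
  have h := (kS_summable hg (t := D * y) (by positivity)).hasSum.div_const (D : ℝ)
  have hinj : Function.Injective (fun m : ℕ => D * m) := fun a b hab =>
    Nat.eq_of_mul_eq_mul_left hD hab
  rw [← hinj.hasSum_iff]
  · have e1 : ((fun n : ℕ => if D ∣ n then hK g (n * y) / n else 0) ∘ fun m : ℕ => D * m) =
        fun k : ℕ => hK g (k * (D * y)) / k / D := by
      funext k
      simp only [Function.comp]
      rw [if_pos (dvd_mul_right _ _)]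
      push_cast
      rw [show (D : ℝ) * k * y = k * (D * y) by ring, div_div, mul_comm (D : ℝ) k]
    rw [e1]
    exact h
  · intro n hn
    rw [if_neg]
    rintro ⟨k, rfl⟩
    exact hn ⟨k, rfl⟩

theorem EE_hasSum {g : ℝ → ℝ} {G C : ℝ} (hg : Kd g G C) {z B : ℕ} {V : ℕ → ℝ} (hV : RVec z B V)
    {y : ℝ} (hy : 0 < y) : HasSum (fun n : ℕ => WrV V n ^ 2 * (hK g (n * y) / n))
      (∑ d ∈ Finset.Icc 1 B, ∑ e ∈ Finset.Icc 1 B,
        (Nat.gcd d e : ℝ) * (V d * V e) * kS g (Nat.lcm d e * y)) := by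
  have h1 : HasSum (fun n : ℕ => ∑ d ∈ Finset.Icc 1 B, ∑ e ∈ Finset.Icc 1 B,
      ((d : ℝ) * e * (V d * V e)) * (if Nat.lcm d e ∣ n then hK g (n * y) / n else 0))
      (∑ d ∈ Finset.Icc 1 B, ∑ e ∈ Finset.Icc 1 B,
        ((d : ℝ) * e * (V d * V e)) * (kS g (Nat.lcm d e * y) / (Nat.lcm d e : ℕ))) := by
    refine hasSum_sum fun d hd => hasSum_sum fun e he => ?_
    rw [Finset.mem_Icc] at hd he
    have hl1 : 0 < Nat.lcm d e := Nat.lcm_pos (by omega) (by omega)
    exact (kS_dvd hg hl1 hy).mul_left _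
  convert h1 using 1
  · ext n
    rcases Nat.eq_zero_or_pos n with hn | hn
    · subst hn
      simp
    · rw [WrV_sum hV hn, sq, Finset.sum_mul_sum, Finset.sum_mul]
      refine Finset.sum_congr rfl fun d hd => ?_
      rw [Finset.sum_mul]
      refine Finset.sum_congr rfl fun e he => ?_
      by_cases h2 : d ∣ n
      · by_cases h3 : e ∣ n
        · rw [if_pos h2, if_pos h3, if_pos (Nat.lcm_dvd h2 h3)]
          ring
        · rw [if_neg h3, if_neg (fun h => h3 ((Nat.dvd_lcm_right d e).trans h))]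
          ring
      · rw [if_neg h2, if_neg (fun h => h2 ((Nat.dvd_lcm_left d e).trans h))]
        ring
  · refine Finset.sum_congr rfl fun d hd => Finset.sum_congr rfl fun e he => ?_
    rw [Finset.mem_Icc] at hd he
    have hl1 : 0 < Nat.lcm d e := Nat.lcm_pos (by omega) (by omega)
    have hl0 : (0 : ℝ) < (Nat.lcm d e : ℝ) := by exact_mod_cast hl1
    have h2 : (Nat.gcd d e : ℝ) * (Nat.lcm d e : ℝ) = d * e := by
      rw [← Nat.cast_mul, Nat.gcd_mul_lcm, Nat.cast_mul]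
    rw [← h2]
    field_simp

/-- the sum over all integers, exactly up to a small error -/
theorem EE_le {g : ℝ → ℝ} {G C : ℝ} (hg : Kd g G C) {z B : ℕ} (hB : 1 ≤ B) {V : ℕ → ℝ}
    (hV : RVec z B V) {y : ℝ} (hy : 0 < y) (hy1 : (B : ℝ) ^ 2 * y ≤ 1) :
    Summable (fun n : ℕ => WrV V n ^ 2 * (hK g (n * y) / n)) ∧ 0 ≤ EE g V y ∧
    EE g V y ≤ (kS g 1 + hK g 0 * Real.log (1 / y)) * QF B phi V V -
      hK g 0 * (2 * QF B phi V (lg V) - QF B psL V V) + G * ((B : ℝ) ^ 2 * y) * aV B V := by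
  have hS := EE_hasSum hg hV hy
  have hB0 : (0 : ℝ) < B := by exact_mod_cast hB
  have hG := Kg_G_nonneg hg.toKg
  set t : ℝ := (B : ℝ) ^ 2 * y with ht
  have ht0 : 0 < t := by positivity
  refine ⟨hS.summable, tsum_nonneg fun n => mul_nonneg (sq_nonneg _)
    (div_nonneg (hK_nonneg hg.toKg _) (Nat.cast_nonneg n)), ?_⟩
  have hEq : EE g V y = ∑ d ∈ Finset.Icc 1 B, ∑ e ∈ Finset.Icc 1 B,
        (Nat.gcd d e : ℝ) * (V d * V e) * kS g (Nat.lcm d e * y) := hS.tsum_eq
  have hA0 : 0 ≤ QF B phi V V := by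
    unfold QF
    exact Finset.sum_nonneg fun q _ => mul_nonneg (by unfold phi; positivity) (mul_self_nonneg _)
  -- each term
  have hterm : ∀ d ∈ Finset.Icc 1 B, ∀ e ∈ Finset.Icc 1 B,
      (Nat.gcd d e : ℝ) * (V d * V e) * kS g (Nat.lcm d e * y) ≤
        (kS g t + hK g 0 * Real.log (t / y)) * ((Nat.gcd d e : ℝ) * (V d * V e)) -
          hK g 0 * ((Nat.gcd d e : ℝ) * (V d * V e) * Real.log (Nat.lcm d e)) +
          G * t * ((Nat.gcd d e : ℝ) * (|V d| * |V e|)) := by
    intro d hd e he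
    rw [Finset.mem_Icc] at hd he
    have hl1 : 0 < Nat.lcm d e := Nat.lcm_pos (by omega) (by omega)
    have hl0 : (0 : ℝ) < (Nat.lcm d e : ℝ) := by exact_mod_cast hl1
    have hlB : (Nat.lcm d e : ℝ) ≤ (B : ℝ) ^ 2 := by
      have h1 : Nat.lcm d e ≤ B ^ 2 := by
        calc Nat.lcm d e ≤ d * e := Nat.lcm_le_mul (by omega) (by omega)
          _ ≤ B * B := Nat.mul_le_mul hd.2 he.2
          _ = B ^ 2 := (sq B).symm
      exact_mod_cast h1
    have hle : (Nat.lcm d e : ℝ) * y ≤ t := mul_le_mul_of_nonneg_right hlB hy.le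
    have hl2 : 0 < (Nat.lcm d e : ℝ) * y := by positivity
    have h1 := kS_diff_le hg hl2 hle
    have h2 := kS_diff_ge hg hl2 hle
    have h3 : Real.log (t / (Nat.lcm d e * y)) = Real.log (t / y) - Real.log (Nat.lcm d e) := by
      rw [Real.log_div ht0.ne' hl2.ne', Real.log_mul hl0.ne' hy.ne', Real.log_div ht0.ne' hy.ne']
      ring
    rw [h3] at h1 h2
    have h4 : G * (t - Nat.lcm d e * y) ≤ G * t := mul_le_mul_of_nonneg_left (by linarith) hG
    have h5 : |kS g (Nat.lcm d e * y) - (kS g t + hK g 0 * (Real.log (t / y) -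
        Real.log (Nat.lcm d e)))| ≤ G * t := by
      rw [abs_le]
      constructor
      · linarith
      · have : 0 ≤ G * t := by positivity
        linarith
    have h6 : (Nat.gcd d e : ℝ) * (V d * V e) * (kS g (Nat.lcm d e * y) - (kS g t + hK g 0 *
        (Real.log (t / y) - Real.log (Nat.lcm d e)))) ≤
        (Nat.gcd d e : ℝ) * (|V d| * |V e|) * (G * t) := by
      refine (le_abs_self _).trans ?_
      rw [abs_mul, abs_mul, abs_mul, abs_of_nonneg (Nat.cast_nonneg (Nat.gcd d e) : (0:ℝ) ≤ _)]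
      exact mul_le_mul_of_nonneg_left h5 (by positivity)
    linarith
  have h1 : EE g V y ≤ (kS g t + hK g 0 * Real.log (t / y)) * QF B phi V V -
      hK g 0 * (2 * QF B phi V (lg V) - QF B psL V V) + G * t * aV B V := by
    rw [hEq, ← QF_lcm, ← QF_gcd]
    unfold aV
    refine (Finset.sum_le_sum fun d hd => Finset.sum_le_sum (hterm d hd)).trans (le_of_eq ?_)
    simp only [Finset.sum_sub_distrib, Finset.sum_add_distrib, ← Finset.mul_sum]
  have h2 : kS g t + hK g 0 * Real.log (t / y) ≤ kS g 1 + hK g 0 * Real.log (1 / y) := by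
    have h3 := kS_diff_le hg ht0 hy1
    rw [Real.log_div ht0.ne' hy.ne', Real.log_div one_ne_zero hy.ne', Real.log_one] at *
    rw [Real.log_div one_ne_zero ht0.ne', Real.log_one] at h3
    linarith
  have h3 := mul_le_mul_of_nonneg_right h2 hA0
  linarith

end Pool.Agent.LSP
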