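import Pool.Agent.Lib_helper71.LSPM2.EXA
import Pool.Agent.Lib_helper71.LSPM.INT
import Pool.Agent.Lib_helper58.Planch

/-! LSP2, part M2: the kernels. -/

namespace Pool.Agent.LSP

open Pool.Agent.LEV Pool.Agent.LVB Pool.Agent.KSL
open Pool.Agent.FG61 (mu phi cc ff AA Lam)
open Complex MeasureTheory Filter Topology
open scoped ENNReal

theorem kh_fourier (ρ : ℝ → ℝ) (u : ℝ) :
    kh ρ u = FourierTransform.fourier (fun t : ℝ => (ρ t : ℂ) * (1 - (t : ℂ) * I)) u := by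
  rw [Real.fourier_real_eq_integral_exp_smul]
  unfold kh
  refine integral_congr_ae (Eventually.of_forall fun t => ?_)
  simp only [smul_eq_mul]
  rw [mul_comm (cexp _)]
  congr 2
  push_cast
  ring

/-- Plancherel -/
theorem kh_plancherel {T : ℝ} {ρ : ℝ → ℝ} (hρ : Ker T ρ) :
    Integrable (fun u => ‖kh ρ u‖ ^ 2) ∧ ∫ u, ‖kh ρ u‖ ^ 2 = Cr ρ := by
  set f : ℝ → ℂ := fun t => (ρ t : ℂ) * (1 - (t : ℂ) * I) with hf
  have hc := KHD_cont hρ
  have hcs := KHD_supp hρ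
  have h1 : Integrable f := hc.integrable_of_hasCompactSupport hcs
  have h2 : MemLp f 2 := hc.memLp_of_hasCompactSupport hcs
  have hP := Pool.Agent.H58.plancherel f h1 h2
  have hkc : Continuous (fun u => kh ρ u) := by
    have : (fun u => kh ρ u) = FourierTransform.fourier f := by
      ext u
      exact kh_fourier ρ u
    rw [this]
    exact VectorFourier.fourierIntegral_continuous Real.continuous_fourierChar
      (by exact (innerSL ℝ (E := ℝ)).continuous₂) h1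
  have hn : ∀ t, ‖f t‖ ^ 2 = (1 + t ^ 2) * ρ t ^ 2 := by
    intro t
    rw [hf]
    simp only
    rw [norm_mul, mul_pow, Complex.norm_real, Real.norm_eq_abs, sq_abs, ← Complex.normSq_eq_norm_sq]
    have : Complex.normSq (1 - (t : ℂ) * I) = 1 + t ^ 2 := by
      rw [Complex.normSq_apply]
      simp
      ring
    rw [this]
    ring
  have hi2 : Integrable (fun t => ‖f t‖ ^ 2) := by
    refine (hc.norm.pow 2).integrable_of_hasCompactSupport ?_
    refine hcs.norm.mono ?_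
    intro t ht
    by_contra hne
    apply ht
    have : ‖f t‖ = 0 := by
      by_contra h0
      exact hne h0
    show ‖f t‖ ^ 2 = 0
    rw [this]
    norm_num
  have e1 : ∫⁻ t, ‖f t‖ₑ ^ 2 = ENNReal.ofReal (Cr ρ) := by
    have h3 : Cr ρ = ∫ t, ‖f t‖ ^ 2 := by
      unfold Cr
      exact integral_congr_ae (Eventually.of_forall fun t => (hn t).symm)
    rw [h3, ofReal_integral_eq_lintegral_ofReal hi2 (Eventually.of_forall fun t => by positivity)]
    refine lintegral_congr fun t => ?_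
    rw [ENNReal.ofReal_pow (norm_nonneg _), ofReal_norm]
  have e2 : ∫⁻ u, ENNReal.ofReal (‖kh ρ u‖ ^ 2) = ENNReal.ofReal (Cr ρ) := by
    rw [← e1, ← hP]
    refine lintegral_congr fun u => ?_
    rw [ENNReal.ofReal_pow (norm_nonneg _), ofReal_norm, kh_fourier]
  have hCr : 0 ≤ Cr ρ := by
    have := cr_lower hρ
    have hp : 0 < 1 / Real.pi := by positivity
    linarith
  have hint : Integrable (fun u => ‖kh ρ u‖ ^ 2) := by
    refine ⟨(hkc.norm.pow 2).aestronglyMeasurable, ?_⟩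
    rw [hasFiniteIntegral_iff_ofReal (Eventually.of_forall fun u => by positivity), e2]
    exact ENNReal.ofReal_lt_top
  refine ⟨hint, ?_⟩
  rw [integral_eq_lintegral_of_nonneg_ae (Eventually.of_forall fun u => by positivity)
    hint.aestronglyMeasurable, e2, ENNReal.toReal_ofReal hCr]

/-- a majorant with quadratic decay -/
theorem kd_exists {T : ℝ} {ρ : ℝ → ℝ} (hρ : KerL T ρ) {g : ℝ → ℝ} {G : ℝ} (hg : Kg g G)
    (hd : ∀ u, 0 < u → ‖kh ρ u‖ ^ 2 + ‖kh ρ (-u)‖ ^ 2 ≤ g u) : ∃ (g₁ : ℝ → ℝ) (C : ℝ),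
    Kd g₁ G C ∧ (∀ u, 0 < u → ‖kh ρ u‖ ^ 2 + ‖kh ρ (-u)‖ ^ 2 ≤ g₁ u) ∧
    hK g₁ 0 ≤ ∫ u in Set.Ioi (0 : ℝ), g u ∧ 1 / Real.pi ≤ hK g₁ 0 := by
  obtain ⟨C, hC, hkh⟩ := kh_decay hρ
  set g1 : ℝ → ℝ := fun u => min (g u) (2 * C / u ^ 2) with hg1
  have hg10 : ∀ u, 0 ≤ g1 u := fun u => le_min (hg.nonneg u) (by positivity)
  have hg1g : ∀ u, g1 u ≤ g u := fun u => min_le_left _ _
  have hmeas : AEStronglyMeasurable g1 (volume.restrict (Set.Ioi (0 : ℝ))) := by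
    refine hg.int.aestronglyMeasurable.inf ?_
    exact (measurable_const.div (measurable_id.pow_const 2)).aestronglyMeasurable
  have hint : IntegrableOn g1 (Set.Ioi 0) := by
    refine Integrable.mono' hg.int hmeas (Eventually.of_forall fun u => ?_)
    rw [Real.norm_of_nonneg (hg10 u)]
    exact hg1g u
  have hb : ∀ u, 0 < u → ‖kh ρ u‖ ^ 2 + ‖kh ρ (-u)‖ ^ 2 ≤ g1 u := by
    intro u hu
    refine le_min (hd u hu) ?_
    have h1 := hkh u hu.ne'
    have h2 := hkh (-u) (by linarith)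
    rw [neg_sq] at h2
    have : 2 * C / u ^ 2 = C / u ^ 2 + C / u ^ 2 := by ring
    rw [this]
    exact add_le_add h1 h2
  have hkd : Kd g1 G (2 * C) := by
    refine ⟨⟨?_, hg10, fun u => (hg1g u).trans (hg.bdd u), hint⟩, fun u hu => min_le_right _ _⟩
    intro x hx y hy hxy
    have hx0 : (0 : ℝ) < x := hx
    refine min_le_min (hg.anti hx hy hxy) ?_
    exact div_le_div_of_nonneg_left (by positivity) (by positivity)
      (pow_le_pow_left₀ hx0.le hxy 2)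
  refine ⟨g1, 2 * C, hkd, hb, ?_, ?_⟩
  · exact setIntegral_mono hint hg.int hg1g
  · obtain ⟨hi, hP⟩ := kh_plancherel hρ.toKer
    refine (cr_lower hρ.toKer).trans ?_
    rw [← hP]
    have h1 : ∫ u, ‖kh ρ u‖ ^ 2 = (∫ u in Set.Iic (0 : ℝ), ‖kh ρ u‖ ^ 2) +
        ∫ u in Set.Ioi (0 : ℝ), ‖kh ρ u‖ ^ 2 :=
      (intervalIntegral.integral_Iic_add_Ioi hi.integrableOn hi.integrableOn).symm
    have h2 : ∫ u in Set.Iic (0 : ℝ), ‖kh ρ u‖ ^ 2 = ∫ u in Set.Ioi (0 : ℝ), ‖kh ρ (-u)‖ ^ 2 := by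
      have := integral_comp_neg_Ioi (0 : ℝ) (fun u => ‖kh ρ u‖ ^ 2)
      rw [neg_zero] at this
      exact this.symm
    have hi' : Integrable (fun u => ‖kh ρ (-u)‖ ^ 2) := hi.comp_neg
    rw [h1, h2, add_comm, ← integral_add hi.integrableOn hi'.integrableOn]
    exact setIntegral_mono_on (hi.integrableOn.add hi'.integrableOn) hint measurableSet_Ioi
      fun u hu => hb u hu

/-- the integral over the heights -/
theorem INT2 {ρ : ℝ → ℝ} {g : ℝ → ℝ} {G C : ℝ} (hg : Kd g G C)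
    (hb : ∀ u, 0 < u → ‖kh ρ u‖ ^ 2 + ‖kh ρ (-u)‖ ^ 2 ≤ g u) {y₀ : ℝ} (hy₀ : 0 < y₀) (W : ℕ → ℝ)
    (hs : Summable (fun n : ℕ => W n ^ 2 * hK g (n * y₀) / n)) :
    ∫ y in Set.Ioi y₀, ∑' n : ℕ,
      (‖kh ρ ((n + 1) * y)‖ ^ 2 + ‖kh ρ (-((n + 1) * y))‖ ^ 2) * W (n + 1) ^ 2 ≤
      ∑' n : ℕ, W n ^ 2 * hK g (n * y₀) / n := by
  have hg10 := hg.nonneg
  set h : ℕ → ℝ := fun n => hK g (n * y₀) with hh
  set F : ℕ → ℝ → ℝ := fun n y =>
    (‖kh ρ ((n + 1) * y)‖ ^ 2 + ‖kh ρ (-((n + 1) * y))‖ ^ 2) * W (n + 1) ^ 2 with hF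
  have hF0 : ∀ n y, 0 ≤ F n y := fun n y => by positivity
  have hFg : ∀ (n : ℕ) (y : ℝ), y₀ < y → F n y ≤ g ((n + 1) * y) * W (n + 1) ^ 2 := by
    intro n y hy
    refine mul_le_mul_of_nonneg_right (hb _ ?_) (sq_nonneg _)
    have : 0 < y := hy₀.trans hy
    positivity
  have hterm : ∀ n : ℕ, IntegrableOn (fun y => g ((n + 1) * y) * W (n + 1) ^ 2) (Set.Ioi y₀) ∧
      ∫ y in Set.Ioi y₀, g ((n + 1) * y) * W (n + 1) ^ 2 =
        W (n + 1) ^ 2 * h (n + 1) / ((n + 1 : ℕ) : ℝ) := by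
    intro n
    have hn : (0 : ℝ) < (n : ℝ) + 1 := by positivity
    constructor
    · refine Integrable.mul_const ?_ _
      exact (integrableOn_Ioi_comp_mul_left_iff g y₀ hn).2 (hK_int hg.toKg (by positivity))
    · rw [integral_mul_const, integral_comp_mul_left_Ioi g y₀ hn]
      simp only [hh, smul_eq_mul]
      unfold hK
      push_cast
      field_simp
  have hT0 : ∀ n, 0 ≤ W n ^ 2 * h n / n := fun n =>
    div_nonneg (mul_nonneg (sq_nonneg _) (hK_nonneg hg.toKg _)) (Nat.cast_nonneg _)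
  have hs1 : Summable (fun n : ℕ => W (n + 1) ^ 2 * h (n + 1) / ((n + 1 : ℕ) : ℝ)) :=
    (summable_nat_add_iff 1).2 hs
  have hle : ∑' n : ℕ, W (n + 1) ^ 2 * h (n + 1) / ((n + 1 : ℕ) : ℝ) ≤
      ∑' n : ℕ, W n ^ 2 * h n / n := by
    rw [hs.tsum_eq_zero_add]
    have := hT0 0
    linarith
  refine le_trans ?_ hle
  have h0 : ∫ y in Set.Ioi y₀, ∑' n : ℕ, F n y ≤
      (∫⁻ y in Set.Ioi y₀, ENNReal.ofReal ‖∑' n : ℕ, F n y‖).toReal := by
    refine (le_abs_self _).trans ?_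
    rw [← Real.norm_eq_abs]
    exact norm_integral_le_lintegral_norm _
  refine h0.trans ?_
  refine ENNReal.toReal_le_of_le_ofReal (tsum_nonneg fun n => hT0 (n + 1)) ?_
  have h1 : ∫⁻ y in Set.Ioi y₀, ENNReal.ofReal ‖∑' n : ℕ, F n y‖ ≤
      ∫⁻ y in Set.Ioi y₀, ∑' n : ℕ, ENNReal.ofReal (g ((n + 1) * y) * W (n + 1) ^ 2) := by
    refine setLIntegral_mono' measurableSet_Ioi fun y hy => ?_
    rw [Real.norm_of_nonneg (tsum_nonneg fun n => hF0 n y)]
    refine (INT_ofReal_tsum fun n => hF0 n y).trans ?_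
    exact ENNReal.tsum_le_tsum fun n => ENNReal.ofReal_le_ofReal (hFg n y hy)
  refine h1.trans (le_of_eq ?_)
  rw [lintegral_tsum]
  · rw [ENNReal.ofReal_tsum_of_nonneg (fun n => hT0 (n + 1)) hs1]
    refine tsum_congr fun n => ?_
    rw [← (hterm n).2, ofReal_integral_eq_lintegral_ofReal (hterm n).1]
    exact Eventually.of_forall fun y => mul_nonneg (hg10 _) (sq_nonneg _)
  · intro n
    exact (hterm n).1.aemeasurable.ennreal_ofReal

end Pool.Agent.LSP
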