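import Pool.Agent.Lib_helper71.LSPM2.NT3
import Pool.Agent.Lib_helper71.LSPM2.KER

/-! LSP2, part M2: the general upper bound for the main term. -/

namespace Pool.Agent.LSP

open Pool.Agent.LEV Pool.Agent.LVB Pool.Agent.KSL
open Pool.Agent.FG61 (mu phi cc ff AA Lam)
open Complex MeasureTheory Filter Topology

/-- `φ log` -/
noncomputable def phL (q : ℕ) : ℝ := phi q * Real.log q

theorem phi_nonneg' (q : ℕ) : 0 ≤ phi q := by unfold phi; positivity

theorem phL_nonneg (q : ℕ) : 0 ≤ phL q :=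
  mul_nonneg (phi_nonneg' q) (Real.log_natCast_nonneg q)

theorem QF_nonneg {h : ℕ → ℝ} (hh : ∀ q, 0 ≤ h q) (B : ℕ) (V : ℕ → ℝ) : 0 ≤ QF B h V V :=
  Finset.sum_nonneg fun q _ => mul_nonneg (hh q) (mul_self_nonneg _)

theorem wd_supp {z B q : ℕ} {V : ℕ → ℝ} (hV : RVec z B V) (hq : 1 ≤ q) (h : wd B V q ≠ 0) :
    rough z q := by
  rw [← wV_eq_wd hV hq] at h
  exact (wV_supp hV h).1

theorem QF_psL {z B : ℕ} (hz : 1 ≤ z) {V : ℕ → ℝ} (hV : RVec z B V) :
    QF B psL V V ≤ (1 + 1 / z) * QF B phL V V := by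
  unfold QF
  rw [Finset.mul_sum]
  refine Finset.sum_le_sum fun q hq => ?_
  have hq1 := (Finset.mem_Icc.1 hq).1
  by_cases h0 : wd B V q = 0
  · rw [h0]
    simp
  · have h1 := psL_le hz hq1 (wd_supp hV hq1 h0)
    have h2 : 0 ≤ wd B V q * wd B V q := mul_self_nonneg _
    calc psL q * (wd B V q * wd B V q) ≤
          phi q * (Real.log q * (1 + 1 / z)) * (wd B V q * wd B V q) :=
          mul_le_mul_of_nonneg_right h1 h2
      _ = (1 + 1 / (z : ℝ)) * (phL q * (wd B V q * wd B V q)) := by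
          unfold phL
          ring

theorem QF_phL_le {B X : ℕ} (hBX : B ≤ X) (V : ℕ → ℝ) :
    QF B phL V V ≤ Real.log X * QF B phi V V := by
  unfold QF
  rw [Finset.mul_sum]
  refine Finset.sum_le_sum fun q hq => ?_
  rw [Finset.mem_Icc] at hq
  have h1 : Real.log q ≤ Real.log X :=
    Real.log_le_log (by exact_mod_cast hq.1) (by exact_mod_cast hq.2.trans hBX)
  have h2 : 0 ≤ phi q * (wd B V q * wd B V q) := mul_nonneg (phi_nonneg' q) (mul_self_nonneg _)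
  calc phL q * (wd B V q * wd B V q) = Real.log q * (phi q * (wd B V q * wd B V q)) := by
        unfold phL
        ring
    _ ≤ _ := mul_le_mul_of_nonneg_right h1 h2

theorem QF_cross_le (B : ℕ) {L : ℝ} (hL : 0 < L) (V V' : ℕ → ℝ) :
    2 * |QF B phi V V'| ≤ L * QF B phi V V + QF B phi V' V' / L := by
  unfold QF
  rw [Finset.mul_sum, Finset.sum_div, ← Finset.sum_add_distrib]
  refine (mul_le_mul_of_nonneg_left (Finset.abs_sum_le_sum_abs _ _) (by norm_num)).trans ?_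
  rw [Finset.mul_sum]
  refine Finset.sum_le_sum fun q _ => ?_
  have h0 := phi_nonneg' q
  rw [abs_mul, abs_of_nonneg h0]
  set a := wd B V q
  set b := wd B V' q
  have h1 : 2 * |a * b| ≤ L * (a * a) + b * b / L := by
    rw [abs_mul]
    have h2 : 0 ≤ (L * |a| - |b|) ^ 2 / L := by positivity
    have h3 : (L * |a| - |b|) ^ 2 / L = L * (|a| * |a|) + |b| * |b| / L - 2 * (|a| * |b|) := by
      field_simp
      ring
    rw [h3, abs_mul_abs_self, abs_mul_abs_self] at h2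
    linarith
  calc 2 * (phi q * |a * b|) = phi q * (2 * |a * b|) := by ring
    _ ≤ phi q * (L * (a * a) + b * b / L) := mul_le_mul_of_nonneg_left h1 h0
    _ = L * (phi q * (a * a)) + phi q * (b * b) / L := by ring

/-- the diagonal terms -/
theorem diag_le {T : ℝ} {ρ : ℝ → ℝ} (hρ : Ker T ρ) {z B A E N : ℕ} {a V : ℕ → ℝ}
    (hV : RVec z B V) (ha : ∀ k, a k ≠ 0 → smooth z k ∧ k ≤ A) (hE : A * B ≤ E) (hE1 : 1 ≤ E)
    (hN : 1 ≤ N) (hNE : N ≤ 4 * E ^ 2) :
    Real.pi * ∑ q ∈ Finset.Icc 1 E, phi q * wX E (xV z B V a) q ^ 2 *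
      (Cr ρ * (2 * Real.log (yo T E) + Real.log ((N : ℝ) * (q : ℝ) ^ 2)) + Cl ρ) ≤
    Vz z * cn z A a * ((2 * Real.log (yo T E) + Real.log N + 2 * Real.log A +
      Real.pi * |Cl ρ|) * QF B phi V V + 2 * QF B phL V V) := by
  have hT := hρ.T1
  have hpi := Real.pi_pos
  have hE0 : (0 : ℝ) < E := by exact_mod_cast hE1
  have hN0 : (0 : ℝ) < N := by exact_mod_cast hN
  have hcr := cr_lower hρ
  set L0 : ℝ := 2 * Real.log (yo T E) + Real.log N with hL0
  have hyo : Real.log (yo T E) = -(Real.log (2 * T) + 2 * Real.log E) := by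
    unfold yo
    rw [one_div, Real.log_inv, Real.log_mul (by positivity) (by positivity), Real.log_pow]
    push_cast
    ring
  have hlN : Real.log N ≤ 2 * Real.log 2 + 2 * Real.log E := by
    have h1 : (N : ℝ) ≤ 4 * (E : ℝ) ^ 2 := by exact_mod_cast hNE
    calc Real.log N ≤ Real.log (4 * (E : ℝ) ^ 2) := Real.log_le_log hN0 h1
      _ = _ := by
          rw [show (4 : ℝ) * (E : ℝ) ^ 2 = (2 * E) ^ 2 by ring, Real.log_pow,
            Real.log_mul (by norm_num) hE0.ne']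
          push_cast
          ring
  have hl2T : Real.log 2 ≤ Real.log (2 * T) := Real.log_le_log (by norm_num) (by linarith)
  -- the terms
  have h1 : ∀ q ∈ Finset.Icc 1 E, Real.pi * (phi q * wX E (xV z B V a) q ^ 2 *
      (Cr ρ * (2 * Real.log (yo T E) + Real.log ((N : ℝ) * (q : ℝ) ^ 2)) + Cl ρ)) ≤
      wX E (xV z B V a) q ^ 2 * (phi q * (L0 + 2 * Real.log q + Real.pi * |Cl ρ|)) := by
    intro q hq
    rw [Finset.mem_Icc] at hq
    have hq0 : (0 : ℝ) < q := by exact_mod_cast hq.1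
    have hqE : Real.log q ≤ Real.log E := Real.log_le_log hq0 (by exact_mod_cast hq.2)
    have h2 : Real.log ((N : ℝ) * (q : ℝ) ^ 2) = Real.log N + 2 * Real.log q := by
      rw [Real.log_mul hN0.ne' (by positivity), Real.log_pow]
      push_cast
      ring
    have h3 : L0 + 2 * Real.log q ≤ 0 := by
      rw [hL0, hyo]
      linarith
    have h4 : Cr ρ * (L0 + 2 * Real.log q) ≤ 1 / Real.pi * (L0 + 2 * Real.log q) :=
      mul_le_mul_of_nonpos_right hcr h3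
    have h5 : Real.pi * (Cr ρ * (2 * Real.log (yo T E) + Real.log ((N : ℝ) * (q : ℝ) ^ 2)) +
        Cl ρ) ≤ L0 + 2 * Real.log q + Real.pi * |Cl ρ| := by
      rw [h2]
      have e1 : 2 * Real.log (yo T E) + (Real.log N + 2 * Real.log q) = L0 + 2 * Real.log q := by
        rw [hL0]
        ring
      rw [e1]
      calc Real.pi * (Cr ρ * (L0 + 2 * Real.log q) + Cl ρ) ≤
            Real.pi * (1 / Real.pi * (L0 + 2 * Real.log q) + |Cl ρ|) :=
            mul_le_mul_of_nonneg_left (add_le_add h4 (le_abs_self _)) hpi.le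
        _ = _ := by field_simp
    calc Real.pi * (phi q * wX E (xV z B V a) q ^ 2 *
        (Cr ρ * (2 * Real.log (yo T E) + Real.log ((N : ℝ) * (q : ℝ) ^ 2)) + Cl ρ)) =
        (wX E (xV z B V a) q ^ 2 * phi q) * (Real.pi *
        (Cr ρ * (2 * Real.log (yo T E) + Real.log ((N : ℝ) * (q : ℝ) ^ 2)) + Cl ρ)) := by ring
      _ ≤ (wX E (xV z B V a) q ^ 2 * phi q) * (L0 + 2 * Real.log q + Real.pi * |Cl ρ|) :=
          mul_le_mul_of_nonneg_left h5 (mul_nonneg (sq_nonneg _) (phi_nonneg' q))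
      _ = _ := by ring
  rw [Finset.mul_sum]
  refine (Finset.sum_le_sum h1).trans ?_
  rw [wX_sq_sum hV ha hE (fun q => phi q * (L0 + 2 * Real.log q + Real.pi * |Cl ρ|))]
  have h6 : ∀ u ∈ Finset.Icc 1 A, ∀ r ∈ Finset.Icc 1 B, al A a u ^ 2 * wV B V r ^ 2 *
      (phi (u * r) * (L0 + 2 * Real.log ((u * r : ℕ) : ℝ) + Real.pi * |Cl ρ|)) ≤
      (phi u * al A a u ^ 2) * ((L0 + 2 * Real.log A + Real.pi * |Cl ρ|) *
        (phi r * (wd B V r * wd B V r)) + 2 * (phL r * (wd B V r * wd B V r))) := by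
    intro u hu r hr
    rw [Finset.mem_Icc] at hu hr
    by_cases hu0 : al A a u = 0
    · rw [hu0]; simp
    by_cases hr0 : wV B V r = 0
    · rw [hr0, ← wV_eq_wd hV hr.1, hr0]; simp
    have hc := SRO_coprime (al_supp_pr ha hu0).1 (wV_supp hV hr0).1
    have hphi : phi (u * r) = phi u * phi r := by
      unfold phi
      rw [Nat.totient_mul hc]
      push_cast
      ring
    have hu1 : (0 : ℝ) < u := by exact_mod_cast hu.1
    have hr1 : (0 : ℝ) < r := by exact_mod_cast hr.1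
    have hlA : Real.log u ≤ Real.log A := Real.log_le_log hu1 (by exact_mod_cast hu.2)
    rw [hphi, Nat.cast_mul, Real.log_mul hu1.ne' hr1.ne', ← wV_eq_wd hV hr.1]
    have h7 : 0 ≤ (phi u * al A a u ^ 2) * (phi r * wV B V r ^ 2) :=
      mul_nonneg (mul_nonneg (phi_nonneg' u) (sq_nonneg _))
        (mul_nonneg (phi_nonneg' r) (sq_nonneg _))
    calc al A a u ^ 2 * wV B V r ^ 2 * (phi u * phi r * (L0 + 2 * (Real.log u + Real.log r) +
          Real.pi * |Cl ρ|)) = (phi u * al A a u ^ 2) * (phi r * wV B V r ^ 2) *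
          (L0 + 2 * (Real.log u + Real.log r) + Real.pi * |Cl ρ|) := by ring
      _ ≤ (phi u * al A a u ^ 2) * (phi r * wV B V r ^ 2) *
          (L0 + 2 * (Real.log A + Real.log r) + Real.pi * |Cl ρ|) :=
          mul_le_mul_of_nonneg_left (by linarith) h7
      _ = _ := by
          unfold phL
          ring
  refine (Finset.sum_le_sum fun u hu => Finset.sum_le_sum (h6 u hu)).trans (le_of_eq ?_)
  rw [← Finset.sum_mul_sum, (phi_al_pr ha).2, Finset.sum_add_distrib, ← Finset.mul_sum,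
    ← Finset.mul_sum]
  unfold QF
  rw [hL0]

/-- the integral over the heights -/
theorem int_le {T : ℝ} {ρ g : ℝ → ℝ} {G C : ℝ} (hg : Kd g G C)
    (hb : ∀ u, 0 < u → ‖kh ρ u‖ ^ 2 + ‖kh ρ (-u)‖ ^ 2 ≤ g u) (hT : 1 ≤ T)
    {z B A E Z : ℕ} {a V : ℕ → ℝ} (hz : 1 ≤ z) (hB : 1 ≤ B)
    (hV : RVec z B V) (ha : ∀ k, a k ≠ 0 → smooth z k ∧ k ≤ A) (hE : A * B ≤ E) (hE1 : 1 ≤ E)
    (hBE : B ≤ E) (hZ : 1 ≤ Z) {e : ℝ} (he0 : 0 ≤ e) (he : e ≤ 1 / 2)
    (hsZ : (Vz z)⁻¹ * (1 - e) ≤ sZ z Z) :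
    ∫ y in Set.Ioi (yo T E), ∑' n : ℕ,
      (‖kh ρ ((n + 1) * y)‖ ^ 2 + ‖kh ρ (-((n + 1) * y))‖ ^ 2) *
        WW E (wX E (xV z B V a)) (n + 1) ^ 2 ≤
    Vz z * cn z A a * ((1 + 2 * e) * (kS g 1 * QF B phi V V + hK g 0 *
      ((Real.log Z - Real.log (yo T E)) * QF B phi V V - 2 * QF B phi V (lg V) +
        (1 + 1 / z) * QF B phL V V) + G * ((B : ℝ) ^ 2 * (yo T E / Z)) * aV B V)) := by
  have hE0 : (0 : ℝ) < E := by exact_mod_cast hE1
  have hB0 : (0 : ℝ) < B := by exact_mod_cast hB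
  have hZ0 : (0 : ℝ) < Z := by exact_mod_cast hZ
  have hyo0 : 0 < yo T E := by unfold yo; positivity
  have hV0 := phi_Vz_pos z
  obtain ⟨s1, s2⟩ := SR_upper hg hV ha hE hyo0
  have hint := INT2 hg hb hyo0 (WW E (wX E (xV z B V a))) s1
  refine (hint.trans s2).trans ?_
  have hyZ : 0 < yo T E / Z := by positivity
  have hlow := SR_lower hg hV hyZ hZ
  have e1 : (Z : ℝ) * (yo T E / Z) = yo T E := by field_simp
  rw [e1] at hlow
  have hB1 : (B : ℝ) ^ 2 * (yo T E / Z) ≤ 1 := by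
    unfold yo
    rw [mul_div_assoc', mul_one_div, div_div, div_le_one (by positivity)]
    have h1 : (B : ℝ) ^ 2 ≤ (E : ℝ) ^ 2 := pow_le_pow_left₀ hB0.le (by exact_mod_cast hBE) 2
    have h2 : (1 : ℝ) ≤ Z := by exact_mod_cast hZ
    calc (B : ℝ) ^ 2 ≤ 1 * (E : ℝ) ^ 2 := by linarith
      _ ≤ 2 * T * (E : ℝ) ^ 2 := mul_le_mul_of_nonneg_right (by linarith) (sq_nonneg _)
      _ ≤ 2 * T * (E : ℝ) ^ 2 * Z := le_mul_of_one_le_right (by positivity) h2
  obtain ⟨-, hE00, hEE⟩ := EE_le hg hB hV hyZ hB1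
  have hER0 := ER_nonneg hg.toKg z V (yo T E)
  have hI0 := hK_nonneg hg.toKg 0
  -- from the sum over rough numbers to the sum over all numbers
  have h1 : ER g z V (yo T E) ≤ Vz z * ((1 + 2 * e) * EE g V (yo T E / Z)) := by
    have h2 : (Vz z)⁻¹ * (1 - e) * ER g z V (yo T E) ≤ EE g V (yo T E / Z) :=
      (mul_le_mul_of_nonneg_right hsZ hER0).trans hlow
    have h3 : (1 - e) * ER g z V (yo T E) ≤ Vz z * EE g V (yo T E / Z) := by
      have := mul_le_mul_of_nonneg_left h2 hV0.le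
      calc (1 - e) * ER g z V (yo T E) = Vz z * ((Vz z)⁻¹ * (1 - e) * ER g z V (yo T E)) := by
            field_simp
        _ ≤ _ := this
    have h4 : 1 ≤ (1 + 2 * e) * (1 - e) := by nlinarith
    calc ER g z V (yo T E) = 1 * ER g z V (yo T E) := (one_mul _).symm
      _ ≤ (1 + 2 * e) * (1 - e) * ER g z V (yo T E) := mul_le_mul_of_nonneg_right h4 hER0
      _ = (1 + 2 * e) * ((1 - e) * ER g z V (yo T E)) := by ring
      _ ≤ (1 + 2 * e) * (Vz z * EE g V (yo T E / Z)) :=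
          mul_le_mul_of_nonneg_left h3 (by linarith)
      _ = _ := by ring
  have h5 : EE g V (yo T E / Z) ≤ kS g 1 * QF B phi V V + hK g 0 *
      ((Real.log Z - Real.log (yo T E)) * QF B phi V V - 2 * QF B phi V (lg V) +
        (1 + 1 / z) * QF B phL V V) + G * ((B : ℝ) ^ 2 * (yo T E / Z)) * aV B V := by
    have h6 : Real.log (1 / (yo T E / Z)) = Real.log Z - Real.log (yo T E) := by
      rw [one_div_div, Real.log_div hZ0.ne' hyo0.ne']
    rw [h6] at hEE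
    have h7 := mul_le_mul_of_nonneg_left (QF_psL hz hV) hI0
    linarith
  calc cn z A a * ER g z V (yo T E) ≤ cn z A a * (Vz z * ((1 + 2 * e) * EE g V (yo T E / Z))) :=
        mul_le_mul_of_nonneg_left h1 (BGB_cn_nonneg z A a)
    _ = Vz z * cn z A a * ((1 + 2 * e) * EE g V (yo T E / Z)) := by ring
    _ ≤ _ := by
        refine mul_le_mul_of_nonneg_left ?_ (mul_nonneg hV0.le (BGB_cn_nonneg z A a))
        exact mul_le_mul_of_nonneg_left h5 (by linarith)

/-- the quadratic form of the main term -/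
noncomputable def BF (B : ℕ) (L : ℝ) (V : ℕ → ℝ) : ℝ :=
  L * QF B phi V V + 4 * QF B phL V V - 4 * QF B phi V (lg V)

theorem gen_num {e0 e I A1 AX GG AL lX LZ lN lyo lA P K a4 cz D Q : ℝ} (hpi : 0 < Q)
    (hQ3 : 3 ≤ Q) (hQ4 : Q ≤ 4)
    (hA : 0 ≤ A1) (hGG0 : 0 ≤ GG) (hAL : 0 ≤ AL) (hlX : 0 < lX) (hGG : GG ≤ lX * A1)
    (hAX : 2 * |AX| ≤ lX * A1 + AL / lX)
    (hI1 : 1 / Q ≤ I) (hI2 : I ≤ 1 / Q + e0) (hI3 : I ≤ 1) (he : 0 ≤ e) (he' : e ≤ 1 / 2)
    (hcz : 0 ≤ cz) (hcz1 : cz ≤ 1)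
    (hP : P = (LZ - lyo) * A1 - 2 * AX + (1 + cz) * GG)
    (hlyo : 0 ≤ LZ - lyo) (hlyo' : LZ - lyo ≤ 4 * lX) (hK : 0 ≤ K) (ha4 : 0 ≤ a4)
    (hD : D = (2 * lyo + lN + 2 * lA + Q * K) * A1 + 2 * GG) :
    2 * Q * ((1 + 2 * e) * (K * A1 + I * P + a4)) + D ≤
      (lN * A1 + 4 * GG - 4 * AX) + (2 * LZ + 2 * lA + 20 * K) * A1 +
        (2 * cz + 112 * e + 56 * e0) * (lX * A1 + AL / lX) + 16 * a4 := by
  have hU : 0 ≤ lX * A1 + AL / lX := by positivity
  set U := lX * A1 + AL / lX with hUd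
  have hALU : 0 ≤ AL / lX := by positivity
  have hPabs : |P| ≤ 7 * U := by
    rw [hP, abs_le]
    have h1 : (LZ - lyo) * A1 ≤ 4 * lX * A1 := mul_le_mul_of_nonneg_right hlyo' hA
    have h2 : 0 ≤ (LZ - lyo) * A1 := mul_nonneg hlyo hA
    have h3 : (1 + cz) * GG ≤ 2 * (lX * A1) := by
      have : (1 + cz) * GG ≤ 2 * GG := mul_le_mul_of_nonneg_right (by linarith) hGG0
      linarith
    have h4 : 0 ≤ (1 + cz) * GG := mul_nonneg (by linarith) hGG0
    have h5 := abs_le.1 (le_refl |AX|)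
    have h6 : 0 ≤ lX * A1 := by positivity
    constructor
    · linarith [h5.2]
    · linarith [h5.1]
  have he0 : 0 ≤ e0 := by linarith
  have hQI : 2 ≤ 2 * Q * I := by
    have : 2 * Q * (1 / Q) ≤ 2 * Q * I := mul_le_mul_of_nonneg_left hI1 (by linarith)
    have e1 : 2 * Q * (1 / Q) = 2 := by field_simp
    linarith
  have hQI2 : 2 * Q * I ≤ 2 + 8 * e0 := by
    have : 2 * Q * I ≤ 2 * Q * (1 / Q + e0) := mul_le_mul_of_nonneg_left hI2 (by linarith)
    have e1 : 2 * Q * (1 / Q + e0) = 2 + 2 * Q * e0 := by field_simp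
    have e2 : 2 * Q * e0 ≤ 8 * e0 := mul_le_mul_of_nonneg_right (by linarith) he0
    linarith
  have hQI3 : 2 * Q * I ≤ 8 := by
    have : 2 * Q * I ≤ 2 * Q * 1 := mul_le_mul_of_nonneg_left hI3 (by linarith)
    linarith
  -- the coefficient of P
  have h1 : 2 * Q * I * (1 + 2 * e) * P ≤ 2 * P + (8 * e0 + 16 * e) * (7 * U) * 1 := by
    have h2 : 2 * Q * I * (1 + 2 * e) * P = 2 * P + (2 * Q * I * (1 + 2 * e) - 2) * P := by ring
    have h3 : 0 ≤ 2 * Q * I * (1 + 2 * e) - 2 := by nlinarith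
    have h4 : 2 * Q * I * (1 + 2 * e) - 2 ≤ 8 * e0 + 16 * e := by
      have : 2 * Q * I * (2 * e) ≤ 8 * (2 * e) := mul_le_mul_of_nonneg_right hQI3 (by linarith)
      nlinarith
    rw [h2, mul_one]
    have h5 : (2 * Q * I * (1 + 2 * e) - 2) * P ≤ (8 * e0 + 16 * e) * (7 * U) := by
      calc (2 * Q * I * (1 + 2 * e) - 2) * P ≤ (2 * Q * I * (1 + 2 * e) - 2) * |P| :=
            mul_le_mul_of_nonneg_left (le_abs_self P) h3
        _ ≤ (8 * e0 + 16 * e) * |P| := mul_le_mul_of_nonneg_right h4 (abs_nonneg _)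
        _ ≤ _ := mul_le_mul_of_nonneg_left hPabs (by linarith)
    linarith
  have h2 : 2 * Q * (1 + 2 * e) ≤ 16 := by nlinarith
  have h3 : 2 * Q * (1 + 2 * e) * (K * A1) ≤ 16 * (K * A1) :=
    mul_le_mul_of_nonneg_right h2 (by positivity)
  have h4 : 2 * Q * (1 + 2 * e) * a4 ≤ 16 * a4 := mul_le_mul_of_nonneg_right h2 ha4
  have h5 : Q * K * A1 ≤ 4 * K * A1 := by
    have : Q * (K * A1) ≤ 4 * (K * A1) := mul_le_mul_of_nonneg_right hQ4 (by positivity)
    linarith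
  have h6 : cz * GG ≤ cz * U := by
    refine mul_le_mul_of_nonneg_left ?_ hcz
    linarith
  have h7 : 2 * Q * ((1 + 2 * e) * (K * A1 + I * P + a4)) = 2 * Q * (1 + 2 * e) * (K * A1) +
      2 * Q * I * (1 + 2 * e) * P + 2 * Q * (1 + 2 * e) * a4 := by ring
  rw [h7, hD]
  have h8 : 2 * P = 2 * (LZ - lyo) * A1 - 4 * AX + 2 * (1 + cz) * GG := by
    rw [hP]
    ring
  nlinarith

end Pool.Agent.LSP
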