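import Pool.Agent.Lib_helper71.LSPM2.GEN

/-! LSP2, part M2: the general upper bound for the main term. -/

namespace Pool.Agent.LSP

open Pool.Agent.LEV Pool.Agent.LVB Pool.Agent.KSL
open Pool.Agent.FG61 (mu phi cc ff AA Lam)
open Complex MeasureTheory Filter Topology

theorem gen_fin {e η ε₁ lX LZ lA K cz A1 U : ℝ} (hU : lX * A1 ≤ U) (hA1 : 0 ≤ A1)
    (hlX : 0 < lX) (he : e = η / 400) (he0 : 0 < e) (he1 : ε₁ ≤ e)
    (h2 : 1 ≤ e * lX) (hLZ : LZ ≤ e * lX + 1) (hlA : lA ≤ ε₁ * lX) (hK : K ≤ e * lX)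
    (hcz : cz ≤ e) :
    (2 * LZ + 2 * lA + 20 * K) * A1 + (2 * cz + 112 * e) * U ≤ η * U := by
  have hU0 : 0 ≤ U := le_trans (by positivity) hU
  have h3 : ε₁ * lX ≤ e * lX := mul_le_mul_of_nonneg_right he1 hlX.le
  have h1 : 2 * LZ + 2 * lA + 20 * K ≤ 26 * e * lX := by linarith
  have h4 : (2 * LZ + 2 * lA + 20 * K) * A1 ≤ 26 * e * U := by
    calc (2 * LZ + 2 * lA + 20 * K) * A1 ≤ 26 * e * lX * A1 := mul_le_mul_of_nonneg_right h1 hA1
      _ = 26 * e * (lX * A1) := by ring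
      _ ≤ 26 * e * U := mul_le_mul_of_nonneg_left hU (by positivity)
  have h5 : (2 * cz + 112 * e) * U ≤ 114 * e * U :=
    mul_le_mul_of_nonneg_right (by linarith) hU0
  have h6 : 140 * e * U ≤ η * U := mul_le_mul_of_nonneg_right (by linarith) hU0
  linarith

/-- the general upper bound for the main term -/
theorem sh_gen {T : ℝ} {ρ : ℝ → ℝ} (hρ : KerL T ρ) {g : ℝ → ℝ} {G : ℝ} (hg : Kg g G)
    (hd : ∀ u, 0 < u → ‖kh ρ u‖ ^ 2 + ‖kh ρ (-u)‖ ^ 2 ≤ g u)
    (hI : ∫ u in Set.Ioi (0 : ℝ), g u ≤ 1) {η : ℝ} (hη : 0 < η) (hη1 : η ≤ 1) :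
    ∃ ε₁ : ℝ, 0 < ε₁ ∧ ∃ X₀ : ℕ, ∀ X : ℕ, X₀ ≤ X → ∀ (A : ℕ) (a : ℕ → ℝ),
    (∀ k, a k ≠ 0 → smooth (zz X) k ∧ k ≤ A) → 1 ≤ A → (A : ℝ) ≤ (X : ℝ) ^ ε₁ →
    ∀ (B : ℕ) (V : ℕ → ℝ), 1 ≤ B → RVec (zz X) B V → ∀ E : ℕ, A * B ≤ E → E ≤ X →
    ∀ N : ℕ, 1 ≤ N → N ≤ 4 * E ^ 2 →
      sh ρ T E (xV (zz X) B V a) N ≤ Vz (zz X) * cn (zz X) A a * (BF B (Real.log N) V +
        (56 * ((∫ u in Set.Ioi (0 : ℝ), g u) - 1 / Real.pi) + η) *
          (Real.log X * QF B phi V V + QF B phi (lg V) (lg V) / Real.log X) +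
        16 * G * ((B : ℝ) / E) ^ 2 * aV B V) := by
  have hT := hρ.T1
  have hpi := Real.pi_pos
  have hG := Kg_G_nonneg hg
  obtain ⟨g₁, C, hk, hb, hI1, hI2⟩ := kd_exists hρ hg hd
  set I₀ := ∫ u in Set.Ioi (0 : ℝ), g u with hI₀
  set e : ℝ := η / 400 with he
  have he0 : 0 < e := by positivity
  have heh : e ≤ 1 / 2 := by rw [he]; linarith
  obtain ⟨N₁, hN₁⟩ := smooth_tail he0 he0
  obtain ⟨N₂, hN₂⟩ := sizesM (δ := 0) (by norm_num) (by norm_num) he0
  set K : ℝ := max (kS g₁ 1) |Cl ρ| with hKd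
  have hK0 : 0 ≤ K := (abs_nonneg _).trans (le_max_right _ _)
  have hl : ∀ᶠ X : ℕ in atTop, max (K + 1) (Real.log (2 * T) + 2) / e ≤ Real.log X :=
    (Real.tendsto_log_atTop.comp tendsto_natCast_atTop_atTop).eventually_ge_atTop _
  obtain ⟨N₃, hN₃⟩ := eventually_atTop.1 hl
  refine ⟨e, he0, max 3 (max N₁ (max N₂ N₃)), fun X hX A a ha hA hAX B V hB hV E hE hEX N hN hNE =>
    ?_⟩
  have hX3 : 3 ≤ X := (le_max_left _ _).trans hX
  have h1 := hN₁ X ((le_max_left _ _).trans ((le_max_right _ _).trans hX))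
  obtain ⟨a1, a2, a3, a4, a5, a6, a7, a8, a9⟩ := hN₂ X ((le_max_left _ _).trans
    ((le_max_right _ _).trans ((le_max_right _ _).trans hX)))
  have h3 := hN₃ X ((le_max_right _ _).trans ((le_max_right _ _).trans
    ((le_max_right _ _).trans hX)))
  set z := zz X with hz
  set lX := Real.log X with hlX
  have hXr : (3 : ℝ) ≤ X := by exact_mod_cast hX3
  have hX0 : (0 : ℝ) < X := by linarith
  rw [div_le_iff₀ he0] at h3
  have h4 : K + 1 ≤ e * lX := (le_max_left _ _).trans (by linarith)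
  have h5 : Real.log (2 * T) + 2 ≤ e * lX := (le_max_right _ _).trans (by linarith)
  have hlX0 : 0 < lX := Real.log_pos (by linarith)
  have hel : e * lX ≤ 1 / 2 * lX := mul_le_mul_of_nonneg_right heh hlX0.le
  have hz1 : 1 ≤ z := by omega
  have hz0 : (0 : ℝ) < z := by exact_mod_cast hz1
  have hE1 : 1 ≤ E := by
    have : 1 ≤ A * B := Nat.mul_pos hA hB
    omega
  have hE0 : (0 : ℝ) < E := by exact_mod_cast hE1
  have hB0 : (0 : ℝ) < B := by exact_mod_cast hB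
  have hBE : B ≤ E := (Nat.le_mul_of_pos_left B hA).trans hE
  have hBX : B ≤ X := hBE.trans hEX
  -- the size of Z
  set Z : ℕ := ⌈(X : ℝ) ^ e⌉₊ with hZ
  have hZ1 : (X : ℝ) ^ e ≤ Z := Nat.le_ceil _
  have hNe : 1 ≤ (X : ℝ) ^ e := Real.one_le_rpow (by linarith) he0.le
  have hZ2 : (Z : ℝ) ≤ 2 * (X : ℝ) ^ e := by
    have := Nat.ceil_lt_add_one (show 0 ≤ (X : ℝ) ^ e by positivity)
    linarith
  have hZpos : (0 : ℝ) < Z := by linarith
  have hZn : 1 ≤ Z := by exact_mod_cast hZpos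
  have hl2 : Real.log 2 ≤ 1 := by
    have := Real.log_two_lt_d9
    linarith
  have hlZ : Real.log Z ≤ e * lX + 1 := by
    calc Real.log Z ≤ Real.log (2 * (X : ℝ) ^ e) := Real.log_le_log hZpos hZ2
      _ = Real.log 2 + e * lX := by
          rw [Real.log_mul (by norm_num) (by positivity), Real.log_rpow hX0]
      _ ≤ _ := by linarith
  have hlZ0 : 0 ≤ Real.log Z := Real.log_nonneg (by exact_mod_cast hZn)
  have hyo : Real.log (yo T E) = -(Real.log (2 * T) + 2 * Real.log E) := by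
    unfold yo
    rw [one_div, Real.log_inv, Real.log_mul (by positivity) (by positivity), Real.log_pow]
    push_cast
    ring
  have hlE0 : 0 ≤ Real.log E := Real.log_nonneg (by exact_mod_cast hE1)
  have hlEX : Real.log E ≤ lX := Real.log_le_log hE0 (by exact_mod_cast hEX)
  have hlT : 0 ≤ Real.log (2 * T) := Real.log_nonneg (by linarith)
  have hyo0 : 0 < yo T E := by unfold yo; positivity
  -- the two parts
  have hint := int_le hk hb hT hz1 hB hV ha hE hE1 hBE hZn he0.le heh (h1 Z hZ1)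
  have hdiag := diag_le hρ.toKer hV ha hE hE1 hN hNE
  set A1 := QF B phi V V with hA1
  set AX := QF B phi V (lg V) with hAX'
  set GG := QF B phL V V with hGG
  set AL := QF B phi (lg V) (lg V) with hAL
  have hA10 : 0 ≤ A1 := QF_nonneg phi_nonneg' B V
  have hGG0 : 0 ≤ GG := QF_nonneg phL_nonneg B V
  have hAL0 : 0 ≤ AL := QF_nonneg phi_nonneg' B (lg V)
  have hGGX : GG ≤ lX * A1 := QF_phL_le hBX V
  have hAXX : 2 * |AX| ≤ lX * A1 + AL / lX := QF_cross_le B hlX0 V (lg V)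
  have haV0 : 0 ≤ aV B V := by
    unfold aV
    exact Finset.sum_nonneg fun _ _ => Finset.sum_nonneg fun _ _ => by positivity
  have ha40 : 0 ≤ G * ((B : ℝ) ^ 2 * (yo T E / Z)) * aV B V := by positivity
  have hS0 : 0 ≤ Vz z * cn z A a := mul_nonneg (phi_Vz_pos z).le (BGB_cn_nonneg z A a)
  have hcz : 1 / (z : ℝ) ≤ e := by
    rw [div_le_iff₀ hz0]
    have e1 : 1 / e ≤ Real.log z := a5
    rw [div_le_iff₀ he0] at e1
    have e2 : Real.log z ≤ z := (Real.log_le_sub_one_of_pos hz0).trans (by linarith)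
    have e3 : Real.log z * e ≤ z * e := mul_le_mul_of_nonneg_right e2 he0.le
    linarith
  have hcz0 : 0 ≤ 1 / (z : ℝ) := by positivity
  have hlA : Real.log A ≤ e * lX := by
    calc Real.log A ≤ Real.log ((X : ℝ) ^ e) :=
          Real.log_le_log (by exact_mod_cast hA) hAX
      _ = e * lX := Real.log_rpow hX0 e
  have hkS := kS_nonneg hk.toKg 1
  -- replace the constants by K
  have hint2 : (1 + 2 * e) * (kS g₁ 1 * A1 + hK g₁ 0 *
      ((Real.log Z - Real.log (yo T E)) * A1 - 2 * AX +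
        (1 + 1 / z) * GG) + G * ((B : ℝ) ^ 2 * (yo T E / Z)) * aV B V) ≤
      (1 + 2 * e) * (K * A1 + hK g₁ 0 *
      ((Real.log Z - Real.log (yo T E)) * A1 - 2 * AX +
        (1 + 1 / z) * GG) + G * ((B : ℝ) ^ 2 * (yo T E / Z)) * aV B V) := by
    refine mul_le_mul_of_nonneg_left ?_ (by linarith)
    have : kS g₁ 1 * A1 ≤ K * A1 := mul_le_mul_of_nonneg_right (le_max_left _ _) hA10
    linarith
  have hdiag2 : (2 * Real.log (yo T E) + Real.log N + 2 * Real.log A + Real.pi * |Cl ρ|) * A1 +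
      2 * GG ≤ (2 * Real.log (yo T E) + Real.log N + 2 * Real.log A + Real.pi * K) * A1 +
      2 * GG := by
    have h6 : Real.pi * |Cl ρ| ≤ Real.pi * K := mul_le_mul_of_nonneg_left (le_max_right _ _) hpi.le
    have := mul_le_mul_of_nonneg_right (add_le_add_right h6
      (2 * Real.log (yo T E) + Real.log N + 2 * Real.log A)) hA10
    linarith
  have hnum := gen_num (e0 := I₀ - 1 / Real.pi) (e := e) (I := hK g₁ 0) (A1 := A1) (AX := AX)
    (GG := GG) (AL := AL) (lX := lX) (LZ := Real.log Z) (lN := Real.log N)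
    (lyo := Real.log (yo T E)) (lA := Real.log A) (K := K)
    (a4 := G * ((B : ℝ) ^ 2 * (yo T E / Z)) * aV B V) (cz := 1 / (z : ℝ)) (Q := Real.pi)
    hpi (by linarith [Real.pi_gt_three]) (by linarith [Real.pi_lt_four]) hA10 hGG0 hAL0 hlX0 hGGX
    hAXX hI2 (by linarith) (hI1.trans hI) he0.le heh hcz0 (by linarith) rfl
    (by rw [hyo]; linarith) (by rw [hyo]; linarith) hK0 ha40 rfl
  have hfin := gen_fin (e := e) (η := η) (ε₁ := e) (lX := lX) (LZ := Real.log Z)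
    (lA := Real.log A) (K := K) (cz := 1 / (z : ℝ)) (A1 := A1) (U := lX * A1 + AL / lX)
    (by have : 0 ≤ AL / lX := by positivity
        linarith) hA10 hlX0 he he0 le_rfl (by linarith) hlZ hlA (by linarith) hcz
  have ha4 : 16 * (G * ((B : ℝ) ^ 2 * (yo T E / Z)) * aV B V) ≤
      16 * G * ((B : ℝ) / E) ^ 2 * aV B V := by
    have h6 : (B : ℝ) ^ 2 * (yo T E / Z) ≤ ((B : ℝ) / E) ^ 2 := by
      unfold yo
      rw [div_pow, mul_div_assoc', mul_one_div, div_div]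
      refine div_le_div_of_nonneg_left (by positivity) (by positivity) ?_
      have h2 : (1 : ℝ) ≤ Z := by exact_mod_cast hZn
      calc (E : ℝ) ^ 2 = 1 * (E : ℝ) ^ 2 := by ring
        _ ≤ 2 * T * (E : ℝ) ^ 2 := mul_le_mul_of_nonneg_right (by linarith) (sq_nonneg _)
        _ ≤ 2 * T * (E : ℝ) ^ 2 * Z := le_mul_of_one_le_right (by positivity) h2
    have h7 : G * ((B : ℝ) ^ 2 * (yo T E / Z)) * aV B V ≤ G * ((B : ℝ) / E) ^ 2 * aV B V := by
      refine mul_le_mul_of_nonneg_right ?_ haV0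
      exact mul_le_mul_of_nonneg_left h6 hG
    linarith
  unfold sh
  set Iy := ∫ y in Set.Ioi (yo T E), ∑' n : ℕ,
      (‖kh ρ ((n + 1) * y)‖ ^ 2 + ‖kh ρ (-((n + 1) * y))‖ ^ 2) *
        WW E (wX E (xV z B V a)) (n + 1) ^ 2 with hIy
  have htot : 2 * Real.pi * Iy ≤ 2 * Real.pi * (Vz z * cn z A a * ((1 + 2 * e) * (K * A1 +
      hK g₁ 0 * ((Real.log Z - Real.log (yo T E)) * A1 - 2 * AX +
        (1 + 1 / z) * GG) + G * ((B : ℝ) ^ 2 * (yo T E / Z)) * aV B V))) :=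
    mul_le_mul_of_nonneg_left (hint.trans (mul_le_mul_of_nonneg_left hint2 hS0)) (by positivity)
  refine (add_le_add htot (hdiag.trans (mul_le_mul_of_nonneg_left hdiag2 hS0))).trans ?_
  calc 2 * Real.pi * (Vz z * cn z A a * ((1 + 2 * e) * (K * A1 +
      hK g₁ 0 * ((Real.log Z - Real.log (yo T E)) * A1 - 2 * AX +
        (1 + 1 / z) * GG) + G * ((B : ℝ) ^ 2 * (yo T E / Z)) * aV B V))) +
      Vz z * cn z A a * ((2 * Real.log (yo T E) + Real.log N + 2 * Real.log A +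
        Real.pi * K) * A1 + 2 * GG) = Vz z * cn z A a * (2 * Real.pi * ((1 + 2 * e) * (K * A1 +
      hK g₁ 0 * ((Real.log Z - Real.log (yo T E)) * A1 - 2 * AX +
        (1 + 1 / z) * GG) + G * ((B : ℝ) ^ 2 * (yo T E / Z)) * aV B V)) +
        ((2 * Real.log (yo T E) + Real.log N + 2 * Real.log A + Real.pi * K) * A1 + 2 * GG)) := by
        ring
    _ ≤ _ := by
        refine mul_le_mul_of_nonneg_left ?_ hS0
        refine hnum.trans ?_
        unfold BF
        rw [← hA1, ← hAX', ← hGG]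
        linarith

end Pool.Agent.LSP
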