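import Pool.Agent.Lib_helper71.LSPM2.SRX
import Pool.Agent.Lib_helper71.LSPM.NT
import Pool.Agent.Lib_helper68.KSLF.AAX
import Pool.Agent.Lib_helper68.KSLF.RSB

/-! LSP2, part M2: sums over smooth and rough numbers. -/

namespace Pool.Agent.LSP

open Pool.Agent.LEV Pool.Agent.LVB Pool.Agent.KSL
open Pool.Agent.FG61 (mu phi cc ff AA Lam)
open Complex MeasureTheory Filter Topology

open Classical in
/-- the Euler product over the small primes -/
theorem smooth_hasSum {σ : ℝ} (hσ2 : σ ≤ 1 / 2) (z : ℕ) :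
    HasSum (fun m : ℕ => if smooth z m then (m : ℝ) ^ (-(1 - σ)) else 0)
      (∏ p ∈ (Pz z).primeFactors, (1 - (p : ℝ) ^ (-(1 - σ)))⁻¹) := by
  let f : ℕ →* ℝ :=
    { toFun := fun m => (m : ℝ) ^ (-(1 - σ))
      map_one' := by simp
      map_mul' := by
        intro a b
        push_cast
        exact Real.mul_rpow (Nat.cast_nonneg a) (Nat.cast_nonneg b) }
  have hf : ∀ {p : ℕ}, p.Prime → ‖f p‖ < 1 := by
    intro p hp
    have h2 : ‖f p‖ = (p : ℝ) ^ (-(1 - σ)) := by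
      show ‖(p : ℝ) ^ (-(1 - σ))‖ = _
      rw [Real.norm_of_nonneg (by positivity)]
    rw [h2]
    have := aax_t hσ2 hp.two_le
    linarith
  have h := (EulerProduct.summable_and_hasSum_smoothNumbers_prod_primesBelow_geometric
    (f := f) hf (z + 1)).2
  have h2 : (∏ p ∈ (z + 1).primesBelow, (1 - f p)⁻¹) =
      ∏ p ∈ (Pz z).primeFactors, (1 - (p : ℝ) ^ (-(1 - σ)))⁻¹ := by
    rw [aax_Pz_primeFactors]
    apply Finset.prod_congr
    · ext p
      simp only [Nat.primesBelow, Finset.mem_filter, Finset.mem_range, Finset.mem_Icc]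
      constructor
      · rintro ⟨h1, h2⟩
        exact ⟨⟨h2.one_le, Nat.le_of_lt_succ h1⟩, h2⟩
      · rintro ⟨⟨_, h1⟩, h2⟩
        exact ⟨Nat.lt_succ_of_le h1, h2⟩
    · intro p _
      rfl
  rw [h2] at h
  have h3 := (hasSum_subtype_iff_indicator (s := Nat.smoothNumbers (z + 1))
    (f := fun m : ℕ => f m)).1 h
  convert h3 using 1
  funext m
  by_cases hm : smooth z m
  · rw [if_pos hm, Set.indicator_of_mem (phi_smooth_iff.1 hm)]
    rfl
  · rw [if_neg hm, Set.indicator_of_notMem (fun h => hm (phi_smooth_iff.2 h))]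

open Classical in
/-- Rankin's bound for the tail -/
theorem smooth_rankin {σ : ℝ} (hσ : 0 < σ) (hσ2 : σ ≤ 1 / 2) (z : ℕ) {Z : ℕ} (hZ : 1 ≤ Z) :
    (Vz z)⁻¹ ≤ sZ z Z + (Z : ℝ) ^ (-σ) *
      ∏ p ∈ (Pz z).primeFactors, (1 - (p : ℝ) ^ (-(1 - σ)))⁻¹ := by
  have h1 := smooth_hasSum hσ2 z
  have h2 := phi_hasSum z
  have hZ0 : (0 : ℝ) < Z := by exact_mod_cast hZ
  have h3 : HasSum (fun m : ℕ => if m ∈ Finset.Icc 1 Z then
      (if smooth z m then 1 / (m : ℝ) else 0) else 0) (∑ m ∈ Finset.Icc 1 Z,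
      (if m ∈ Finset.Icc 1 Z then (if smooth z m then 1 / (m : ℝ) else 0) else 0)) :=
    hasSum_sum_of_ne_finset_zero (fun m hm => if_neg hm)
  have h4 : ∑ m ∈ Finset.Icc 1 Z, (if m ∈ Finset.Icc 1 Z then
      (if smooth z m then 1 / (m : ℝ) else 0) else 0) = sZ z Z := by
    unfold sZ
    exact Finset.sum_congr rfl fun m hm => if_pos hm
  rw [h4] at h3
  refine hasSum_le (fun m => ?_) h2 (h3.add (h1.mul_left ((Z : ℝ) ^ (-σ))))
  by_cases hm : smooth z m
  · rw [if_pos hm]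
    have hm1 : 1 ≤ m := Nat.pos_of_ne_zero hm.1
    have hm0 : (0 : ℝ) < m := by exact_mod_cast hm1
    by_cases hmZ : m ∈ Finset.Icc 1 Z
    · rw [if_pos hmZ, if_pos hm]
      have : 0 ≤ (Z : ℝ) ^ (-σ) * (m : ℝ) ^ (-(1 - σ)) := by positivity
      linarith
    · rw [if_neg hmZ, if_pos hm, zero_add]
      rw [Finset.mem_Icc] at hmZ
      have hlt : Z < m := by
        by_contra h
        exact hmZ ⟨hm1, by omega⟩
      have hlt' : (Z : ℝ) ≤ m := by exact_mod_cast hlt.le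
      have e1 : 1 / (m : ℝ) = (m : ℝ) ^ (-σ) * (m : ℝ) ^ (-(1 - σ)) := by
        rw [← Real.rpow_add hm0, show -σ + -(1 - σ) = -1 by ring, Real.rpow_neg_one, one_div]
      rw [e1]
      refine mul_le_mul_of_nonneg_right ?_ (by positivity)
      exact Real.rpow_le_rpow_of_nonpos hZ0 hlt' (by linarith)
  · rw [if_neg hm, if_neg hm, mul_zero, add_zero]
    split_ifs <;> simp

/-- almost all of the Euler product comes from small smooth numbers -/
theorem smooth_tail {ε ε' : ℝ} (hε : 0 < ε) (hε' : 0 < ε') : ∃ N₀ : ℕ, ∀ N : ℕ, N₀ ≤ N →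
    ∀ Z : ℕ, (N : ℝ) ^ ε' ≤ Z → (Vz (zz N))⁻¹ * (1 - ε) ≤ sZ (zz N) Z := by
  obtain ⟨D, hD⟩ := mertens_two
  set B : ℝ := Real.exp (12 * D) with hB
  have hB0 : 0 < B := by positivity
  obtain ⟨ε₀, hε₀, h1, h2, h3⟩ : ∃ ε₀ : ℝ, 0 < ε₀ ∧ ε₀ ≤ 1 / 3 ∧ 13 * ε₀ ≤ ε' ∧ B * ε₀ ≤ ε := by
    refine ⟨min (1 / 3) (min (ε' / 13) (ε / B)), by positivity, min_le_left _ _, ?_, ?_⟩
    · have := (min_le_right (1 / 3 : ℝ) _).trans (min_le_left (ε' / 13) (ε / B))
      linarith
    · have := (min_le_right (1 / 3 : ℝ) _).trans (min_le_right (ε' / 13) (ε / B))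
      rw [le_div_iff₀ hB0] at this
      linarith
  obtain ⟨N₀, hN₀⟩ := sizesM (δ := 0) (by norm_num) (by norm_num) hε₀
  refine ⟨N₀, fun N hN Z hx => ?_⟩
  obtain ⟨a1, a2, a3, a4, a5, a6, a7, a8, a9⟩ := hN₀ N hN
  have hN3 : (3 : ℝ) ≤ N := by exact_mod_cast a1
  have hinv : 3 ≤ 1 / ε₀ := by
    rw [le_div_iff₀ hε₀]; linarith
  have hlz3 : 3 ≤ Real.log (zz N) := hinv.trans a5
  have hzpos : (0 : ℝ) < zz N := by
    have : (2 : ℝ) ≤ zz N := by exact_mod_cast a2
    linarith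
  have hz8 : 8 ≤ zz N := by
    have h4 : Real.exp 3 ≤ zz N := by
      rw [← Real.le_log_iff_exp_le hzpos]; exact hlz3
    have h5 : (8 : ℝ) ≤ Real.exp 3 := by
      have h6 := Real.exp_one_gt_d9
      have h7 : Real.exp 3 = Real.exp 1 ^ 3 := by
        rw [← Real.exp_nat_mul]; norm_num
      rw [h7]
      calc (8 : ℝ) = 2 ^ 3 := by norm_num
        _ ≤ _ := pow_le_pow_left₀ (by norm_num) (by linarith) 3
    exact_mod_cast h5.trans h4
  set L := Real.log (Real.log N) with hL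
  set l := Real.log (zz N) with hl
  have hl0 : 0 < l := by linarith
  have hL3 : 1 / ε₀ ≤ L := a8
  have hL0 : 0 < L := by linarith
  have hlogN : 0 < Real.log N := Real.log_pos (by linarith)
  have hlz : l * L ^ 2 ≤ Real.log N := by
    have h4 : (zz N : ℝ) ≤ zN N := Nat.floor_le (Real.exp_pos _).le
    have h5 := Real.log_le_log hzpos h4
    rw [zN, Real.log_exp, le_div_iff₀ (by positivity)] at h5
    exact h5
  have hσ : 0 < 1 / l := by positivity
  have hσ2 : 1 / l ≤ 1 / 2 := one_div_le_one_div_of_le (by norm_num) (by linarith)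
  have hx0 : (0 : ℝ) < Z := lt_of_lt_of_le (Real.rpow_pos_of_pos (by linarith) _) hx
  have hZ1 : 1 ≤ Z := by exact_mod_cast hx0
  have hmain := smooth_rankin hσ hσ2 (zz N) hZ1
  have hV0 := phi_Vz_pos (zz N)
  have hV1 : 1 ≤ (Vz (zz N))⁻¹ := (one_le_inv₀ hV0).2 (GDL_Vz_le _)
  have hprod : ∏ p ∈ (Pz (zz N)).primeFactors, (1 - (p : ℝ) ^ (-(1 - 1 / l)))⁻¹ ≤
      Real.exp (12 * L + 12 * D) := by
    have h5 := aax_small hD hz8
    have h7 : Real.log l ≤ L := by
      apply Real.log_le_log hl0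
      have : 1 ≤ L ^ 2 := by nlinarith
      nlinarith
    refine h5.trans (Real.exp_le_exp.2 ?_)
    linarith
  have hxs : (Z : ℝ) ^ (-(1 / l)) ≤ Real.exp (-(13 * L)) := by
    have h4 : (Z : ℝ) ^ (-(1 / l)) ≤ ((N : ℝ) ^ ε') ^ (-(1 / l)) :=
      Real.rpow_le_rpow_of_nonpos (Real.rpow_pos_of_pos (by linarith) _) hx (by linarith)
    refine h4.trans ?_
    rw [← Real.rpow_mul (by linarith), Real.rpow_def_of_pos (by linarith)]
    apply Real.exp_le_exp.2
    have h5 : L ^ 2 ≤ Real.log N / l := by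
      rw [le_div_iff₀ hl0]; linarith
    have h6 : 13 * L ≤ ε' * L ^ 2 := by
      have h7 : 1 ≤ ε₀ * L := by
        rw [div_le_iff₀ hε₀] at hL3; linarith
      have h8 : 13 * 1 ≤ ε' * L := by nlinarith
      nlinarith
    have h7 : ε' * L ^ 2 ≤ ε' * (Real.log N / l) := mul_le_mul_of_nonneg_left h5 hε'.le
    have h8 : Real.log N * (ε' * -(1 / l)) = -(ε' * (Real.log N / l)) := by ring
    rw [h8]
    linarith
  have hfin : (Z : ℝ) ^ (-(1 / l)) * ∏ p ∈ (Pz (zz N)).primeFactors,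
      (1 - (p : ℝ) ^ (-(1 - 1 / l)))⁻¹ ≤ ε := by
    calc _ ≤ Real.exp (-(13 * L)) * Real.exp (12 * L + 12 * D) := by
          refine mul_le_mul hxs hprod ?_ (by positivity)
          refine Finset.prod_nonneg fun p hp => ?_
          have := aax_t hσ2 (Nat.prime_of_mem_primeFactors hp).two_le
          apply inv_nonneg.2; linarith
      _ = B * Real.exp (-L) := by
          rw [hB, ← Real.exp_add, ← Real.exp_add]
          congr 1; ring
      _ ≤ B * ε₀ := by
          apply mul_le_mul_of_nonneg_left _ hB0.le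
          rw [Real.exp_neg, inv_le_comm₀ (Real.exp_pos _) hε₀, ← one_div]
          have := Real.add_one_le_exp L
          linarith
      _ ≤ ε := h3
  have h5 : ε * 1 ≤ ε * (Vz (zz N))⁻¹ := mul_le_mul_of_nonneg_left hV1 hε.le
  linarith

/-- `1 - ∑ t ≤ ∏ (1 - t)` -/
theorem one_sub_sum_le {ι : Type*} (s : Finset ι) (t : ι → ℝ) (h0 : ∀ i ∈ s, 0 ≤ t i)
    (h1 : ∀ i ∈ s, t i ≤ 1) : 1 - ∑ i ∈ s, t i ≤ ∏ i ∈ s, (1 - t i) := by
  classical
  induction s using Finset.induction_on with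
  | empty => simp
  | insert a s ha ih =>
    rw [Finset.sum_insert ha, Finset.prod_insert ha]
    have h2 := ih (fun i hi => h0 i (Finset.mem_insert_of_mem hi))
      (fun i hi => h1 i (Finset.mem_insert_of_mem hi))
    have h3 := h0 a (Finset.mem_insert_self a s)
    have h4 := h1 a (Finset.mem_insert_self a s)
    have h5 : 0 ≤ ∑ i ∈ s, t i := Finset.sum_nonneg fun i hi => h0 i (Finset.mem_insert_of_mem hi)
    nlinarith

/-- `φ(r)` is almost `r` for rough `r` -/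
theorem rough_phi {ε : ℝ} (hε : 0 < ε) : ∃ N₀ : ℕ, ∀ N : ℕ, N₀ ≤ N → ∀ r : ℕ, 1 ≤ r → r ≤ N ^ 2 →
    rough (zz N) r → (1 - ε) * r ≤ phi r := by
  set ε₀ : ℝ := min (1 / 3) (ε / 2000) with he₀
  have hε₀ : 0 < ε₀ := lt_min (by norm_num) (by linarith)
  obtain ⟨N₀, hN₀⟩ := sizesM (δ := 0) (by norm_num) (by norm_num) hε₀
  refine ⟨N₀, fun N hN r hr hrN hrough => ?_⟩
  obtain ⟨a1, a2, a3, a4, a5, a6, a7, a8, a9⟩ := hN₀ N hN
  have hN3 : (3 : ℝ) ≤ N := by exact_mod_cast a1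
  have he1 : ε₀ ≤ 1 / 3 := min_le_left _ _
  have he2 : ε₀ ≤ ε / 2000 := min_le_right _ _
  have hinv : 3 ≤ 1 / ε₀ := by
    rw [le_div_iff₀ hε₀]; linarith
  set l := Real.log (zz N) with hl
  set L := Real.log (Real.log N) with hL
  have hl0 : 0 < l := by linarith
  have hL0 : 0 < L := by linarith
  have hr0 : (0 : ℝ) < r := by exact_mod_cast hr
  have hz0 : (0 : ℝ) < zz N := by exact_mod_cast (by omega : 0 < zz N)
  have hz1 : (1 : ℝ) ≤ zz N := by exact_mod_cast (by omega : 1 ≤ zz N)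
  -- the number of primes
  have hcard := aax_card a2 hr hrough hrN
  have hlN2 : Real.log ((N ^ 2 : ℕ) : ℝ) = 2 * Real.log N := by
    push_cast
    rw [Real.log_pow]
    norm_num
  rw [hlN2] at hcard
  have hc2 : (r.primeFactors.card : ℝ) ≤ 4 * l ^ 2 := by
    have h2 : L ≤ l := by
      refine a9.trans ?_
      nlinarith
    have h3 : L ^ 2 ≤ l ^ 2 := pow_le_pow_left₀ hL0.le h2 2
    have h4 : (r.primeFactors.card : ℝ) * l ≤ 4 * l ^ 2 * l := by
      calc (r.primeFactors.card : ℝ) * l ≤ 2 * Real.log N := hcard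
        _ ≤ 2 * (2 * L ^ 2 * l) := by linarith
        _ ≤ 4 * l ^ 2 * l := by nlinarith
    exact le_of_mul_le_mul_right h4 hl0
  have hzl : l ^ 3 ≤ 216 * zz N := by
    have h2 : l ≤ 3 * (zz N : ℝ) ^ (1 / 3 : ℝ) := by
      have h3 := Real.log_le_sub_one_of_pos (Real.rpow_pos_of_pos hz0 (1 / 3 : ℝ))
      rw [Real.log_rpow hz0] at h3
      linarith
    calc l ^ 3 ≤ (3 * (zz N : ℝ) ^ (1 / 3 : ℝ)) ^ 3 := pow_le_pow_left₀ hl0.le h2 3
      _ = 27 * ((zz N : ℝ) ^ (1 / 3 : ℝ)) ^ 3 := by ring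
      _ = 27 * zz N := by
          rw [← Real.rpow_natCast, ← Real.rpow_mul hz0.le]
          norm_num
      _ ≤ 216 * zz N := by linarith
  have hsum : ∑ p ∈ r.primeFactors, 1 / (p : ℝ) ≤ ε := by
    have h2 : ∀ p ∈ r.primeFactors, 1 / (p : ℝ) ≤ 1 / zz N := by
      intro p hp
      have h3 := hrough p (Nat.prime_of_mem_primeFactors hp) (Nat.dvd_of_mem_primeFactors hp)
      exact one_div_le_one_div_of_le hz0 (by exact_mod_cast h3.le)
    calc ∑ p ∈ r.primeFactors, 1 / (p : ℝ) ≤ ∑ p ∈ r.primeFactors, 1 / (zz N : ℝ) :=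
          Finset.sum_le_sum h2
      _ = r.primeFactors.card * (1 / (zz N : ℝ)) := by rw [Finset.sum_const, nsmul_eq_mul]
      _ ≤ 4 * l ^ 2 * (1 / (zz N : ℝ)) := mul_le_mul_of_nonneg_right hc2 (by positivity)
      _ ≤ 864 * ε₀ := by
          rw [mul_one_div, div_le_iff₀ hz0]
          have h4 : 1 ≤ ε₀ * l := by
            rw [div_le_iff₀ hε₀] at a5
            linarith
          calc 4 * l ^ 2 = 4 * l ^ 2 * 1 := by ring
            _ ≤ 4 * l ^ 2 * (ε₀ * l) := mul_le_mul_of_nonneg_left h4 (by positivity)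
            _ = 4 * ε₀ * l ^ 3 := by ring
            _ ≤ 4 * ε₀ * (216 * zz N) := mul_le_mul_of_nonneg_left hzl (by positivity)
            _ = 864 * ε₀ * zz N := by ring
      _ ≤ ε := by linarith
  have hprod := one_sub_sum_le r.primeFactors (fun p => 1 / (p : ℝ)) (fun p _ => by positivity)
    (fun p hp => by
      have : (1 : ℝ) ≤ p := by exact_mod_cast (Nat.prime_of_mem_primeFactors hp).one_le
      exact (div_le_one (by linarith)).2 this)
  have h5 : phi r = r * ∏ p ∈ r.primeFactors, (1 - 1 / (p : ℝ)) := by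
    have h2 := Nat.totient_eq_mul_prod_factors r
    have : (((Nat.totient r : ℕ) : ℚ) : ℝ) = ((r * ∏ p ∈ r.primeFactors, (1 - (p : ℚ)⁻¹) : ℚ) : ℝ) := by
      rw [h2]
    push_cast at this
    unfold phi
    simpa [one_div] using this
  rw [h5, mul_comm]
  refine mul_le_mul_of_nonneg_left ?_ hr0.le
  linarith

theorem icc_range (X : ℕ) (F : ℕ → ℝ) :
    ∑ n ∈ Finset.Icc 1 X, F n = ∑ i ∈ Finset.range X, F (i + 1) := by
  induction X with
  | zero => simp
  | succ n ih => rw [Finset.sum_Icc_succ_top (by omega), Finset.sum_range_succ, ih]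

/-- harmonic sums over rough numbers -/
theorem rough_harm {z Z Y : ℕ} (hZ : 1 ≤ Z) (hY : 1 ≤ Y) :
    sZ z Z * ∑ r ∈ RO z Y, 1 / (r : ℝ) ≤ 1 + Real.log Y + Real.log Z := by
  classical
  have h1 : sZ z Z * ∑ r ∈ RO z Y, 1 / (r : ℝ) ≤ ∑ n ∈ Finset.Icc 1 (Z * Y), 1 / (n : ℝ) := by
    set f : ℕ → ℝ := fun k => if smooth z k ∧ k ≤ Z then 1 / (k : ℝ) else 0 with hf
    set g : ℕ → ℝ := fun k => if rough z k ∧ k ≤ Y then 1 / (k : ℝ) else 0 with hg
    have h2 := SPL_sum (z := z) (A := Z) (R := Y) (E := Z * Y) (f := f) (g := g)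
      (fun k _ hk => by
        by_contra hc
        exact hk (if_neg hc))
      (fun k _ hk => by
        by_contra hc
        exact hk (if_neg hc)) le_rfl (fun _ => 1)
    have e1 : ∑ k ∈ Finset.Icc 1 Z, f k = sZ z Z := by
      unfold sZ
      refine Finset.sum_congr rfl fun k hk => ?_
      rw [Finset.mem_Icc] at hk
      by_cases h5 : smooth z k
      · rw [if_pos h5]
        exact if_pos ⟨h5, hk.2⟩
      · rw [if_neg h5]
        exact if_neg fun h => h5 h.1
    have e2 : ∑ k ∈ Finset.Icc 1 Y, g k = ∑ r ∈ RO z Y, 1 / (r : ℝ) := by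
      unfold RO
      rw [Finset.sum_filter]
      refine Finset.sum_congr rfl fun k hk => ?_
      rw [Finset.mem_Icc] at hk
      by_cases h5 : rough z k
      · rw [if_pos h5]
        exact if_pos ⟨h5, hk.2⟩
      · rw [if_neg h5]
        exact if_neg fun h => h5 h.1
    simp only [mul_one] at h2
    rw [← Finset.sum_mul_sum, e1, e2] at h2
    rw [← h2]
    refine Finset.sum_le_sum fun e he => ?_
    rw [Finset.mem_Icc] at he
    obtain ⟨q1, q2, q3, q4, q5⟩ := smp_rop_pr (z := z) he.1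
    have hs0 : (0 : ℝ) < smp z e := by exact_mod_cast Nat.pos_of_ne_zero q3.1
    have hr0 : (0 : ℝ) < rop z e := by exact_mod_cast q5
    have hn0 : (e : ℝ) = smp z e * rop z e := by rw [← Nat.cast_mul, q1]
    rw [hf, hg]
    beta_reduce
    split_ifs
    · rw [hn0, one_div_mul_one_div]
    · rw [mul_zero]
      positivity
    · rw [zero_mul]
      positivity
    · rw [zero_mul]
      positivity
  have h2 : ∑ n ∈ Finset.Icc 1 (Z * Y), 1 / (n : ℝ) ≤ 1 + Real.log ((Z * Y : ℕ) : ℝ) := by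
    have h3 := HGN_harm (M := Z * Y) (Nat.mul_pos hZ hY)
    rw [icc_range]
    push_cast at h3 ⊢
    exact h3
  have hZ0 : (0 : ℝ) < Z := by exact_mod_cast hZ
  have hY0 : (0 : ℝ) < Y := by exact_mod_cast hY
  rw [Nat.cast_mul, Real.log_mul hZ0.ne' hY0.ne'] at h2
  linarith

end Pool.Agent.LSP
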