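import Pool.Agent.Lib_helper71.LSPM2.DEF3

/-! LSP2, part M2: the sum `∑ μ(m)/m log²(x/m)`. -/

namespace Pool.Agent.LSP

open Pool.Agent.LEV Pool.Agent.LVB Pool.Agent.KSL
open Pool.Agent.FG61 (mu phi cc ff AA Lam)
open Complex MeasureTheory Filter Topology

/-- `∑ μ(m)/m log²(x/m)` -/
noncomputable def A2 (K : ℕ) (x : ℝ) : ℝ :=
  ∑ m ∈ (Finset.Icc 1 ⌊x⌋₊).filter (fun m => Nat.Coprime m K),
    mu m / m * Real.log (x / m) ^ 2

theorem AA_max {K : ℕ} {s x : ℝ} (hs : 1 ≤ s) (hsx : s ≤ x) :
    AA K s = ∑ m ∈ (Finset.Icc 1 ⌊x⌋₊).filter (fun m => Nat.Coprime m K),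
      mu m / m * max (Real.log (s / m)) 0 := by
  unfold AA
  have hsub : (Finset.Icc 1 ⌊s⌋₊).filter (fun m => Nat.Coprime m K) ⊆
      (Finset.Icc 1 ⌊x⌋₊).filter (fun m => Nat.Coprime m K) := by
    refine Finset.filter_subset_filter _ ?_
    exact Finset.Icc_subset_Icc le_rfl (Nat.floor_le_floor hsx)
  have h1 : ∑ m ∈ (Finset.Icc 1 ⌊s⌋₊).filter (fun m => Nat.Coprime m K),
      mu m / m * Real.log (s / m) = ∑ m ∈ (Finset.Icc 1 ⌊s⌋₊).filter (fun m => Nat.Coprime m K),
      mu m / m * max (Real.log (s / m)) 0 := by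
    refine Finset.sum_congr rfl fun m hm => ?_
    rw [Finset.mem_filter, Finset.mem_Icc] at hm
    have hm0 : (0 : ℝ) < m := by exact_mod_cast hm.1.1
    have hms : (m : ℝ) ≤ s := (Nat.le_floor_iff (by linarith)).1 hm.1.2
    rw [max_eq_left]
    exact Real.log_nonneg (by rw [le_div_iff₀ hm0]; linarith)
  rw [h1]
  refine Finset.sum_subset hsub fun m hm hm' => ?_
  rw [Finset.mem_filter, Finset.mem_Icc] at hm hm'
  have hm0 : (0 : ℝ) < m := by exact_mod_cast hm.1.1
  have hms : s < m := by
    by_contra hle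
    push Not at hle
    exact hm' ⟨⟨hm.1.1, Nat.le_floor hle⟩, hm.2⟩
  rw [max_eq_right, mul_zero]
  exact Real.log_nonpos (by positivity) ((div_le_one hm0).2 hms.le)

theorem posl_cont {m : ℝ} (hm : 0 < m) {x : ℝ} :
    ContinuousOn (fun s : ℝ => max (Real.log (s / m)) 0 / s) (Set.Icc 1 x) := by
  have h1 : ContinuousOn (fun s : ℝ => Real.log (s / m)) (Set.Icc 1 x) := by
    refine ContinuousOn.log (by fun_prop) fun s hs => ?_
    have : 0 < s := by linarith [hs.1]
    positivity
  refine ((continuous_id.max continuous_const).comp_continuousOn h1).div continuousOn_id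
    fun s hs => ?_
  have : 0 < s := by linarith [hs.1]
  exact this.ne'

theorem posl_int {m x : ℝ} (hm : 1 ≤ m) (hx : m ≤ x) :
    ∫ s in (1 : ℝ)..x, max (Real.log (s / m)) 0 / s = Real.log (x / m) ^ 2 / 2 := by
  have hm0 : 0 < m := by linarith
  have hc := posl_cont hm0 (x := x)
  have hi : ∀ a b : ℝ, 1 ≤ a → a ≤ b → b ≤ x →
      IntervalIntegrable (fun s : ℝ => max (Real.log (s / m)) 0 / s) volume a b := by
    intro a b ha hab hb
    refine (hc.mono ?_).intervalIntegrable
    rw [Set.uIcc_of_le hab]
    exact Set.Icc_subset_Icc ha hb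
  rw [← intervalIntegral.integral_add_adjacent_intervals (hi 1 m le_rfl hm hx)
    (hi m x hm hx le_rfl)]
  have h1 : ∫ s in (1 : ℝ)..m, max (Real.log (s / m)) 0 / s = 0 := by
    rw [intervalIntegral.integral_congr (g := fun _ => (0 : ℝ))]
    · simp
    · intro s hs
      rw [Set.uIcc_of_le hm] at hs
      simp only
      have hs0 : 0 < s := by linarith [hs.1]
      rw [max_eq_right, zero_div]
      exact Real.log_nonpos (by positivity) ((div_le_one hm0).2 hs.2)
  have h2 : ∫ s in m..x, max (Real.log (s / m)) 0 / s =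
      Real.log (x / m) ^ 2 / 2 - Real.log (m / m) ^ 2 / 2 := by
    rw [intervalIntegral.integral_congr (g := fun s => Real.log (s / m) * (1 / s))]
    · refine intervalIntegral.integral_eq_sub_of_hasDerivAt
        (f := fun s : ℝ => Real.log (s / m) ^ 2 / 2) (fun s hs => ?_) ?_
      · rw [Set.uIcc_of_le hx] at hs
        have hs0 : 0 < s := by linarith [hs.1]
        have h3 : HasDerivAt (fun s : ℝ => Real.log (s / m)) (1 / s) s := by
          have h4 := ((hasDerivAt_id' s).div_const m).log (by positivity)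
          convert h4 using 1
          field_simp
        refine ((h3.fun_pow 2).div_const 2).congr_deriv ?_
        push_cast
        ring
      · refine ContinuousOn.intervalIntegrable ?_
        rw [Set.uIcc_of_le hx]
        refine ContinuousOn.mul (ContinuousOn.log (by fun_prop) fun s hs => ?_)
          (continuousOn_const.div continuousOn_id fun s hs => ?_)
        · have : 0 < s := by linarith [hs.1]
          positivity
        · have : 0 < s := by linarith [hs.1]
          exact this.ne'
    · intro s hs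
      rw [Set.uIcc_of_le hx] at hs
      have hs0 : 0 < s := by linarith [hs.1]
      show max (Real.log (s / m)) 0 / s = Real.log (s / m) * (1 / s)
      rw [max_eq_left, mul_one_div]
      exact Real.log_nonneg (by rw [le_div_iff₀ hm0]; linarith [hs.1])
  rw [h1, h2, div_self hm0.ne', Real.log_one]
  ring

/-- `A2` as an integral -/
theorem A2_int {K : ℕ} {x : ℝ} (hx : 1 ≤ x) :
    IntervalIntegrable (fun s => AA K s / s) volume 1 x ∧
    A2 K x = 2 * ∫ s in (1 : ℝ)..x, AA K s / s := by
  have h0 : ∀ s ∈ Set.Icc (1 : ℝ) x, AA K s / s =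
      ∑ m ∈ (Finset.Icc 1 ⌊x⌋₊).filter (fun m => Nat.Coprime m K),
        mu m / m * (max (Real.log (s / m)) 0 / s) := by
    intro s hs
    rw [AA_max hs.1 hs.2, Finset.sum_div]
    exact Finset.sum_congr rfl fun m _ => by ring
  have hi : ∀ m ∈ (Finset.Icc 1 ⌊x⌋₊).filter (fun m => Nat.Coprime m K),
      IntervalIntegrable (fun s : ℝ => mu m / m * (max (Real.log (s / m)) 0 / s)) volume 1 x := by
    intro m hm
    rw [Finset.mem_filter, Finset.mem_Icc] at hm
    have hm0 : (0 : ℝ) < m := by exact_mod_cast hm.1.1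
    refine IntervalIntegrable.const_mul ?_ _
    refine ContinuousOn.intervalIntegrable ?_
    rw [Set.uIcc_of_le hx]
    exact posl_cont hm0
  have hs := IntervalIntegrable.sum _ hi
  have e1 : (∑ m ∈ (Finset.Icc 1 ⌊x⌋₊).filter (fun m => Nat.Coprime m K),
      fun s : ℝ => mu m / m * (max (Real.log (s / m)) 0 / s)) = fun s : ℝ =>
      ∑ m ∈ (Finset.Icc 1 ⌊x⌋₊).filter (fun m => Nat.Coprime m K),
        mu m / m * (max (Real.log (s / m)) 0 / s) := by
    ext s
    simp
  rw [e1] at hs
  constructor
  · refine hs.congr ?_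
    intro s hs'
    rw [Set.uIoc_of_le hx] at hs'
    simp only
    exact (h0 s ⟨hs'.1.le, hs'.2⟩).symm
  · rw [intervalIntegral.integral_congr (g := fun s : ℝ =>
      ∑ m ∈ (Finset.Icc 1 ⌊x⌋₊).filter (fun m => Nat.Coprime m K),
        mu m / m * (max (Real.log (s / m)) 0 / s))]
    · rw [intervalIntegral.integral_finsetSum hi, Finset.mul_sum]
      unfold A2
      refine Finset.sum_congr rfl fun m hm => ?_
      rw [Finset.mem_filter, Finset.mem_Icc] at hm
      have hm1 : (1 : ℝ) ≤ m := by exact_mod_cast hm.1.1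
      have hmx : (m : ℝ) ≤ x := (Nat.le_floor_iff (by linarith)).1 hm.1.2
      rw [intervalIntegral.integral_const_mul, posl_int hm1 hmx]
      ring
    · intro s hs'
      rw [Set.uIcc_of_le hx] at hs'
      exact h0 s hs'

/-- `A2` from bounds for `A` -/
theorem A2_bound {K : ℕ} {x c C ε y l : ℝ} (hx : 1 ≤ x) (hc : 0 ≤ c) (hC : 0 ≤ C) (hε : 0 ≤ ε)
    (hy : 1 ≤ y) (hxl : Real.log x ≤ l) (h1 : ∀ s : ℝ, 1 ≤ s → |AA K s - c| ≤ C * c)
    (h2 : ∀ s : ℝ, y ≤ s → |AA K s - c| ≤ ε * c) :
    |A2 K x - 2 * c * Real.log x| ≤ 2 * c * (C * Real.log y + ε * l) := by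
  obtain ⟨hi, hA⟩ := A2_int (K := K) hx
  have hx0 : 0 < x := by linarith
  have hlx : 0 ≤ Real.log x := Real.log_nonneg hx
  have hly : 0 ≤ Real.log y := Real.log_nonneg hy
  have hii : ∀ {a b : ℝ}, 1 ≤ a → a ≤ b →
      IntervalIntegrable (fun s : ℝ => 1 / s) volume a b := fun {a b} ha hab =>
    inv_ii (by linarith) hab
  have hi2 : IntervalIntegrable (fun s => (AA K s - c) * (1 / s)) volume 1 x := by
    have := hi.sub ((hii le_rfl hx).const_mul c)
    refine this.congr ?_
    intro s _
    simp only
    ring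
  have h3 : A2 K x - 2 * c * Real.log x = 2 * ∫ s in (1 : ℝ)..x, (AA K s - c) * (1 / s) := by
    have e1 : ∫ s in (1 : ℝ)..x, (AA K s - c) * (1 / s) =
        (∫ s in (1 : ℝ)..x, AA K s / s) - ∫ s in (1 : ℝ)..x, c * (1 / s) := by
      rw [← intervalIntegral.integral_sub hi ((hii le_rfl hx).const_mul c)]
      refine intervalIntegral.integral_congr fun s _ => ?_
      show (AA K s - c) * (1 / s) = AA K s / s - c * (1 / s)
      ring
    rw [e1, hA, intervalIntegral.integral_const_mul, integral_one_div_of_pos one_pos hx0, div_one]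
    ring
  rw [h3, abs_mul, abs_two]
  have key : |∫ s in (1 : ℝ)..x, (AA K s - c) * (1 / s)| ≤ c * (C * Real.log y + ε * l) := by
    rcases le_or_gt x y with hxy | hxy
    · have h4 : |∫ s in (1 : ℝ)..x, (AA K s - c) * (1 / s)| ≤
          ∫ s in (1 : ℝ)..x, C * c * (1 / s) := by
        refine intervalIntegral.abs_integral_le_integral_abs hx |>.trans ?_
        refine intervalIntegral.integral_mono_on hx hi2.abs ((hii le_rfl hx).const_mul _)
          fun s hs => ?_
        have hs0 : 0 < s := by linarith [hs.1]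
        rw [abs_mul, abs_of_pos (by positivity : 0 < 1 / s)]
        exact mul_le_mul_of_nonneg_right (h1 s hs.1) (by positivity)
      refine h4.trans ?_
      rw [intervalIntegral.integral_const_mul, integral_one_div_of_pos one_pos hx0, div_one]
      have h5 : Real.log x ≤ Real.log y := Real.log_le_log hx0 hxy
      have h6 : C * c * Real.log x ≤ C * c * Real.log y :=
        mul_le_mul_of_nonneg_left h5 (by positivity)
      have h7 : 0 ≤ c * (ε * l) := mul_nonneg hc (mul_nonneg hε (by linarith))
      linarith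
    · have hy0 : 0 < y := by linarith
      have ha : IntervalIntegrable (fun s => (AA K s - c) * (1 / s)) volume 1 y :=
        hi2.mono_set (by
          rw [Set.uIcc_of_le hy, Set.uIcc_of_le hx]
          exact Set.Icc_subset_Icc le_rfl hxy.le)
      have hb : IntervalIntegrable (fun s => (AA K s - c) * (1 / s)) volume y x :=
        hi2.mono_set (by
          rw [Set.uIcc_of_le hxy.le, Set.uIcc_of_le hx]
          exact Set.Icc_subset_Icc hy le_rfl)
      rw [← intervalIntegral.integral_add_adjacent_intervals ha hb]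
      have h4 : |∫ s in (1 : ℝ)..y, (AA K s - c) * (1 / s)| ≤ C * c * Real.log y := by
        have h5 : |∫ s in (1 : ℝ)..y, (AA K s - c) * (1 / s)| ≤
            ∫ s in (1 : ℝ)..y, C * c * (1 / s) := by
          refine intervalIntegral.abs_integral_le_integral_abs hy |>.trans ?_
          refine intervalIntegral.integral_mono_on hy ha.abs ((hii le_rfl hy).const_mul _)
            fun s hs => ?_
          have hs0 : 0 < s := by linarith [hs.1]
          rw [abs_mul, abs_of_pos (by positivity : 0 < 1 / s)]
          exact mul_le_mul_of_nonneg_right (h1 s hs.1) (by positivity)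
        refine h5.trans (le_of_eq ?_)
        rw [intervalIntegral.integral_const_mul, integral_one_div_of_pos one_pos hy0, div_one]
      have h6 : |∫ s in y..x, (AA K s - c) * (1 / s)| ≤ ε * c * Real.log x := by
        have h5 : |∫ s in y..x, (AA K s - c) * (1 / s)| ≤ ∫ s in y..x, ε * c * (1 / s) := by
          refine intervalIntegral.abs_integral_le_integral_abs hxy.le |>.trans ?_
          refine intervalIntegral.integral_mono_on hxy.le hb.abs ((hii hy hxy.le).const_mul _)
            fun s hs => ?_
          have hs0 : 0 < s := by linarith [hs.1]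
          rw [abs_mul, abs_of_pos (by positivity : 0 < 1 / s)]
          exact mul_le_mul_of_nonneg_right (h2 s hs.1) (by positivity)
        refine h5.trans ?_
        rw [intervalIntegral.integral_const_mul, integral_one_div_of_pos hy0 hx0]
        refine mul_le_mul_of_nonneg_left ?_ (by positivity)
        refine Real.log_le_log (by positivity) ?_
        rw [div_le_iff₀ hy0]
        nlinarith
      have h7 : ε * c * Real.log x ≤ ε * c * l := mul_le_mul_of_nonneg_left hxl (by positivity)
      have h8 := abs_add_le (∫ s in (1 : ℝ)..y, (AA K s - c) * (1 / s))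
        (∫ s in y..x, (AA K s - c) * (1 / s))
      linarith
  linarith

end Pool.Agent.LSP
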