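import Pool.Agent.Lib_helper71.LSPM2.RMA

/-! LSP2, part M2: closed forms of the weights with a logarithm. -/

namespace Pool.Agent.LSP

open Pool.Agent.LEV Pool.Agent.LVB Pool.Agent.KSL
open Pool.Agent.FG61 (mu phi cc ff AA Lam)
open Complex MeasureTheory Filter Topology

theorem RVec_lg {z B : ℕ} {V : ℕ → ℝ} (hV : RVec z B V) : RVec z B (lg V) := fun d hd =>
  hV d (fun h => hd (by unfold lg; rw [h, zero_mul]))

theorem wd_yE {z M q : ℕ} (hq : 1 ≤ q) : wd (2 * M) (yE z M 2) q = wr z M 2 q :=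
  (wV_eq_wd (RVec_yE (by norm_num)) hq).symm

theorem wd_lg_yE {z M q : ℕ} (hq : 1 ≤ q) : wd (2 * M) (lg (yE z M 2)) q =
    ∑ m ∈ Finset.Icc 1 (2 * M), lg (yE z M 2) (q * m) :=
  (wV_eq_wd (RVec_lg (RVec_yE (by norm_num))) hq).symm

/-- the weights with a logarithm in closed form -/
theorem lgwd_eq {z M r : ℕ} (hz : z ≤ M) (hL : Real.log M ≠ 0) (hr : r ∈ RO z M) :
    wd (2 * M) (lg (yE z M 2)) r = mu r / (r * Real.log M) *
      (Real.log M * AA (r * Pz z) ((M : ℝ) / r) - A2 (r * Pz z) ((M : ℝ) / r)) -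
      if r = 1 then be z M 2 / Real.log M * ∑ p ∈ PK M 2, Real.log p / (p : ℝ) else 0 := by
  classical
  obtain ⟨hr1, hrM, hrr⟩ := WRS_mem_RO.1 hr
  rw [wd_lg_yE hr1]
  have hr0 : (0 : ℝ) < r := by exact_mod_cast hr1
  have hM0 : (0 : ℝ) < M := by exact_mod_cast (by omega : 0 < M)
  rw [← Finset.sum_filter_add_sum_filter_not _ (fun m => r * m ≤ M), sub_eq_add_neg]
  congr 1
  · have hset : (Finset.Icc 1 (2 * M)).filter (fun m => r * m ≤ M) = Finset.Icc 1 (M / r) := by
      ext m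
      rw [Finset.mem_filter, Finset.mem_Icc, Finset.mem_Icc, Nat.le_div_iff_mul_le (by omega)]
      constructor
      · rintro ⟨⟨h1, h2⟩, h3⟩
        exact ⟨h1, by rw [mul_comm]; exact h3⟩
      · rintro ⟨h1, h2⟩
        have h3 : r * m ≤ M := by rw [mul_comm]; exact h2
        have h4 : m ≤ r * m := Nat.le_mul_of_pos_left m (by omega)
        exact ⟨⟨h1, by omega⟩, h3⟩
    rw [hset]
    unfold AA A2
    have hfl : ⌊(M : ℝ) / r⌋₊ = M / r := Nat.floor_div_eq_div M r
    rw [hfl, Finset.mul_sum, ← Finset.sum_sub_distrib, Finset.mul_sum, Finset.sum_filter]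
    apply Finset.sum_congr rfl
    intro m hm
    rw [Finset.mem_Icc, Nat.le_div_iff_mul_le (by omega)] at hm
    have h1 := WRS_yE_small (z := z) (M := M) hrr hr1 hm.1 (by rw [mul_comm]; exact hm.2)
    have hm0 : (0 : ℝ) < m := by exact_mod_cast hm.1
    unfold lg
    rw [h1]
    split_ifs with hc
    · have h2 : Real.log ((r * m : ℕ) : ℝ) = Real.log M - Real.log ((M : ℝ) / r / m) := by
        rw [Nat.cast_mul, Real.log_mul hr0.ne' hm0.ne', Real.log_div (by positivity) hm0.ne',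
          Real.log_div hM0.ne' hr0.ne']
        ring
      rw [h2]
      ring
    · rw [zero_mul]
  · by_cases h1 : r = 1
    · rw [if_pos h1]
      subst h1
      have hset : ∀ m ∈ (Finset.Icc 1 (2 * M)).filter (fun m => ¬ 1 * m ≤ M),
          m ∉ PK M 2 → lg (yE z M 2) (1 * m) = 0 := by
        intro m hm hmP
        rw [Finset.mem_filter] at hm
        unfold lg
        rw [one_mul, WRS_yE_big (by omega) hmP, zero_mul]
      have hsub : PK M 2 ⊆ (Finset.Icc 1 (2 * M)).filter (fun m => ¬ 1 * m ≤ M) := by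
        intro p hp
        obtain ⟨h2, h3, h4⟩ := WRS_mem_PK.1 hp
        rw [Finset.mem_filter, Finset.mem_Icc]
        exact ⟨⟨h4.one_lt.le, h3⟩, by omega⟩
      rw [← Finset.sum_subset hsub hset, Finset.mul_sum, ← Finset.sum_neg_distrib]
      apply Finset.sum_congr rfl
      intro p hp
      unfold lg
      rw [one_mul, WRS_yE_PK hz hp]
      have hp0 : (p : ℝ) ≠ 0 := by exact_mod_cast (WRS_mem_PK.1 hp).2.2.pos.ne'
      field_simp
    · rw [if_neg h1, neg_zero]
      apply Finset.sum_eq_zero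
      intro m hm
      rw [Finset.mem_filter, Finset.mem_Icc] at hm
      unfold lg
      rw [WRS_yE_big (by omega), zero_mul]
      intro hP
      obtain ⟨h2, h3, h4⟩ := WRS_mem_PK.1 hP
      rcases (Nat.dvd_prime h4).1 (Dvd.intro m rfl) with h5 | h5
      · exact h1 h5
      · omega

/-- beyond `M` only the primes in `PK` matter -/
theorem big_zero {z M r : ℕ} (h1 : M < r) (h2 : r ∉ PK M 2) :
    wr z M 2 r = 0 ∧ ∑ m ∈ Finset.Icc 1 (2 * M), lg (yE z M 2) (r * m) = 0 := by
  have h0 : ∀ m ∈ Finset.Icc 1 (2 * M), yE z M 2 (r * m) = 0 := by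
    intro m hm
    rw [Finset.mem_Icc] at hm
    apply WRS_yE_big
    · exact h1.trans_le (Nat.le_mul_of_pos_right r (by omega))
    · intro hP
      obtain ⟨_, _, h4⟩ := WRS_mem_PK.1 hP
      rcases (Nat.dvd_prime h4).1 (Dvd.intro m rfl) with h5 | h5
      · have := WRS_mem_PK.1 hP
        subst h5
        by_cases hM : M = 0
        · subst hM
          simp at this
          omega
        · omega
      · have h6 : m = 1 := by
          have : r * m = r * 1 := by rw [mul_one]; exact h5.symm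
          exact Nat.eq_of_mul_eq_mul_left (by omega) this
        rw [h6, mul_one] at hP
        exact h2 hP
  constructor
  · unfold wr
    exact Finset.sum_eq_zero h0
  · refine Finset.sum_eq_zero fun m hm => ?_
    unfold lg
    rw [h0 m hm, zero_mul]

theorem lg_PK {z M r : ℕ} (hM : 1 ≤ M) (hr : r ∈ PK M 2) :
    ∑ m ∈ Finset.Icc 1 (2 * M), lg (yE z M 2) (r * m) = wr z M 2 r * Real.log r := by
  obtain ⟨h1, h2, h3⟩ := WRS_mem_PK.1 hr
  have h0 : ∀ m ∈ Finset.Icc 1 (2 * M), m ≠ 1 → yE z M 2 (r * m) = 0 := by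
    intro m hm hm1
    rw [Finset.mem_Icc] at hm
    have hm2 : 2 ≤ m := by omega
    have h4 : M < r * m := by nlinarith
    apply WRS_yE_big h4
    intro hP
    obtain ⟨_, _, h7⟩ := WRS_mem_PK.1 hP
    rcases (Nat.dvd_prime h7).1 (Dvd.intro m rfl) with h5 | h5
    · exact h3.one_lt.ne' h5
    · nlinarith
  have h4 : wr z M 2 r = yE z M 2 r := by
    unfold wr
    rw [Finset.sum_eq_single 1 h0 (fun h => absurd (Finset.mem_Icc.2 ⟨le_rfl, by omega⟩) h),
      mul_one]
  rw [Finset.sum_eq_single 1 (fun m hm hm1 => by unfold lg; rw [h0 m hm hm1, zero_mul])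
    (fun h => absurd (Finset.mem_Icc.2 ⟨le_rfl, by omega⟩) h), mul_one, h4]
  rfl

/-- the correction is small -/
theorem be_bound : ∃ C : ℝ, 1 ≤ C ∧ ∀ δ : ℝ, -(1 / 4) < δ → δ < 1 / 4 → ∃ N₀ : ℕ, ∀ N : ℕ,
    N₀ ≤ N → |be (zz N) (MM δ N) 2| ≤ C * (Real.log (MM δ N) / Real.log (zz N)) := by
  obtain ⟨C₁, hC₁, hg⟩ := bet_g0
  obtain ⟨M₀, hM₀⟩ := bet_primes
  refine ⟨2 * C₁ + 1, by linarith, fun δ h0 h1 => ?_⟩
  obtain ⟨N₁, hN₁⟩ := sizesM h0 h1 (ε := 1) one_pos
  have hL : Tendsto (fun N : ℕ => Real.log N) atTop atTop :=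
    Real.tendsto_log_atTop.comp tendsto_natCast_atTop_atTop
  have hlim : ∀ᶠ x : ℝ in atTop, 2 * (1 + Real.log x) * Real.log x ≤ x := by
    have h2 := (Real.isLittleO_pow_log_id_atTop (n := 2)).bound (c := 1 / 4) (by norm_num)
    filter_upwards [h2, eventually_ge_atTop (Real.exp 1)] with x h3 h4
    have hx0 : 0 < x := (Real.exp_pos 1).trans_le h4
    have h5 : 1 ≤ Real.log x := (Real.le_log_iff_exp_le hx0).2 h4
    simp only [id, Real.norm_eq_abs] at h3
    rw [abs_of_nonneg (by positivity), abs_of_pos hx0] at h3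
    nlinarith
  have hM : Tendsto (fun N : ℕ => ((MM δ N : ℕ) : ℝ)) atTop atTop := by
    refine tendsto_atTop.2 fun b => ?_
    filter_upwards [hL.eventually_ge_atTop (4 * (|b| + 2)), eventually_ge_atTop N₁] with N k1 k2
    obtain ⟨-, a2, a3, -, -, -, a7, -, -⟩ := hN₁ N k2
    have h3 : (1 / 4) * Real.log N ≤ (1 / 2 - δ) * Real.log N :=
      mul_le_mul_of_nonneg_right (by linarith) (by linarith [abs_nonneg b])
    have h4 := (abs_le.1 a7).1
    have hM0 : (0 : ℝ) < MM δ N := by exact_mod_cast (by omega : 0 < MM δ N)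
    have h5 := Real.log_le_sub_one_of_pos hM0
    have := le_abs_self b
    linarith
  obtain ⟨N₂, hN₂⟩ := eventually_atTop.1 ((hM.eventually hlim).and
    (hM.eventually_ge_atTop (M₀ : ℝ)))
  refine ⟨max N₁ N₂, fun N hN => ?_⟩
  obtain ⟨a1, a2, a3, -, a5, -, -, -, -⟩ := hN₁ N ((le_max_left _ _).trans hN)
  obtain ⟨b1, b2⟩ := hN₂ N ((le_max_right _ _).trans hN)
  obtain ⟨c1, c2, -⟩ := hM₀ (MM δ N) (by exact_mod_cast b2)
  have hM1 : 1 ≤ MM δ N := by omega
  have hg0 := hg (zz N) (MM δ N) a2 hM1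
  set M := MM δ N with hMd
  set L := Real.log (M : ℝ) with hLd
  set l := Real.log (zz N : ℝ) with hl
  have hM0 : (0 : ℝ) < M := by exact_mod_cast (by omega : 0 < M)
  have hL0 : 0 < L := Real.log_pos (by exact_mod_cast (by omega : 1 < M))
  have hl0 : 0 < l := by linarith
  have hlL : l ≤ L := Real.log_le_log (by exact_mod_cast (by omega : 0 < zz N))
    (by exact_mod_cast a3.le)
  have hcard0 : 0 < (M : ℝ) / (2 * L) := by positivity
  unfold be
  rw [abs_div, Nat.abs_cast, div_le_iff₀ (hcard0.trans_le c2)]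
  have h3 : (2 * C₁ + 1) * (L / l) * (M / (2 * L)) ≤
      (2 * C₁ + 1) * (L / l) * (PK M 2).card := mul_le_mul_of_nonneg_left c2 (by positivity)
  refine le_trans ?_ h3
  have h4 : (2 * C₁ + 1) * (L / l) * (M / (2 * L)) = C₁ * M / l + M / (2 * l) := by
    field_simp
  rw [h4]
  have h5 : 1 + L ≤ M / (2 * l) := by
    rw [le_div_iff₀ (by positivity)]
    have : (1 + L) * (2 * l) ≤ (1 + L) * (2 * L) :=
      mul_le_mul_of_nonneg_left (by linarith) (by linarith)
    nlinarith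
  linarith

end Pool.Agent.LSP
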