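import Pool.Agent.Lib_helper71.LSPM2.DEF4

/-! LSP2, part M2: the profiles of the weights. -/

namespace Pool.Agent.LSP

open Pool.Agent.LEV Pool.Agent.LVB Pool.Agent.KSL
open Pool.Agent.FG61 (mu phi cc ff AA Lam)
open Complex MeasureTheory Filter Topology

theorem prf_num1 {a c L lX e C₁ k : ℝ} (hL : 0 < L) (hlX : 0 < lX) (hLX : lX ≤ 5 * L)
    (hk : |k| ≤ 2 * e) (ha : |a| ≤ c) (hc : 0 ≤ c) (he : 0 ≤ e) (h : 5 * (c + 2 * e) ≤ C₁) :
    |(a - k) / L| ≤ C₁ / lX := by
  rw [abs_div, abs_of_pos hL]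
  have h1 : |a - k| ≤ c + 2 * e := (abs_sub _ _).trans (add_le_add ha hk)
  calc |a - k| / L ≤ (c + 2 * e) / L := div_le_div_of_nonneg_right h1 hL.le
    _ ≤ C₁ / lX := by
        rw [div_le_div_iff₀ hL hlX]
        calc (c + 2 * e) * lX ≤ (c + 2 * e) * (5 * L) :=
              mul_le_mul_of_nonneg_left hLX (by positivity)
          _ = 5 * (c + 2 * e) * L := by ring
          _ ≤ C₁ * L := mul_le_mul_of_nonneg_right h hL.le

theorem prf_num2 {C₂ C₃ lX l e V b : ℝ} (hC₂ : 0 < C₂) (hC₃ : 0 < C₃) (hlX : 100 ≤ lX)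
    (hl : 0 < l) (he : 0 < e) (hb : 0 ≤ b) (hb2 : b ≤ C₂ / l) (hV : V ≤ C₃ / l)
    (a6 : lX ≤ 2 * Real.log lX ^ 2 * l) (f1 : C₂ * C₃ * (4 * Real.log lX ^ 4) ≤ e * lX) :
    V * b ≤ e / lX := by
  have hlX0 : 0 < lX := by linarith
  have h8 : V * b ≤ C₃ / l * (C₂ / l) := mul_le_mul hV hb2 hb (by positivity)
  refine h8.trans ?_
  have hll : 0 < Real.log lX := Real.log_pos (by linarith)
  have h9 : C₂ * C₃ * lX ≤ e * l ^ 2 := by
    have k1 : lX ^ 2 ≤ 4 * Real.log lX ^ 4 * l ^ 2 := by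
      calc lX ^ 2 ≤ (2 * Real.log lX ^ 2 * l) ^ 2 := pow_le_pow_left₀ hlX0.le a6 2
        _ = _ := by ring
    have k2 : C₂ * C₃ * lX * (4 * Real.log lX ^ 4) ≤ e * l ^ 2 * (4 * Real.log lX ^ 4) := by
      calc C₂ * C₃ * lX * (4 * Real.log lX ^ 4) = C₂ * C₃ * (4 * Real.log lX ^ 4) * lX := by
            ring
        _ ≤ e * lX * lX := mul_le_mul_of_nonneg_right f1 hlX0.le
        _ = e * lX ^ 2 := by ring
        _ ≤ e * (4 * Real.log lX ^ 4 * l ^ 2) := mul_le_mul_of_nonneg_left k1 he.le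
        _ = _ := by ring
    exact le_of_mul_le_mul_right k2 (by positivity)
  rw [div_mul_div_comm, div_le_div_iff₀ (by positivity) hlX0]
  linarith [h9, (by ring : l * l = l ^ 2), (by ring : C₂ * C₃ * lX = C₃ * C₂ * lX),
    (by ring : e * (l * l) = e * l ^ 2)]

/-- the correction at `q = 1` -/
theorem prf_k2 {V L l e C₂ M : ℝ} {b : ℝ} {S : Finset ℕ} (hV : 0 < V) (hV1 : V ≤ 1) (hL : 0 < L)
    (hl : 0 < l) (hC₂ : 0 < C₂) (hb : |b| / L ≤ C₂ / l) (hC₂l : 4 * C₂ ≤ e * l)
    (hS : ∀ p ∈ S, 0 < p ∧ (p : ℝ) ≤ 2 * M) (hM : Real.log (2 * M) ≤ 2 * L)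
    (b3 : ∑ p ∈ S, 1 / (p : ℝ) ≤ 2 / L) :
    |V * (b / L * ∑ p ∈ S, Real.log p / (p : ℝ))| ≤ e := by
  rw [abs_mul, abs_of_pos hV, abs_mul, abs_div, abs_of_pos hL]
  have h3 : |∑ p ∈ S, Real.log p / (p : ℝ)| ≤ 2 * L * (2 / L) := by
    rw [abs_of_nonneg (Finset.sum_nonneg fun p _ =>
      div_nonneg (Real.log_natCast_nonneg p) (Nat.cast_nonneg p))]
    calc ∑ p ∈ S, Real.log p / (p : ℝ) ≤ ∑ p ∈ S, 2 * L * (1 / (p : ℝ)) := by
          refine Finset.sum_le_sum fun p hp => ?_
          obtain ⟨g1, g2⟩ := hS p hp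
          have hp0 : (0 : ℝ) < p := by exact_mod_cast g1
          have h5 : Real.log p ≤ 2 * L := (Real.log_le_log hp0 g2).trans hM
          calc Real.log p / p = Real.log p * (1 / p) := by ring
            _ ≤ _ := mul_le_mul_of_nonneg_right h5 (by positivity)
      _ = 2 * L * ∑ p ∈ S, 1 / (p : ℝ) := by rw [Finset.mul_sum]
      _ ≤ 2 * L * (2 / L) := mul_le_mul_of_nonneg_left b3 (by positivity)
  have h4 : 2 * L * (2 / L) = 4 := by field_simp; norm_num
  rw [h4] at h3
  calc V * (|b| / L * |∑ p ∈ S, Real.log p / (p : ℝ)|) ≤ 1 * (C₂ / l * 4) := by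
        refine mul_le_mul hV1 ?_ (by positivity) zero_le_one
        exact mul_le_mul hb h3 (abs_nonneg _) (by positivity)
    _ ≤ e := by
        rw [one_mul, div_mul_eq_mul_div, div_le_iff₀ hl]
        linarith

/-- the weights vanish off the squarefree rough numbers -/
theorem wd_zero (δ : ℝ) (X : ℕ) {q : ℕ} (hq : 1 ≤ q) (h : ¬ (Squarefree q ∧ rough (zz X) q)) :
    wd (2 * MM δ X) (YE δ X) q = 0 ∧ wd (2 * MM δ X) (lg (YE δ X)) q = 0 := by
  have h0 : ∀ d, q ∣ d → YE δ X d = 0 := by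
    intro d hd
    by_contra hne
    unfold YE at hne
    apply h
    constructor
    · by_contra hs
      apply hne
      apply WRS_yE_nsq
      intro hs'
      exact hs (hs'.squarefree_of_dvd hd)
    · intro p hp hpq
      exact (SPL_yE_le (by norm_num) hne).1 p hp (hpq.trans hd)
  unfold wd lg
  constructor
  · refine Finset.sum_eq_zero fun d _ => ?_
    split_ifs with hd
    · exact h0 d hd
    · rfl
  · refine Finset.sum_eq_zero fun d _ => ?_
    split_ifs with hd
    · rw [h0 d hd, zero_mul]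
    · rfl

/-- the profiles -/
theorem profile : ∃ C : ℝ, 1 ≤ C ∧ ∀ δ : ℝ, -(1 / 4) < δ → δ < 1 / 4 → ∀ ε : ℝ, 0 < ε → ε ≤ 1 →
    ∃ X₀ : ℕ, ∀ X : ℕ, X₀ ≤ X → ∀ q : ℕ, 1 ≤ q → Squarefree q → rough (zz X) q →
      |prP δ X q - mP δ X q| ≤ erP C ε δ X q / Real.log X ∧
      |prL δ X q - mL δ X q| ≤ erP C ε δ X q := by
  obtain ⟨C₁, hC₁, hAA⟩ := aa_bound
  obtain ⟨C₂, hC₂, hbe⟩ := be_bound
  obtain ⟨c₃, C₃, hc₃, hC₃, hVz⟩ := vz_bounds
  refine ⟨20 * (C₁ + 4), by linarith, fun δ h0 h1 ε hε hε1 => ?_⟩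
  set e : ℝ := ε / (20 * (C₁ + 4)) with he
  have he0 : 0 < e := by positivity
  have heε : 20 * (C₁ + 4) * e = ε := by rw [he]; field_simp
  have hC₁e : 0 < C₁ * e := by positivity
  have heε' : e ≤ ε := by linarith
  have he1 : e ≤ 1 := by linarith
  set e₁ : ℝ := min e (e / (4 * C₂)) with he₁
  have he₁0 : 0 < e₁ := lt_min he0 (by positivity)
  have he₁e : e₁ ≤ e := min_le_left _ _
  obtain ⟨N₁, hN₁⟩ := aa_rough (ε := e) (ε' := e) he0 he0
  obtain ⟨N₂, hN₂⟩ := sizesM h0 h1 he₁0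
  obtain ⟨N₃, hN₃⟩ := be_smallM h0 h1 (ε := e) he0
  obtain ⟨N₄, hN₄⟩ := hbe δ h0 h1
  have hL : Tendsto (fun N : ℕ => Real.log N) atTop atTop :=
    Real.tendsto_log_atTop.comp tendsto_natCast_atTop_atTop
  have hlim : ∀ᶠ x : ℝ in atTop, C₂ * C₃ * (4 * Real.log x ^ 4) ≤ e * x := by
    have h2 := (Real.isLittleO_pow_log_id_atTop (n := 4)).bound
      (c := e / (4 * (C₂ * C₃))) (by positivity)
    filter_upwards [h2, eventually_ge_atTop 1] with x h3 h4
    have hx0 : 0 < x := by linarith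
    simp only [id, Real.norm_eq_abs] at h3
    rw [abs_of_nonneg (by positivity), abs_of_pos hx0] at h3
    have h5 : C₂ * C₃ * (4 * Real.log x ^ 4) ≤
        C₂ * C₃ * (4 * (e / (4 * (C₂ * C₃)) * x)) := by gcongr
    refine h5.trans (le_of_eq ?_)
    field_simp
  obtain ⟨N₅, hN₅⟩ := eventually_atTop.1 ((hL.eventually hlim).and
    (hL.eventually_ge_atTop 100))
  refine ⟨max N₁ (max N₂ (max N₃ (max N₄ N₅))), fun X hX q hq1 hsq hro => ?_⟩
  have c1 := hN₁ X ((le_max_left _ _).trans hX)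
  obtain ⟨a1, a2, a3, a4, a5, a6, a7, a8, a9⟩ := hN₂ X ((le_max_left _ _).trans
    ((le_max_right _ _).trans hX))
  obtain ⟨-, b2, b3⟩ := hN₃ X ((le_max_left _ _).trans ((le_max_right _ _).trans
    ((le_max_right _ _).trans hX)))
  have d1 := hN₄ X ((le_max_left _ _).trans ((le_max_right _ _).trans
    ((le_max_right _ _).trans ((le_max_right _ _).trans hX))))
  obtain ⟨f1, f2⟩ := hN₅ X ((le_max_right _ _).trans ((le_max_right _ _).trans
    ((le_max_right _ _).trans ((le_max_right _ _).trans hX))))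
  unfold prP prL mP mL erP YE
  set z := zz X with hz
  set M := MM δ X with hMd
  set L := Real.log (M : ℝ) with hLd
  set l := Real.log (z : ℝ) with hld
  set lX := Real.log (X : ℝ) with hlX
  set V := Vz z with hVd
  have hV := WRS_Vz_pos z
  have hV1 := WRS_Vz_le z
  have hM1 : 1 ≤ M := by omega
  have hM0 : (0 : ℝ) < M := by exact_mod_cast hM1
  have hX0 : (0 : ℝ) < X := by exact_mod_cast (by omega : 0 < X)
  have hX1 : (1 : ℝ) ≤ X := by exact_mod_cast (by omega : 1 ≤ X)
  have hlX0 : 0 < lX := by linarith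
  have hl0 : 0 < l := Real.log_pos (by exact_mod_cast (by omega : 1 < z))
  have hL0 : 0 < L := Real.log_pos (by exact_mod_cast (by omega : 1 < M))
  have h7 := abs_le.1 a7
  have hLlow : lX ≤ 5 * L := by
    have h3 : (1 / 4) * lX ≤ (1 / 2 - δ) * lX :=
      mul_le_mul_of_nonneg_right (by linarith) hlX0.le
    linarith [h7.1]
  have hLup : L + 1 ≤ lX := by
    have h3 : (1 / 2 - δ) * lX ≤ (3 / 4) * lX :=
      mul_le_mul_of_nonneg_right (by linarith) hlX0.le
    linarith [h7.2]
  have hl2 : Real.log 2 ≤ 1 := by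
    have := Real.log_two_lt_d9
    linarith
  have hl2' : 0 < Real.log 2 := Real.log_pos (by norm_num)
  have h2M : Real.log (2 * (M : ℝ)) ≤ lX := by
    rw [Real.log_mul (by norm_num) hM0.ne']
    linarith
  have h2M' : Real.log (2 * (M : ℝ)) ≤ 2 * L := by
    rw [Real.log_mul (by norm_num) hM0.ne']
    have : 1 ≤ L := by linarith
    linarith
  have hMX : M ≤ X := by
    have : Real.log (M : ℝ) ≤ Real.log X := by linarith
    have := (Real.log_le_log_iff hM0 hX0).1 this
    exact_mod_cast this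
  have hq0 : (0 : ℝ) < q := by exact_mod_cast hq1
  have hphi := WRS_phi_pos hq1
  have hC₂l : 4 * C₂ ≤ e * l := by
    have h3 : 1 / e₁ ≤ l := a5
    rw [div_le_iff₀ he₁0] at h3
    have h4 : l * e₁ ≤ l * (e / (4 * C₂)) := mul_le_mul_of_nonneg_left (min_le_right _ _) hl0.le
    have h5 : 1 ≤ l * (e / (4 * C₂)) := h3.trans h4
    rw [← mul_div_assoc, le_div_iff₀ (by positivity)] at h5
    linarith
  have hbeL : |be z M 2| / L ≤ C₂ / l := by
    rw [div_le_iff₀ hL0]
    refine d1.trans (le_of_eq ?_)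
    ring
  -- the majorant is nonnegative
  have her : ∀ {a b : ℝ}, 0 ≤ a → 0 ≤ b → ∀ (p r : Prop) [Decidable p] [Decidable r],
      0 ≤ (if p then a else 0) + if r then b else 0 := by
    intro a b ha hb p r _ _
    split_ifs <;> linarith
  by_cases hqM : q ≤ M
  · -- the main range
    have hqR : q ∈ RO z M := WRS_mem_RO.2 ⟨hq1, hqM, hro⟩
    have hqM' : (q : ℝ) ≤ M := by exact_mod_cast hqM
    rw [wd_yE hq1, lgwd_eq a3.le hL0.ne' hqR, if_pos hqM', if_pos hqM',
      if_pos (by linarith : (q : ℝ) ≤ 2 * M)]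
    have hkey := WRS_key a3.le hL0.ne' hqR hsq
    set x : ℝ := (M : ℝ) / q with hx
    have hx1 : 1 ≤ x := by rw [hx, le_div_iff₀ hq0]; linarith
    have hx0 : 0 < x := by linarith
    have hxM : x ≤ M := by
      rw [hx, div_le_iff₀ hq0]
      have : (1 : ℝ) ≤ q := by exact_mod_cast hq1
      nlinarith
    set c : ℝ := (q : ℝ) / phi q / V with hc
    have hc0 : 0 < c := by positivity
    have hAAb : ∀ s : ℝ, |AA (q * Pz z) s - c| ≤ (C₁ + 1) * c := by
      intro s
      have h3 := hAA (q * Pz z) (Nat.mul_pos hq1 (aax_Pz_pos z)) s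
      rw [aax_main hq1 hro] at h3
      have h4 := abs_sub (AA (q * Pz z) s) c
      rw [abs_of_pos hc0] at h4
      linarith
    have hAAs : ∀ s : ℝ, (X : ℝ) ^ e ≤ s → |AA (q * Pz z) s - c| ≤ e * c := fun s hs =>
      c1 q hsq hro (hqM.trans hMX) s hs
    have hXe : 1 ≤ (X : ℝ) ^ e := Real.one_le_rpow hX1 he0.le
    have hA2 := A2_bound (K := q * Pz z) (x := x) (c := c) (C := C₁ + 1) (ε := e)
      (y := (X : ℝ) ^ e) (l := lX) hx1 hc0.le (by linarith) he0.le hXe
      (Real.log_le_log hx0 (hxM.trans (by exact_mod_cast hMX))) (fun s _ => hAAb s) hAAs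
    rw [Real.log_rpow hX0] at hA2
    -- the corrections
    set k1 : ℝ := (if q = 1 then V * be z M 2 * ∑ p ∈ PK M 2, 1 / (p : ℝ) else 0) with hk1
    have hk1b : |k1| ≤ 2 * e := by
      rw [hk1]
      split_ifs
      · exact WRS_one_small hV.le hV1 hL0 he0.le b2
          (Finset.sum_nonneg fun p _ => by positivity) b3
      · rw [abs_zero]; positivity
    set k2 : ℝ := (if q = 1 then be z M 2 / L * ∑ p ∈ PK M 2, Real.log p / (p : ℝ) else 0) with hk2
    have hk2b : |mu q * (phi q * V * k2)| ≤ e := by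
      rw [hk2]
      split_ifs with hq
      · subst hq
        have m1 : mu 1 = 1 := by
          show ((ArithmeticFunction.moebius 1 : ℤ) : ℝ) = 1
          simp
        have m2 : phi 1 = 1 := by
          show ((Nat.totient 1 : ℕ) : ℝ) = 1
          simp
        rw [m1, m2, one_mul, one_mul]
        refine prf_k2 hV hV1 hL0 hl0 (by linarith) hbeL hC₂l (M := M) (fun p hp => ?_) h2M' b3
        obtain ⟨g1, g2, g3⟩ := WRS_mem_PK.1 hp
        exact ⟨g3.pos, by exact_mod_cast g2⟩
      · rw [mul_zero, mul_zero, abs_zero]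
        exact he0.le
    -- rewrite the differences
    have hmu2 := WRS_mu_sq hsq
    have hkey' : phi q * L * V * (mu q * wr z M 2 q) =
        phi q * V / q * AA (q * Pz z) x - k1 := hkey
    have hca : ∀ a : ℝ, phi q * V / q * a = a / c := by
      intro a
      rw [hc]
      field_simp
    have hcb : ∀ a : ℝ, (a - c) / c = a / c - 1 := by
      intro a
      rw [sub_div, div_self hc0.ne']
    have hcc : ∀ a b : ℝ, phi q * V / (q * L) * (L * a - b) = a / c - b / (c * L) := by
      intro a b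
      rw [hc]
      field_simp
    have e1 : mu q * (phi q * V * wr z M 2 q) - 1 / L =
        ((AA (q * Pz z) x - c) / c - k1) / L := by
      have h3 : mu q * (phi q * V * wr z M 2 q) = (AA (q * Pz z) x / c - k1) / L := by
        rw [← hca, ← hkey', eq_div_iff hL0.ne']
        ring
      rw [h3, hcb]
      ring
    have e2 : mu q * (phi q * V * (mu q / (q * L) * (L * AA (q * Pz z) x - A2 (q * Pz z) x) - k2)) -
        (2 * Real.log q - L) / L = (AA (q * Pz z) x - c) / c -
          (A2 (q * Pz z) x - 2 * c * Real.log x) / (c * L) - mu q * (phi q * V * k2) := by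
      have h3 : Real.log x = L - Real.log q := by
        rw [hx, Real.log_div hM0.ne' hq0.ne']
      have h4 : mu q * (phi q * V * (mu q / (q * L) * (L * AA (q * Pz z) x - A2 (q * Pz z) x) -
          k2)) = (mu q * mu q) * (phi q * V / (q * L) * (L * AA (q * Pz z) x -
            A2 (q * Pz z) x)) - mu q * (phi q * V * k2) := by ring
      have h5 : (A2 (q * Pz z) x - 2 * c * (L - Real.log q)) / (c * L) =
          A2 (q * Pz z) x / (c * L) - 2 * (L - Real.log q) / L := by
        rw [sub_div, mul_assoc 2 c, mul_left_comm 2 c, mul_div_mul_left _ _ hc0.ne']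
      have h6 : (2 * Real.log q - L) / L = 2 * Real.log q / L - 1 := by
        rw [sub_div, div_self hL0.ne']
      have h7 : 2 * (L - Real.log q) / L = 2 - 2 * Real.log q / L := by
        rw [mul_sub, sub_div, mul_div_assoc 2 L, div_self hL0.ne', mul_one]
      rw [h4, hmu2, h3, hcc, hcb, h5, h6, h7]
      ring
    rw [e1, e2]
    have hA2' : |(A2 (q * Pz z) x - 2 * c * Real.log x) / (c * L)| ≤ 10 * (C₁ + 2) * e := by
      rw [abs_div, abs_of_pos (by positivity : 0 < c * L), div_le_iff₀ (by positivity)]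
      refine hA2.trans ?_
      calc 2 * c * ((C₁ + 1) * (e * lX) + e * lX) = 2 * c * (C₁ + 2) * e * lX := by ring
        _ ≤ 2 * c * (C₁ + 2) * e * (5 * L) := mul_le_mul_of_nonneg_left hLlow (by positivity)
        _ = 10 * (C₁ + 2) * e * (c * L) := by ring
    have htri : |(AA (q * Pz z) x - c) / c -
          (A2 (q * Pz z) x - 2 * c * Real.log x) / (c * L) - mu q * (phi q * V * k2)| ≤
        |(AA (q * Pz z) x - c) / c| + 10 * (C₁ + 2) * e + e := by
      refine (abs_sub _ _).trans (add_le_add ((abs_sub _ _).trans ?_) hk2b)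
      exact add_le_add le_rfl hA2'
    by_cases hcase : (M : ℝ) * (X : ℝ) ^ (-ε) < q
    · rw [if_pos ⟨hcase, hqM'⟩]
      have h3 : |(AA (q * Pz z) x - c) / c| ≤ C₁ + 1 := by
        rw [abs_div, abs_of_pos hc0, div_le_iff₀ hc0]
        exact hAAb x
      constructor
      · refine (prf_num1 hL0 hlX0 hLlow hk1b h3 (by linarith) he0.le
          (C₁ := 20 * (C₁ + 4)) ?_).trans ?_
        · linarith
        · refine div_le_div_of_nonneg_right ?_ hlX0.le
          linarith
      · refine htri.trans ?_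
        linarith
    · push Not at hcase
      rw [if_neg (fun h => absurd h.1 (not_lt.2 hcase)), add_zero]
      have hxe : (X : ℝ) ^ e ≤ x := by
        have h3 : (X : ℝ) ^ ε ≤ x := by
          rw [hx, le_div_iff₀ hq0]
          calc (X : ℝ) ^ ε * q ≤ (X : ℝ) ^ ε * (M * (X : ℝ) ^ (-ε)) := by gcongr
            _ = M * ((X : ℝ) ^ ε * (X : ℝ) ^ (-ε)) := by ring
            _ = M := by rw [← Real.rpow_add hX0, add_neg_cancel, Real.rpow_zero, mul_one]
        exact (Real.rpow_le_rpow_of_exponent_le hX1 heε').trans h3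
      have h3 : |(AA (q * Pz z) x - c) / c| ≤ e := by
        rw [abs_div, abs_of_pos hc0, div_le_iff₀ hc0]
        exact hAAs x hxe
      constructor
      · refine prf_num1 hL0 hlX0 hLlow hk1b h3 he0.le he0.le ?_
        linarith
      · refine htri.trans ?_
        linarith
  · -- beyond `M`
    push Not at hqM
    have hqM' : ¬ (q : ℝ) ≤ M := by
      push Not
      exact_mod_cast hqM
    have hR : 0 ≤ (if (q : ℝ) ≤ 2 * M then ε else 0) + if (M : ℝ) * (X : ℝ) ^ (-ε) < q ∧
        (q : ℝ) ≤ M then 20 * (C₁ + 4) else 0 := by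
      split_ifs <;> linarith
    rw [if_neg hqM', if_neg hqM', sub_zero, sub_zero, wd_yE hq1, wd_lg_yE hq1]
    by_cases hP : q ∈ PK M 2
    · rw [lg_PK hM1 hP]
      obtain ⟨g1, g2, g3⟩ := WRS_mem_PK.1 hP
      have g2' : (q : ℝ) ≤ 2 * M := by exact_mod_cast g2
      rw [if_pos g2', if_neg (fun h => hqM' h.2), add_zero]
      have hw := WRS_wr_PK a3.le hM1 hP
      have h3 : |mu q * (phi q * V * wr z M 2 q)| ≤ e / lX := by
        have h4 : |phi q * wr z M 2 q| ≤ |be z M 2| / L := by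
          calc |phi q * wr z M 2 q| = phi q * |wr z M 2 q| := by rw [abs_mul, abs_of_pos hphi]
            _ ≤ q * |wr z M 2 q| := mul_le_mul_of_nonneg_right (WRS_phi_le q) (abs_nonneg _)
            _ = |q * wr z M 2 q| := by rw [abs_mul, abs_of_pos hq0]
            _ = |be z M 2| / L := by rw [hw, abs_neg, abs_div, abs_of_pos hL0]
        have h5 : |mu q * (phi q * V * wr z M 2 q)| ≤ V * (|be z M 2| / L) := by
          rw [abs_mul]
          calc |mu q| * |phi q * V * wr z M 2 q| ≤ 1 * |phi q * V * wr z M 2 q| :=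
                mul_le_mul_of_nonneg_right (WRS_mu_abs q) (abs_nonneg _)
            _ = V * |phi q * wr z M 2 q| := by
                rw [one_mul, show phi q * V * wr z M 2 q = V * (phi q * wr z M 2 q) by ring,
                  abs_mul, abs_of_pos hV]
            _ ≤ _ := mul_le_mul_of_nonneg_left h4 hV.le
        have h6 : V ≤ C₃ / l := (hVz z a2).2
        exact h5.trans (prf_num2 (by linarith) hC₃ (by linarith) hl0 he0 (by positivity) hbeL h6 a6 f1)
      constructor
      · refine h3.trans (div_le_div_of_nonneg_right heε' hlX0.le)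
      · rw [show mu q * (phi q * V * (wr z M 2 q * Real.log q)) =
            mu q * (phi q * V * wr z M 2 q) * Real.log q by ring, abs_mul,
          abs_of_nonneg (Real.log_natCast_nonneg q)]
        have h4 : Real.log q ≤ lX := (Real.log_le_log hq0 g2').trans h2M
        calc |mu q * (phi q * V * wr z M 2 q)| * Real.log q ≤ e / lX * lX :=
              mul_le_mul h3 h4 (Real.log_natCast_nonneg q) (by positivity)
          _ = e := by field_simp
          _ ≤ ε := heε'
    · obtain ⟨w1, w2⟩ := big_zero (z := z) hqM hP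
      rw [w1, w2]
      simp only [mul_zero, abs_zero]
      exact ⟨div_nonneg hR hlX0.le, hR⟩

end Pool.Agent.LSP
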