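import Pool.Agent.Lib_helper71.LSPM2.EXB
import Pool.Agent.Lib_helper68.KSLF.HGN
import Pool.Agent.Lib_helper68.KSLF.BGB

/-! LSP2, part M2: the splitting into smooth and rough numbers. -/

namespace Pool.Agent.LSP

open Pool.Agent.LEV Pool.Agent.LVB Pool.Agent.KSL
open Pool.Agent.FG61 (mu phi cc ff AA Lam)
open Complex MeasureTheory Filter Topology

open Classical in
/-- the sum over the rough numbers -/
noncomputable def ER (g : ℝ → ℝ) (z : ℕ) (V : ℕ → ℝ) (y : ℝ) : ℝ :=
  ∑' n : ℕ, if rough z n then WrV V n ^ 2 * (hK g (n * y) / n) else 0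

theorem T_nonneg {g : ℝ → ℝ} {G : ℝ} (hg : Kg g G) (V : ℕ → ℝ) (y : ℝ) (n : ℕ) :
    0 ≤ WrV V n ^ 2 * (hK g (n * y) / n) :=
  mul_nonneg (sq_nonneg _) (div_nonneg (hK_nonneg hg _) (Nat.cast_nonneg n))

open Classical in
theorem ER_summable {g : ℝ → ℝ} {G C : ℝ} (hg : Kd g G C) {z B : ℕ} {V : ℕ → ℝ}
    (hV : RVec z B V) {y : ℝ} (hy : 0 < y) :
    Summable (fun n : ℕ => if rough z n then WrV V n ^ 2 * (hK g (n * y) / n) else 0) := by
  refine Summable.of_nonneg_of_le (fun n => ?_) (fun n => ?_) (EE_hasSum hg hV hy).summable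
  · split_ifs
    · exact T_nonneg hg.toKg V y n
    · exact le_rfl
  · split_ifs
    · exact le_rfl
    · exact T_nonneg hg.toKg V y n

theorem ER_nonneg {g : ℝ → ℝ} {G : ℝ} (hg : Kg g G) (z : ℕ) (V : ℕ → ℝ) (y : ℝ) :
    0 ≤ ER g z V y := by
  refine tsum_nonneg fun n => ?_
  split_ifs
  · exact T_nonneg hg V y n
  · exact le_rfl

open Classical in
/-- the sum with the smooth factor -/
theorem SR_upper {g : ℝ → ℝ} {G C : ℝ} (hg : Kd g G C) {z B A E : ℕ} {V a : ℕ → ℝ}
    (hV : RVec z B V) (ha : ∀ k, a k ≠ 0 → smooth z k ∧ k ≤ A) (hE : A * B ≤ E) {y : ℝ}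
    (hy : 0 < y) :
    Summable (fun n : ℕ => WW E (wX E (xV z B V a)) n ^ 2 * hK g (n * y) / n) ∧
    ∑' n : ℕ, WW E (wX E (xV z B V a)) n ^ 2 * hK g (n * y) / n ≤ cn z A a * ER g z V y := by
  have hs := ER_summable hg hV hy
  have hc := (phi_al_pr ha).1
  have h0 : ∀ n : ℕ, 0 ≤ WW E (wX E (xV z B V a)) n ^ 2 * hK g (n * y) / n := fun n =>
    div_nonneg (mul_nonneg (sq_nonneg _) (hK_nonneg hg.toKg _)) (Nat.cast_nonneg n)
  have key : ∀ X : ℕ, ∑ n ∈ Finset.range X, WW E (wX E (xV z B V a)) n ^ 2 * hK g (n * y) / n ≤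
      cn z A a * ER g z V y := by
    intro X
    have h1 : ∑ n ∈ Finset.range X, WW E (wX E (xV z B V a)) n ^ 2 * hK g (n * y) / n ≤
        ∑ n ∈ Finset.Icc 1 X, WW E (wX E (xV z B V a)) n ^ 2 * hK g (n * y) / n := by
      have h2 : ∑ n ∈ Finset.range X, WW E (wX E (xV z B V a)) n ^ 2 * hK g (n * y) / n =
          ∑ n ∈ (Finset.range X).filter (fun n => 1 ≤ n),
            WW E (wX E (xV z B V a)) n ^ 2 * hK g (n * y) / n := by
        symm
        refine Finset.sum_filter_of_ne fun n _ hn => ?_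
        by_contra h3
        have : n = 0 := by omega
        subst this
        simp at hn
      rw [h2]
      refine Finset.sum_le_sum_of_subset_of_nonneg ?_ fun n _ _ => h0 n
      intro n hn
      rw [Finset.mem_filter, Finset.mem_range] at hn
      rw [Finset.mem_Icc]
      omega
    refine h1.trans ?_
    have h3 : ∀ n ∈ Finset.Icc 1 X, WW E (wX E (xV z B V a)) n ^ 2 * hK g (n * y) / n ≤
        (fun m r : ℕ => Ph A a m ^ 2 / m * (WrV V r ^ 2 * (hK g (r * y) / r))) (smp z n)
          (rop z n) := by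
      intro n hn
      rw [Finset.mem_Icc] at hn
      obtain ⟨q1, q2, q3, q4, q5⟩ := smp_rop_pr (z := z) hn.1
      have hs1 : 1 ≤ smp z n := Nat.pos_of_ne_zero q3.1
      have hs0 : (0 : ℝ) < smp z n := by exact_mod_cast hs1
      have hr0 : (0 : ℝ) < rop z n := by exact_mod_cast q5
      rw [WW_xV hV ha hE hn.1, ph_smp_pr ha hn.1, WrV_rop hV hn.1]
      have hn0 : (n : ℝ) = smp z n * rop z n := by rw [← Nat.cast_mul, q1]
      have h4 : hK g (n * y) ≤ hK g (rop z n * y) := by
        refine hK_anti hg.toKg (by positivity) ?_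
        refine mul_le_mul_of_nonneg_right ?_ hy.le
        rw [hn0]
        exact le_mul_of_one_le_left hr0.le (by exact_mod_cast hs1)
      simp only
      calc (Ph A a (smp z n) * WrV V (rop z n)) ^ 2 * hK g (n * y) / n ≤
            (Ph A a (smp z n) * WrV V (rop z n)) ^ 2 * hK g (rop z n * y) / n := by
            refine div_le_div_of_nonneg_right ?_ (Nat.cast_nonneg n)
            exact mul_le_mul_of_nonneg_left h4 (sq_nonneg _)
        _ = _ := by
            rw [hn0]
            field_simp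
    have h5 := HGN_split (z := z) (X := X)
      (F := fun m r : ℕ => Ph A a m ^ 2 / m * (WrV V r ^ 2 * (hK g (r * y) / r)))
      (fun m r => mul_nonneg (div_nonneg (sq_nonneg _) (Nat.cast_nonneg m))
        (T_nonneg hg.toKg V y r))
    refine ((Finset.sum_le_sum h3).trans h5).trans ?_
    rw [← Finset.sum_mul_sum]
    refine mul_le_mul ?_ ?_ (Finset.sum_nonneg fun r _ => T_nonneg hg.toKg V y r)
      (BGB_cn_nonneg z A a)
    · rw [Finset.sum_filter]
      exact hc.sum_le_tsum _ (fun m _ => by split_ifs <;> positivity)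
    · rw [Finset.sum_filter]
      exact hs.sum_le_tsum _ (fun m _ => by
        split_ifs
        · exact T_nonneg hg.toKg V y m
        · exact le_rfl)
  exact ⟨summable_of_sum_range_le h0 key, Real.tsum_le_of_sum_range_le h0 key⟩

open Classical in
/-- the reciprocal sum of smooth numbers -/
noncomputable def sZ (z Z : ℕ) : ℝ := ∑ m ∈ Finset.Icc 1 Z, if smooth z m then 1 / (m : ℝ) else 0

open Classical in
/-- the sum over the rough numbers in terms of the sum over all numbers -/
theorem SR_lower {g : ℝ → ℝ} {G C : ℝ} (hg : Kd g G C) {z B Z : ℕ} {V : ℕ → ℝ}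
    (hV : RVec z B V) {y : ℝ} (hy : 0 < y) (hZ : 1 ≤ Z) :
    sZ z Z * ER g z V (Z * y) ≤ EE g V y := by
  have hZ0 : (0 : ℝ) < Z := by exact_mod_cast hZ
  have hZy : 0 < Z * y := by positivity
  have hs := ER_summable hg hV hZy
  have hS0 : 0 ≤ sZ z Z := Finset.sum_nonneg fun m _ => by split_ifs <;> positivity
  have hEs := (EE_hasSum hg hV hy).summable
  unfold ER
  rw [← tsum_mul_left]
  refine Real.tsum_le_of_sum_range_le (fun n => mul_nonneg hS0 ?_) fun R => ?_
  · split_ifs
    · exact T_nonneg hg.toKg V _ n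
    · exact le_rfl
  set f : ℕ → ℝ := fun k => if smooth z k ∧ k ≤ Z then 1 / (k : ℝ) else 0 with hf
  set r : ℕ → ℝ := fun n => if rough z n ∧ n ≤ R then
    WrV V n ^ 2 * (hK g (n * (Z * y)) / n) else 0 with hr
  have hrn : ∀ n, 0 ≤ r n := by
    intro n
    rw [hr]
    beta_reduce
    split_ifs
    · exact T_nonneg hg.toKg V _ n
    · exact le_rfl
  have h1 := SPL_sum (z := z) (A := Z) (R := R) (E := Z * R) (f := f) (g := r)
    (fun k _ hk => by
      by_contra hc
      exact hk (if_neg hc))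
    (fun k _ hk => by
      by_contra hc
      exact hk (if_neg hc)) le_rfl (fun _ => 1)
  have h2 : ∑ n ∈ Finset.range R, sZ z Z * (if rough z n then
      WrV V n ^ 2 * (hK g (n * (Z * y)) / n) else 0) ≤
      ∑ k ∈ Finset.Icc 1 Z, ∑ n ∈ Finset.Icc 1 R, f k * r n * 1 := by
    simp only [mul_one]
    rw [← Finset.sum_mul_sum, ← Finset.mul_sum]
    have e1 : ∑ k ∈ Finset.Icc 1 Z, f k = sZ z Z := by
      unfold sZ
      refine Finset.sum_congr rfl fun k hk => ?_
      rw [Finset.mem_Icc] at hk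
      by_cases h5 : smooth z k
      · rw [if_pos h5]
        exact if_pos ⟨h5, hk.2⟩
      · rw [if_neg h5]
        exact if_neg fun h => h5 h.1
    rw [e1]
    refine mul_le_mul_of_nonneg_left ?_ hS0
    have e2 : ∑ n ∈ Finset.range R, (if rough z n then
        WrV V n ^ 2 * (hK g (n * (Z * y)) / n) else 0) =
        ∑ n ∈ (Finset.range R).filter (fun n => 1 ≤ n), (if rough z n then
        WrV V n ^ 2 * (hK g (n * (Z * y)) / n) else 0) := by
      symm
      refine Finset.sum_filter_of_ne fun n _ hn => ?_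
      by_contra h3
      have : n = 0 := by omega
      subst this
      simp at hn
    rw [e2]
    have e3 : ∀ n ∈ (Finset.range R).filter (fun n => 1 ≤ n), (if rough z n then
        WrV V n ^ 2 * (hK g (n * (Z * y)) / n) else 0) = r n := by
      intro n hn
      rw [Finset.mem_filter, Finset.mem_range] at hn
      by_cases h5 : rough z n
      · rw [if_pos h5]
        exact (if_pos ⟨h5, by omega⟩).symm
      · rw [if_neg h5]
        exact (if_neg fun h => h5 h.1).symm
    rw [Finset.sum_congr rfl e3]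
    refine Finset.sum_le_sum_of_subset_of_nonneg ?_ fun n _ _ => ?_
    · intro n hn
      rw [Finset.mem_filter, Finset.mem_range] at hn
      rw [Finset.mem_Icc]
      omega
    · exact hrn n
  refine h2.trans ?_
  rw [← h1]
  have h3 : ∀ e ∈ Finset.Icc 1 (Z * R), f (smp z e) * r (rop z e) * 1 ≤
      WrV V e ^ 2 * (hK g (e * y) / e) := by
    intro e he
    rw [Finset.mem_Icc] at he
    obtain ⟨q1, q2, q3, q4, q5⟩ := smp_rop_pr (z := z) he.1
    have hs1 : 1 ≤ smp z e := Nat.pos_of_ne_zero q3.1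
    have hs0 : (0 : ℝ) < smp z e := by exact_mod_cast hs1
    have hr0 : (0 : ℝ) < rop z e := by exact_mod_cast q5
    have hn0 : (e : ℝ) = smp z e * rop z e := by rw [← Nat.cast_mul, q1]
    simp only [hf, hr, mul_one]
    split_ifs with h4 h5
    · have h6 : hK g (rop z e * (Z * y)) ≤ hK g (e * y) := by
        refine hK_anti hg.toKg (by positivity) ?_
        rw [hn0]
        have : (smp z e : ℝ) ≤ Z := by exact_mod_cast h4.2
        calc (smp z e : ℝ) * rop z e * y ≤ Z * rop z e * y := by
              refine mul_le_mul_of_nonneg_right ?_ hy.le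
              exact mul_le_mul_of_nonneg_right this hr0.le
          _ = rop z e * (Z * y) := by ring
      rw [WrV_rop hV he.1]
      calc 1 / (smp z e : ℝ) * (WrV V (rop z e) ^ 2 * (hK g (rop z e * (Z * y)) / rop z e)) =
            WrV V (rop z e) ^ 2 * (hK g (rop z e * (Z * y)) / e) := by
            rw [hn0]
            field_simp
        _ ≤ WrV V (rop z e) ^ 2 * (hK g (e * y) / e) := by
            refine mul_le_mul_of_nonneg_left ?_ (sq_nonneg _)
            exact div_le_div_of_nonneg_right h6 (Nat.cast_nonneg e)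
    · rw [mul_zero]
      exact T_nonneg hg.toKg V y e
    · rw [zero_mul]
      exact T_nonneg hg.toKg V y e
    · rw [zero_mul]
      exact T_nonneg hg.toKg V y e
  refine (Finset.sum_le_sum h3).trans ?_
  exact hEs.sum_le_tsum _ (fun n _ => T_nonneg hg.toKg V y n)

end Pool.Agent.LSP
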